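import Pool.Agent.Lib.MP_eee7a8_ag.TB.Defs

/-!
# TAGBR: basic facts on cusps, determinants and crossing
-/

open Matrix

namespace Pool.Agent.Lib.MP_eee7a8_ag.TB

/-! ## Determinants -/

theorem dt_self (a : Cusp) : dt a a = 0 := by
  unfold dt; ring

theorem dt_symm (a b : Cusp) : dt a b = -dt b a := by
  unfold dt; ring

theorem dt_abs_symm (a b : Cusp) : |dt a b| = |dt b a| := by
  rw [dt_symm, abs_neg]

theorem plucker (a b c d : Cusp) : dt a b * dt c d - dt a c * dt b d + dt a d * dt b c = 0 := by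
  unfold dt; ring

theorem Cusp.ne_zero (a : Cusp) : a.x ≠ 0 ∨ a.y ≠ 0 := by
  by_contra h
  push Not at h
  have := a.cop
  rw [h.1, h.2] at this
  exact not_isCoprime_zero_zero this

/-- Two primitive vectors with zero determinant agree up to sign. -/
theorem prim_eq {x y x' y' : ℤ} (h : IsCoprime x y) (h' : IsCoprime x' y')
    (e : x * y' - y * x' = 0) : (x' = x ∧ y' = y) ∨ (x' = -x ∧ y' = -y) := by
  obtain ⟨u, v, huv⟩ := h
  obtain ⟨u', v', huv'⟩ := h'
  set k := u * x' + v * y' with hk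
  have hx : x' = k * x := by
    rw [hk]; linear_combination (-x') * huv - v * e
  have hy : y' = k * y := by
    rw [hk]; linear_combination (-y') * huv + u * e
  have h1 : k * (u' * x + v' * y) = 1 := by
    rw [← huv', hx, hy]; ring
  rcases Int.isUnit_iff.1 (IsUnit.of_mul_eq_one _ h1) with h2 | h2
  · left; rw [h2] at hx hy; constructor <;> linarith
  · right; rw [h2] at hx hy; constructor <;> linarith

theorem dt_eq_zero {a b : Cusp} : dt a b = 0 ↔ a = b := by
  constructor
  · intro h
    rcases prim_eq a.cop b.cop h with ⟨h1, h2⟩ | ⟨h1, h2⟩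
    · exact (Cusp.ext h1 h2).symm
    · exfalso
      rcases a.nrm with ha | ⟨ha, ha'⟩ <;> rcases b.nrm with hb | ⟨hb, hb'⟩ <;> omega
  · rintro rfl; exact dt_self a

theorem dt_ne_zero {a b : Cusp} (h : a ≠ b) : dt a b ≠ 0 := fun h' => h (dt_eq_zero.1 h')

theorem one_le_abs_dt {a b : Cusp} (h : a ≠ b) : 1 ≤ |dt a b| :=
  Int.one_le_abs (dt_ne_zero h)

/-! ## The action -/

/-- The vector `g a` is `eps g a` times the normalised vector of the cusp `g • a`. -/
def eps (g : SLZ) (a : Cusp) : ℤ :=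
  if 0 < g.1 1 0 * a.x + g.1 1 1 * a.y then 1
  else if g.1 1 0 * a.x + g.1 1 1 * a.y < 0 then -1
  else g.1 0 0 * a.x + g.1 0 1 * a.y

theorem mk'_aux (x y : ℤ) (h : IsCoprime x y) :
    (if 0 < y then (1 : ℤ) else if y < 0 then -1 else x) * (Cusp.mk' x y h).x = x ∧
    (if 0 < y then (1 : ℤ) else if y < 0 then -1 else x) * (Cusp.mk' x y h).y = y ∧
    ((if 0 < y then (1 : ℤ) else if y < 0 then -1 else x) = 1 ∨
     (if 0 < y then (1 : ℤ) else if y < 0 then -1 else x) = -1) := by
  unfold Cusp.mk'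
  split_ifs with h1 h2
  · simp
  · simp
  · have hy : y = 0 := by omega
    subst hy
    have : IsUnit x := isCoprime_zero_right.1 h
    refine ⟨by simp, by simp, Int.isUnit_iff.1 this⟩

theorem smul_x (g : SLZ) (a : Cusp) :
    eps g a * (g • a).x = g.1 0 0 * a.x + g.1 0 1 * a.y :=
  (mk'_aux _ _ (Cusp.cop_smul g a)).1

theorem smul_y (g : SLZ) (a : Cusp) :
    eps g a * (g • a).y = g.1 1 0 * a.x + g.1 1 1 * a.y :=
  (mk'_aux _ _ (Cusp.cop_smul g a)).2.1

theorem eps_or (g : SLZ) (a : Cusp) : eps g a = 1 ∨ eps g a = -1 :=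
  (mk'_aux _ _ (Cusp.cop_smul g a)).2.2

theorem eps_sq (g : SLZ) (a : Cusp) : eps g a * eps g a = 1 := by
  rcases eps_or g a with h | h <;> rw [h] <;> norm_num

theorem eps_ne_zero (g : SLZ) (a : Cusp) : eps g a ≠ 0 := by
  rcases eps_or g a with h | h <;> rw [h] <;> norm_num

theorem det_eq (g : SLZ) : g.1 0 0 * g.1 1 1 - g.1 0 1 * g.1 1 0 = 1 := by
  have := g.2
  rwa [Matrix.det_fin_two] at this

theorem smul_x' (g : SLZ) (a : Cusp) :
    (g • a).x = eps g a * (g.1 0 0 * a.x + g.1 0 1 * a.y) := by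
  rw [← smul_x, ← mul_assoc, eps_sq, one_mul]

theorem smul_y' (g : SLZ) (a : Cusp) :
    (g • a).y = eps g a * (g.1 1 0 * a.x + g.1 1 1 * a.y) := by
  rw [← smul_y, ← mul_assoc, eps_sq, one_mul]

theorem dt_smul (g : SLZ) (a b : Cusp) :
    dt (g • a) (g • b) = eps g a * eps g b * dt a b := by
  unfold dt
  rw [smul_x', smul_x', smul_y', smul_y']
  linear_combination (eps g a * eps g b * (a.x * b.y - a.y * b.x)) * det_eq g

theorem abs_dt_smul (g : SLZ) (a b : Cusp) : |dt (g • a) (g • b)| = |dt a b| := by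
  rw [dt_smul, abs_mul, abs_mul]
  have h1 : |eps g a| = 1 := by rcases eps_or g a with h | h <;> rw [h] <;> norm_num
  have h2 : |eps g b| = 1 := by rcases eps_or g b with h | h <;> rw [h] <;> norm_num
  rw [h1, h2]; ring

/-- A cusp is determined by its vector up to sign. -/
theorem Cusp.ext_pm {a b : Cusp} {e : ℤ} (_he : e = 1 ∨ e = -1) (h1 : e * a.x = b.x)
    (h2 : e * a.y = b.y) : a = b := by
  apply dt_eq_zero.1
  unfold dt
  rw [← h1, ← h2]; ring

theorem one_smul' (a : Cusp) : (1 : SLZ) • a = a := by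
  apply Cusp.ext_pm (eps_or 1 a)
  · rw [smul_x]; simp
  · rw [smul_y]; simp

theorem mul_smul' (g h : SLZ) (a : Cusp) : (g * h) • a = g • h • a := by
  apply dt_eq_zero.1
  unfold dt
  rw [smul_x' (g * h) a, smul_y' (g * h) a, smul_x' g (h • a), smul_y' g (h • a), smul_x' h a,
    smul_y' h a]
  simp only [Matrix.SpecialLinearGroup.coe_mul, Matrix.mul_apply, Fin.sum_univ_two]
  ring

instance : MulAction SLZ Cusp where
  one_smul := one_smul'
  mul_smul := mul_smul'

theorem neg_smul' (g : SLZ) (a : Cusp) : (-g) • a = g • a := by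
  apply dt_eq_zero.1
  unfold dt
  rw [smul_x' (-g) a, smul_y' (-g) a, smul_x' g a, smul_y' g a]
  simp only [Matrix.SpecialLinearGroup.coe_neg, Matrix.neg_apply]
  ring

theorem eps_mul (g h : SLZ) (a : Cusp) : eps (g * h) a = eps g (h • a) * eps h a := by
  have key : ∀ e e' : ℤ, ∀ b : Cusp, e * b.x = e' * b.x → e * b.y = e' * b.y → e = e' := by
    intro e e' b h1 h2
    rcases b.ne_zero with hb | hb
    · exact mul_right_cancel₀ hb h1
    · exact mul_right_cancel₀ hb h2
  apply key _ _ ((g * h) • a)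
  · rw [smul_x, mul_smul]
    simp only [Matrix.SpecialLinearGroup.coe_mul, Matrix.mul_apply, Fin.sum_univ_two]
    have e1 := smul_x h a
    have e2 := smul_y h a
    have e3 := smul_x g (h • a)
    linear_combination (-(eps h a)) * e3 - (g.1 0 0) * e1 - (g.1 0 1) * e2
  · rw [smul_y, mul_smul]
    simp only [Matrix.SpecialLinearGroup.coe_mul, Matrix.mul_apply, Fin.sum_univ_two]
    have e1 := smul_x h a
    have e2 := smul_y h a
    have e3 := smul_y g (h • a)
    linear_combination (-(eps h a)) * e3 - (g.1 1 0) * e1 - (g.1 1 1) * e2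

/-! ## Crossing -/

theorem cross_smul (g : SLZ) (a b c d : Cusp) :
    Cross (g • a) (g • b) (g • c) (g • d) ↔ Cross a b c d := by
  unfold Cross
  rw [dt_smul, dt_smul, dt_smul, dt_smul]
  have h : (eps g a * eps g c * dt a c * (eps g b * eps g c * dt b c)) *
      (eps g a * eps g d * dt a d * (eps g b * eps g d * dt b d)) =
      (dt a c * dt b c) * (dt a d * dt b d) := by
    linear_combination ((eps g b * eps g c * dt a c * (eps g c * dt b c)) *
      (eps g d * dt a d * (eps g b * eps g d * dt b d))) * eps_sq g a +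
      ((eps g c * dt a c * (eps g c * dt b c)) *
      (eps g d * dt a d * (eps g d * dt b d))) * eps_sq g b +
      ((dt a c * dt b c) * (eps g d * dt a d * (eps g d * dt b d))) * eps_sq g c +
      ((dt a c * dt b c) * (dt a d * dt b d)) * eps_sq g d
  rw [h]

theorem cross_comm_left {a b c d : Cusp} : Cross a b c d ↔ Cross b a c d := by
  unfold Cross
  rw [show (dt a c * dt b c) * (dt a d * dt b d) = (dt b c * dt a c) * (dt b d * dt a d) by ring]

theorem cross_comm_right {a b c d : Cusp} : Cross a b c d ↔ Cross a b d c := by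
  unfold Cross
  rw [show (dt a c * dt b c) * (dt a d * dt b d) = (dt a d * dt b d) * (dt a c * dt b c) by ring]

theorem cross_swap {a b c d : Cusp} : Cross a b c d ↔ Cross c d a b := by
  unfold Cross
  rw [dt_symm c a, dt_symm d a, dt_symm c b, dt_symm d b]
  rw [show (dt a c * dt b c) * (dt a d * dt b d) =
    (-dt a c * -dt a d) * (-dt b c * -dt b d) by ring]

theorem Cross.ne {a b c d : Cusp} (h : Cross a b c d) :
    a ≠ b ∧ a ≠ c ∧ a ≠ d ∧ b ≠ c ∧ b ≠ d ∧ c ≠ d := by
  unfold Cross at h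
  have h0 : dt a c * dt b c * (dt a d * dt b d) ≠ 0 := ne_of_lt h
  have h1 : dt a c ≠ 0 := fun e => h0 (by rw [e]; ring)
  have h2 : dt b c ≠ 0 := fun e => h0 (by rw [e]; ring)
  have h3 : dt a d ≠ 0 := fun e => h0 (by rw [e]; ring)
  have h4 : dt b d ≠ 0 := fun e => h0 (by rw [e]; ring)
  refine ⟨?_, fun e => h1 (dt_eq_zero.2 e), fun e => h3 (dt_eq_zero.2 e),
    fun e => h2 (dt_eq_zero.2 e), fun e => h4 (dt_eq_zero.2 e), ?_⟩
  · rintro rfl
    nlinarith [mul_self_nonneg (dt a c * dt a d)]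
  · rintro rfl
    nlinarith [mul_self_nonneg (dt a c * dt b c)]

/-- Integer Ptolemy relation. -/
theorem Cross.ptolemy {a b c d : Cusp} (h : Cross a b c d) :
    |dt a b| * |dt c d| = |dt a c| * |dt b d| + |dt a d| * |dt b c| := by
  have hp := plucker a b c d
  unfold Cross at h
  -- `dt a b * dt c d = dt a c * dt b d - dt a d * dt b c`, and the two terms have opposite signs
  have h1 : (dt a c * dt b d) * (dt a d * dt b c) < 0 := by nlinarith
  rw [← abs_mul, ← abs_mul, ← abs_mul]
  rcases lt_or_gt_of_ne (show dt a c * dt b d ≠ 0 from fun e => by rw [e] at h1; simp at h1)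
    with h2 | h2
  · have h3 : 0 < dt a d * dt b c := by nlinarith
    rw [abs_of_neg h2, abs_of_pos h3, abs_of_neg (by linarith)]
    linarith
  · have h3 : dt a d * dt b c < 0 := by nlinarith
    rw [abs_of_pos h2, abs_of_neg h3, abs_of_pos (by linarith)]
    linarith

/-- Separation: two points weakly on one side and two points weakly on the other side of `st` do
not cross. -/
theorem not_cross_of_sides {s t a b c d : Cusp} (ha : 0 ≤ dt s a * dt t a)
    (hb : 0 ≤ dt s b * dt t b) (hc : dt s c * dt t c ≤ 0) (hd : dt s d * dt t d ≤ 0)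
    (hst : s ≠ t) : ¬ Cross a b c d := by
  have key : ∀ v w : Cusp, dt s t * dt v w = dt s v * dt t w - dt s w * dt t v := by
    intro v w
    have := plucker s t v w
    linarith
  unfold Cross
  intro h
  have h0 : 0 < dt s t * dt s t := mul_self_pos.2 (dt_ne_zero hst)
  have h1 : (dt s a * dt t c - dt s c * dt t a) * (dt s b * dt t c - dt s c * dt t b) *
      ((dt s a * dt t d - dt s d * dt t a) * (dt s b * dt t d - dt s d * dt t b)) < 0 := by
    rw [← key, ← key, ← key, ← key]
    have : dt s t * dt a c * (dt s t * dt b c) * (dt s t * dt a d * (dt s t * dt b d)) =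
      (dt s t * dt s t) * (dt s t * dt s t) * ((dt a c * dt b c) * (dt a d * dt b d)) := by ring
    rw [this]
    exact mul_neg_of_pos_of_neg (mul_pos h0 h0) h
  generalize dt s a = p at *
  generalize dt t a = q at *
  generalize dt s b = p' at *
  generalize dt t b = q' at *
  generalize dt s c = r at *
  generalize dt t c = u at *
  generalize dt s d = r' at *
  generalize dt t d = u' at *
  -- signs of the four factors
  have fac : ∀ p q r u : ℤ, ∀ e : ℤ, (0 ≤ e * p ∧ 0 ≤ e * q) →
      ∀ f : ℤ, (0 ≤ f * r ∧ f * u ≤ 0) → e * f * (p * u - r * q) ≤ 0 := by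
    intro p q r u e he f hf
    have : e * f * (p * u - r * q) = (e * p) * (f * u) - (f * r) * (e * q) := by ring
    rw [this]
    nlinarith [mul_nonneg he.1 (neg_nonneg.2 hf.2), mul_nonneg hf.1 he.2]
  have ex1 : ∀ p q : ℤ, 0 ≤ p * q → ∃ e : ℤ, e * e = 1 ∧ 0 ≤ e * p ∧ 0 ≤ e * q := by
    intro p q h
    rcases mul_nonneg_iff.1 h with ⟨h1, h2⟩ | ⟨h1, h2⟩
    · exact ⟨1, by norm_num, by linarith, by linarith⟩
    · exact ⟨-1, by norm_num, by linarith, by linarith⟩
  have ex2 : ∀ p q : ℤ, p * q ≤ 0 → ∃ e : ℤ, e * e = 1 ∧ 0 ≤ e * p ∧ e * q ≤ 0 := by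
    intro p q h
    rcases mul_nonpos_iff.1 h with ⟨h1, h2⟩ | ⟨h1, h2⟩
    · exact ⟨1, by norm_num, by linarith, by linarith⟩
    · exact ⟨-1, by norm_num, by linarith, by linarith⟩
  obtain ⟨ea, ea1, ea2⟩ := ex1 p q ha
  obtain ⟨eb, eb1, eb2⟩ := ex1 p' q' hb
  obtain ⟨ec, ec1, ec2⟩ := ex2 r u hc
  obtain ⟨ed, ed1, ed2⟩ := ex2 r' u' hd
  have f1 := fac p q r u ea ea2 ec ec2
  have f2 := fac p' q' r u eb eb2 ec ec2
  have f3 := fac p q r' u' ea ea2 ed ed2
  have f4 := fac p' q' r' u' eb eb2 ed ed2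
  have f5 := mul_nonneg_of_nonpos_of_nonpos f1 f2
  have f6 := mul_nonneg_of_nonpos_of_nonpos f3 f4
  have f7 := mul_nonneg f5 f6
  have f8 : ea * ec * (p * u - r * q) * (eb * ec * (p' * u - r * q')) *
      (ea * ed * (p * u' - r' * q) * (eb * ed * (p' * u' - r' * q'))) =
      (p * u - r * q) * (p' * u - r * q') * ((p * u' - r' * q) * (p' * u' - r' * q')) := by
    have : ea * ec * (p * u - r * q) * (eb * ec * (p' * u - r * q')) *
      (ea * ed * (p * u' - r' * q) * (eb * ed * (p' * u' - r' * q'))) =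
      (ea * ea) * (eb * eb) * (ec * ec) * (ed * ed) *
      ((p * u - r * q) * (p' * u - r * q') * ((p * u' - r' * q) * (p' * u' - r' * q'))) := by ring
    rw [this, ea1, eb1, ec1, ed1]; ring
  rw [f8] at f7
  linarith

/-- Single strand inequality, first half: a strand which crosses a side `ac` of the quadrilateral
crosses one of the diagonals `ab`, `cd`. -/
theorem Cross.side {a b c d s t : Cusp} (h : Cross a b c d) (hst : Cross s t a c) :
    Cross s t a b ∨ Cross s t c d := by
  by_contra hn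
  push Not at hn
  obtain ⟨h1, h2⟩ := hn
  have hne := hst.ne.1
  unfold Cross at hst h1 h2
  rcases lt_or_gt_of_ne (show dt s a * dt t a ≠ 0 from fun e => by rw [e] at hst; simp at hst)
    with ha | ha
  · have hc : 0 < dt s c * dt t c := by nlinarith
    have hb : dt s b * dt t b ≤ 0 := by nlinarith
    have hd : 0 ≤ dt s d * dt t d := by nlinarith
    exact not_cross_of_sides (le_of_lt hc) hd (le_of_lt ha) hb hne (cross_swap.1 h)
  · have hc : dt s c * dt t c < 0 := by nlinarith
    have hb : 0 ≤ dt s b * dt t b := by nlinarith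
    have hd : dt s d * dt t d ≤ 0 := by nlinarith
    exact not_cross_of_sides (le_of_lt ha) hb (le_of_lt hc) hd hne h

/-- Second half: a strand which crosses two opposite sides crosses both diagonals. -/
theorem Cross.sides {a b c d s t : Cusp} (h : Cross a b c d) (h1 : Cross s t a c)
    (h2 : Cross s t b d) : Cross s t a b ∧ Cross s t c d := by
  have hne := h1.ne.1
  have key : ¬ (0 < dt s a * dt t a ∧ 0 < dt s b * dt t b ∧ dt s c * dt t c < 0 ∧
      dt s d * dt t d < 0) := fun ⟨ha, hb, hc, hd⟩ =>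
    not_cross_of_sides (le_of_lt ha) (le_of_lt hb) (le_of_lt hc) (le_of_lt hd) hne h
  have key' : ¬ (dt s a * dt t a < 0 ∧ dt s b * dt t b < 0 ∧ 0 < dt s c * dt t c ∧
      0 < dt s d * dt t d) := fun ⟨ha, hb, hc, hd⟩ =>
    not_cross_of_sides (le_of_lt hc) (le_of_lt hd) (le_of_lt ha) (le_of_lt hb) hne
      (cross_swap.1 h)
  unfold Cross at h1 h2 ⊢
  rcases lt_or_gt_of_ne (show dt s a * dt t a ≠ 0 from fun e => by rw [e] at h1; simp at h1)
    with ha | ha <;>
  rcases lt_or_gt_of_ne (show dt s b * dt t b ≠ 0 from fun e => by rw [e] at h2; simp at h2)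
    with hb | hb
  · exact absurd ⟨ha, hb, by nlinarith, by nlinarith⟩ key'
  · have hc : 0 < dt s c * dt t c := by nlinarith
    have hd : dt s d * dt t d < 0 := by nlinarith
    constructor <;> nlinarith
  · have hc : dt s c * dt t c < 0 := by nlinarith
    have hd : 0 < dt s d * dt t d := by nlinarith
    constructor <;> nlinarith
  · exact absurd ⟨ha, hb, by nlinarith, by nlinarith⟩ key

end Pool.Agent.Lib.MP_eee7a8_ag.TB
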