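import Pool.Agent.Lib.MP_eee7a8_ag.TB.StrandLem

/-!
# TAGBR Part B: statements of the modules

Every module proves one of these statements from some others. Proofs: `PaperB.md` (and the comments
below). Free lemmas: Base.lean, Strand.lean, StrandLem.lean.
-/

open Matrix

namespace Pool.Agent.Lib.MP_eee7a8_ag.TB.PB

/-! ## B0: coordinates -/

/-- RHO (B0.1-B0.3). -/
def RHO_S : Prop := ∀ h : SLZ, 2 < h.1.trace →
  1 < lmd h ∧ (∀ v, be h v ≠ 0) ∧ (∀ v, rho h v ≠ 0) ∧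
  (∀ v, side h v < 0 ↔ 0 < rho h v) ∧
  (∀ v, rho h (h • v) = lmd h ^ 2 * rho h v) ∧
  (∀ a b, rho h a = rho h b → a = b) ∧
  (∀ a b c d, Cross a b c d ↔ ((rho h a - rho h c) * (rho h b - rho h c)) *
    ((rho h a - rho h d) * (rho h b - rho h d)) < 0)

/-- POS (uses RHO) (B0.5-B0.7). -/
def POS_S : Prop := ∀ h : SLZ, 2 < h.1.trace →
  (∀ v, pos h (h • v) = pos h v + 1) ∧
  (∀ u u' v v', side h u < 0 → side h u' < 0 → 0 < side h v → 0 < side h v' →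
    (Cross u v u' v' ↔ (pos h u - pos h u') * (pos h v - pos h v') < 0)) ∧
  (∀ u u' w v, side h u < 0 → side h u' < 0 → side h w < 0 → 0 < side h v →
    (Cross u u' w v ↔ (pos h w - pos h u) * (pos h w - pos h u') < 0)) ∧
  (∀ v v' w u, 0 < side h v → 0 < side h v' → 0 < side h w → side h u < 0 →
    (Cross v v' w u ↔ (pos h w - pos h v) * (pos h w - pos h v') < 0)) ∧
  (∀ u u' v v', side h u < 0 → side h u' < 0 → 0 < side h v → 0 < side h v' →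
    ¬ Cross u u' v v') ∧
  (∀ a b, 0 < side h a * side h b → pos h a = pos h b → a = b) ∧
  (∀ a b c d, 0 < side h a * side h b → 0 < side h a * side h c → 0 < side h a * side h d →
    (Cross a b c d ↔ ((pos h a - pos h c) * (pos h b - pos h c)) *
      ((pos h a - pos h d) * (pos h b - pos h d)) < 0))

/-- POSI (uses RHO): the inverse element (`rho h⁻¹ v = - const / rho h v` with `const > 0`). -/
def POSI_S : Prop := ∀ h : SLZ, 2 < h.1.trace → ∃ c : ℝ, ∀ v, pos h⁻¹ v = c - pos h v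

/-- DENSE: the positions of the cusps are dense on both sides (uses RHO). -/
def DENSE_S : Prop := ∀ h : SLZ, 2 < h.1.trace → ∀ p p' : ℝ, p < p' →
  (∃ u, side h u < 0 ∧ p < pos h u ∧ pos h u < p') ∧
  (∃ v, 0 < side h v ∧ p < pos h v ∧ pos h v < p')

/-- CUT: a strand which crosses the axis of `h` (uses RHO; roots of `a ρ² + b ρ + c`, `a c < 0`). -/
def CUT_S : Prop := ∀ (h : SLZ) (f : QF), 2 < h.1.trace → 0 < f.disc → (sideF h).res f < 0 →
  ∃ σ p q, Cut h f σ p q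

/-- CONST: a strand which does not cross the axis of `h` (uses RHO): in the coordinates `al`, `be`
the form is `a al² + b al be + c be²` with `a c ≥ 0`, `b² - 4 a c > 0`. -/
def CONST_S : Prop := ∀ (h : SLZ) (f : QF), 2 < h.1.trace → 0 < f.disc → 0 ≤ (sideF h).res f →
  (∀ u, side h u < 0 → 0 < f.ev u) ∨ (∀ u, side h u < 0 → f.ev u < 0) ∨
  (∀ v, 0 < side h v → 0 < f.ev v) ∨ (∀ v, 0 < side h v → f.ev v < 0)

/-- NOCR (pencil argument: `√(disc g) f ± √(disc f) g` is semidefinite by `four_res`). -/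
def NOCR_S : Prop := ∀ f g : QF, 0 < f.disc → 0 < g.disc → 0 ≤ f.res g →
  (∀ v, f.ev v < 0 → g.ev v < 0) ∨ (∀ v, 0 < f.ev v → 0 < g.ev v) ∨
  (∀ v, f.ev v < 0 → 0 < g.ev v) ∨ (∀ v, 0 < f.ev v → g.ev v < 0)

/-- NCS: separated pairs do not cross (as `not_cross_of_sides`, with real linear factors of `f`). -/
def NCS_S : Prop := ∀ (f : QF) (a b c d : Cusp), 0 < f.disc → 0 ≤ f.ev a → 0 ≤ f.ev b →
  f.ev c ≤ 0 → f.ev d ≤ 0 → ¬ Cross a b c d

/-- AXC (uses NOCR, CUT, DENSE): crossing of axes in terms of the resultant. -/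
def AXC_S : Prop := ∀ h k : SLZ, 2 < |h.1.trace| → 2 < |k.1.trace| →
  (AxesCross h k ↔ (sideF h).res (sideF k) < 0)

/-- EK (uses RHO): the elementary twist preserves crossing. -/
def EK_S : Prop := ∀ (k : SLZ) (n : ℤ), 2 < k.1.trace → ∀ a b c d,
  (Cross (if 0 < side k a then k ^ n • a else a) (if 0 < side k b then k ^ n • b else b)
    (if 0 < side k c then k ^ n • c else c) (if 0 < side k d then k ^ n • d else d) ↔
    Cross a b c d)

/-! ## B1: crossing numbers -/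

/-- FIN (B1.1). -/
def FIN_S : Prop := ∀ (G : Subgroup SLZ) (S : Set QF), SFam G S → ∀ x y,
  {f | f ∈ S ∧ f.ev x * f.ev y < 0}.Finite

/-- AST (uses NCS): the single strand inequality, summed over `S` (uses FIN). -/
def AST_S : Prop := ∀ (G : Subgroup SLZ) (S : Set QF), SFam G S → ∀ a b c d, Cross a b c d →
  XX S Eq a c + XX S Eq b d ≤ XX S Eq a b + XX S Eq c d

/-- XINV. -/
def XINV_S : Prop := ∀ (G : Subgroup SLZ) (S : Set QF) (r : Cusp → Cusp → Prop), SFam G S →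
  RelInv G r → (∀ x y, XX S r x y = XX S r y x) ∧
  ∀ g ∈ G, ∀ x y, XX S r (g • x) (g • y) = XX S r x y

/-- FP (uses CONST, FIN): exact four point relation if no strand crosses the axis of `h`. -/
def FP_S : Prop := ∀ (G : Subgroup SLZ) (S : Set QF) (r : Cusp → Cusp → Prop) (h : SLZ),
  SFam G S → 2 < h.1.trace → (∀ f ∈ S, 0 ≤ (sideF h).res f) →
  (∀ z x, r z x → 0 < side h z * side h x) →
  ∀ u u' v v', side h u < 0 → side h u' < 0 → 0 < side h v → 0 < side h v' →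
    XX S r u v' + XX S r u' v = XX S r u v + XX S r u' v'

/-- X2C (uses FP, XINV): then the crossing number is invariant under `h` on one end. -/
def X2C_S : Prop := ∀ (G : Subgroup SLZ) (S : Set QF) (r : Cusp → Cusp → Prop) (h : SLZ),
  SFam G S → RelInv G r → h ∈ G → 2 < h.1.trace → (∀ f ∈ S, 0 ≤ (sideF h).res f) →
  (∀ z x, r z x → 0 < side h z * side h x) →
  ∀ (u v : Cusp) (m : ℤ), side h u < 0 → 0 < side h v → XX S r u (h ^ m • v) = XX S r u v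

/-- FPFAR (uses CONST, POS, FIN): the four point relation for pairs with a large displacement. -/
def FPFAR_S : Prop := ∀ (G : Subgroup SLZ) (S : Set QF) (r : Cusp → Cusp → Prop) (h : SLZ) (M : ℝ),
  SFam G S → 2 < h.1.trace → Bdd h S M → RelOK h r →
  ∀ u u' v v', side h u < 0 → side h u' < 0 → 0 < side h v → 0 < side h v' →
    ((M + 2 < pos h v - pos h u ∧ M + 2 < pos h v' - pos h u ∧
      M + 2 < pos h v - pos h u' ∧ M + 2 < pos h v' - pos h u') ∨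
     (pos h v - pos h u < -(M + 2) ∧ pos h v' - pos h u < -(M + 2) ∧
      pos h v - pos h u' < -(M + 2) ∧ pos h v' - pos h u' < -(M + 2))) →
    XX S r u v' + XX S r u' v = XX S r u v + XX S r u' v'

/-- GROW (uses FPFAR, XINV, CUT, POS, FIN). -/
def GROW_S : Prop := ∀ (G : Subgroup SLZ) (S : Set QF) (r : Cusp → Cusp → Prop) (h : SLZ) (M : ℝ),
  SFam G S → RelInv G r → h ∈ G → 2 < h.1.trace → Bdd h S M → RelOK h r →
  ∀ u v, side h u < 0 → 0 < side h v →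
    (M + 2 < pos h v - pos h u → 0 ≤ XX S r u (h • v) - XX S r u v ∧
      ((∃ f ∈ S, (sideF h).res f < 0) → 1 ≤ XX S r u (h • v) - XX S r u v)) ∧
    (pos h v - pos h u < -(M + 3) → 0 ≤ XX S r u v - XX S r u (h • v) ∧
      ((∃ f ∈ S, (sideF h).res f < 0) → 1 ≤ XX S r u v - XX S r u (h • v)))

/-- BDD (uses CUT, NOCR, DENSE, POS) (B1.3). -/
def BDD_S : Prop := ∀ (G : Subgroup SLZ) (S : Set QF) (h : SLZ), SimpleFam G S → h ∈ G →
  2 < h.1.trace → ∃ M, Bdd h S M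

/-- ARCFAM: the strands of a non crossing family of arcs. -/
def ARCFAM_S : Prop := ∀ (G : Subgroup SLZ) (ι : Type) (_ : Finite ι) (T : Fam ι),
  T.NonCross G → SimpleFam G (strandsQ G T)

/-- AXFAM (uses AXC): the strands of a family of loops. -/
def AXFAM_S : Prop := ∀ (G : Subgroup SLZ) (κ : Type) (_ : Finite κ) (Λ : LFam G κ),
  SimpleFam G Λ.strands ∧ (∀ k ∈ Λ.KK, ∀ f ∈ Λ.strands, 0 ≤ (sideF k).res f) ∧
  (∀ k ∈ Λ.KK, sideF k ∈ Λ.strands ∨ (sideF k).neg ∈ Λ.strands)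

/-! ## B2: strips and shear vectors -/

open Classical in
/-- DEL. -/
def DEL_S : Prop := ∀ (G : Subgroup SLZ) (ι : Type) (_ : Fintype ι) (T : Fam ι), T.IsTri G →
  (∀ a b, T.del G a b = T.del G b a) ∧
  (∀ g ∈ G, ∀ a b, T.del G (g • a) (g • b) = T.del G a b) ∧
  (∀ i a b, SameArc G (T.s i) (T.t i) a b → T.del G a b = Pi.single i 1) ∧
  (∀ Y : Cusp → Cusp → ℤ, (∀ x y, Y x y = Y y x) → (∀ g ∈ G, ∀ x y, Y (g • x) (g • y) = Y x y) →
    ∀ a b, T.E G a b → pair T (T.del G a b) Y = Y a b)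

/-- NEXT (uses POS): the next edge of the strip. -/
def NEXT_S : Prop := ∀ (G : Subgroup SLZ) (ι : Type) (T : Fam ι) (h : SLZ), T.IsTri G →
  2 < h.1.trace → ∀ u v, T.E G u v → side h u < 0 → 0 < side h v →
  ∃ u' v', T.E G u' v' ∧ side h u' < 0 ∧ 0 < side h v' ∧
    ((u' = u ∧ pos h v < pos h v' ∧ T.E G v v') ∨ (v' = v ∧ pos h u < pos h u' ∧ T.E G u u')) ∧
    ∀ a b, T.E G a b → side h a < 0 → 0 < side h b → pos h u ≤ pos h a → pos h v ≤ pos h b →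
      (a = u ∧ b = v) ∨ (pos h u' ≤ pos h a ∧ pos h v' ≤ pos h b)

/-- EXE (uses ARCFAM, FIN, DENSE): some edge of `T` crosses the axis of `h` (induction on the number
of `T`-edges crossing `u v`, with `star` and `Cross.side`). -/
def EXE_S : Prop := ∀ (G : Subgroup SLZ) (ι : Type) (_ : Finite ι) (T : Fam ι) (h : SLZ),
  T.IsTri G → 2 < h.1.trace → ∃ u v, T.E G u v ∧ side h u < 0 ∧ 0 < side h v

/-- STRIP (uses NEXT, EXE, ARCFAM, FIN, POS) (B2.1). -/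
def STRIP_S : Prop := ∀ (G : Subgroup SLZ) (ι : Type) (_ : Finite ι) (T : Fam ι) (h : SLZ),
  T.IsTri G → h ∈ G → 2 < h.1.trace → Nonempty (Strip G T h)

/-- SHEARB (uses STRIP, DEL, POS): existence and uniqueness of the shear vector (potentials: partial
sums along the strip). -/
def SHEARB_S : Prop := ∀ (G : Subgroup SLZ) (ι : Type) (_ : Fintype ι) (T : Fam ι) (h : SLZ),
  T.IsTri G → h ∈ G → 2 < h.1.trace → (∃ m, IsShear G T h m) ∧
  (∀ m m', IsShear G T h m → IsShear G T h m' → m = m') ∧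
  (∀ m, IsShear G T h m → ∀ i, m i ≠ 0 →
    ∃ a b, SameArc G (T.s i) (T.t i) a b ∧ side h a * side h b < 0)

/-- T1PP (uses FPFAR, GROW, STRIP, DEL, XINV) (B4): pairings for large displacements. -/
def T1PP_S : Prop := ∀ (G : Subgroup SLZ) (ι : Type) (_ : Fintype ι) (T : Fam ι) (S : Set QF)
  (r : Cusp → Cusp → Prop) (h : SLZ) (M : ℝ) (m : ι → ℤ), T.IsTri G → h ∈ G → 2 < h.1.trace →
  SFam G S → RelInv G r → Bdd h S M → RelOK h r → IsShear G T h m →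
  ((∀ a b, T.E G a b → side h a < 0 → 0 < side h b → M + 3 < pos h b - pos h a) →
    0 ≤ -pair T m (XX S r) ∧
    ((∃ f ∈ S, (sideF h).res f < 0) → 1 ≤ -pair T m (XX S r))) ∧
  ((∀ a b, T.E G a b → side h a < 0 → 0 < side h b → pos h b - pos h a < -(M + 3)) →
    0 ≤ pair T m (XX S r) ∧
    ((∃ f ∈ S, (sideF h).res f < 0) → 1 ≤ pair T m (XX S r)))

/-- IOTA (uses FP, AXFAM, FIN, CONST) (B2.4): the strict inequality at the axis of `k`. -/
def IOTA_S : Prop := ∀ (G : Subgroup SLZ) (κ : Type) (_ : Finite κ) (Λ : LFam G κ), ∀ k ∈ Λ.KK,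
  ∀ u u' v v', side k u < 0 → side k u' < 0 → 0 < side k v → 0 < side k v' →
    XX Λ.strands Eq u u' + XX Λ.strands Eq v v' < XX Λ.strands Eq u v + XX Λ.strands Eq u' v'

open Classical in
/-- The homogeneous part of degree `d` for the weight `w`. -/
noncomputable def part {ι : Type} (w : (ι → ℤ) → ℤ) (d : ℤ) (f : LP ι) : LP ι :=
  .ofCoeff (f.coeff.filter (fun m => w m = d))

/-- TOPMUL: top parts multiply. -/
def TOPMUL_S : Prop := ∀ (ι : Type) (_ : Fintype ι) (w : (ι → ℤ) → ℤ),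
  (∀ m m', w (m + m') = w m + w m') → ∀ (f g : LP ι) (d e : ℤ),
  (∀ m ∈ f.coeff.support, w m ≤ d) → (∀ m ∈ g.coeff.support, w m ≤ e) →
  (∀ m ∈ (f * g).coeff.support, w m ≤ d + e) ∧
  part w (d + e) (f * g) = part w d f * part w e g

/-- STOP (uses TOPMUL, IOTA, FP, AXFAM, POS, DEL, STRIP) (B2.6): top parts of the strip pairs. For a
strip `s` of `h = Λ.h j` the top parts of `P (u 0) (h ^ k (v 0))`, `k ∈ ℤ`, are monomials; the
exponents form an arithmetic progression with difference `- m`, `m` the shear vector. -/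
def STOP_S : Prop := ∀ (G : Subgroup SLZ) (κ ι : Type) (_ : Finite κ) (_ : Fintype ι)
  (Λ : LFam G κ) (T : Fam ι) (P : Cusp → Cusp → LP ι) (j : κ) (m : ι → ℤ)
  (s : Strip G T (Λ.h j)), T.IsTri G → IsPol G T P →
  (∀ x y, x ≠ y → ∀ m ∈ (P x y).coeff.support,
    pair T m (XX Λ.strands Eq) ≤ XX Λ.strands Eq x y) →
  IsShear G T (Λ.h j) m → ∀ k : ℤ,
  part (fun m => pair T m (XX Λ.strands Eq)) (XX Λ.strands Eq (s.u 0) (Λ.h j ^ k • s.v 0))
    (P (s.u 0) (Λ.h j ^ k • s.v 0)) = .single (T.del G (s.u 0) (s.v 0) - k • m) 1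

/-- TRTOP (uses STOP, X2C, STRIP, TOPMUL, AXFAM, DEL): the top part of `tr (h ^ k)`; `p` is the
Laurent polynomial of `tr (h ^ k)`. -/
def TRTOP_S : Prop := ∀ (G : Subgroup SLZ) (κ ι : Type) (_ : Finite κ) (_ : Fintype ι)
  (Λ : LFam G κ) (T : Fam ι) (P : Cusp → Cusp → LP ι) (j : κ) (m : ι → ℤ)
  (k : ℕ) (p : LP ι), T.IsTri G → IsPol G T P →
  (∀ x y, x ≠ y → ∀ m ∈ (P x y).coeff.support,
    pair T m (XX Λ.strands Eq) ≤ XX Λ.strands Eq x y) →
  IsShear G T (Λ.h j) m → 1 ≤ k → IsTrP G T P (Λ.h j) k p →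
  pair T m (XX Λ.strands Eq) = 0 ∧
  (∀ m' ∈ p.coeff.support, pair T m' (XX Λ.strands Eq) ≤ 0) ∧
  part (fun m => pair T m (XX Λ.strands Eq)) 0 p =
    .single ((k : ℤ) • m) 1 + .single (-((k : ℤ) • m)) 1

/-! ## B3: the twist -/

/-- MEMUN: every axis belongs to one loop. -/
def MEMUN_S : Prop := ∀ (G : Subgroup SLZ) (κ : Type) (Λ : LFam G κ) (k : SLZ) (i j : κ),
  Λ.Mem i k → Λ.Mem j k → i = j

/-- WW (uses MEMUN). -/
def WW_S : Prop := ∀ (G : Subgroup SLZ) (κ : Type) (Λ : LFam G κ) (n : κ → ℤ),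
  (∀ j k, Λ.Mem j k → Λ.w n k = k ^ n j) ∧
  (∀ k ∈ Λ.KK, Λ.w n k⁻¹ = (Λ.w n k)⁻¹) ∧
  (∀ k ∈ Λ.KK, ∀ g ∈ G, Λ.w n (g * k * g⁻¹) = g * Λ.w n k * g⁻¹) ∧
  (∀ k ∈ Λ.KK, Λ.w (-n) k = (Λ.w n k)⁻¹) ∧
  (∀ k ∈ Λ.KK, Λ.w n k ∈ G ∧ Λ.w n k * k = k * Λ.w n k ∧ ∀ v, side k (Λ.w n k • v) = side k v)

/-- NEST (uses AXC, NOCR): half planes of the family are nested or disjoint or cover. -/
def NEST_S : Prop := ∀ (G : Subgroup SLZ) (κ : Type) (Λ : LFam G κ), ∀ k ∈ Λ.KK, ∀ k' ∈ Λ.KK,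
  HP k k' ∨ HP k' k ∨ HP k k'⁻¹ ∨ HP k⁻¹ k'

/-- SAME: equal half planes belong to equal elements (the elements commute; Euclidean algorithm and
primitivity). -/
def SAME_S : Prop := ∀ (G : Subgroup SLZ) (κ : Type) (Λ : LFam G κ), ∀ k ∈ Λ.KK, ∀ k' ∈ Λ.KK,
  HP k k' → HP k' k → k = k'

/-- ORD (uses NEST, SAME): the separating axes are totally ordered. -/
def ORD_S : Prop := ∀ (G : Subgroup SLZ) (κ : Type) (Λ : LFam G κ) (x y : Pt Λ),
  (x.Sep y).Finite → ∃ l, IsOrd x y l ∧ ∀ l', IsOrd x y l' → l' = l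

/-- COC (uses ORD, NEST, WW) (B3.6). -/
def COC_S : Prop := ∀ (G : Subgroup SLZ) (κ : Type) (Λ : LFam G κ) (n : κ → ℤ) (x y z : Pt Λ),
  (x.Sep y).Finite → (y.Sep z).Finite → (x.Sep z).Finite →
  cpr n x y * cpr n y z = cpr n x z

/-- EQV (uses ORD, WW). -/
def EQV_S : Prop := ∀ (G : Subgroup SLZ) (κ : Type) (Λ : LFam G κ) (n : κ → ℤ) (x y : Pt Λ)
  (g : G), (x.Sep y).Finite → cpr n (x.act g) (y.act g) = (g : SLZ) * cpr n x y * (g : SLZ)⁻¹

/-- SEPFIN (uses FIN, AXFAM). -/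
def SEPFIN_S : Prop := ∀ (G : Subgroup SLZ) (κ : Type) (_ : Finite κ) (Λ : LFam G κ)
  (x y : Cusp), ((Pt.ofCusp Λ x).Sep (Pt.ofCusp Λ y)).Finite

/-- The composition of the elementary twists of a list (the last one is applied first). -/
noncomputable def LFam.DL {G : Subgroup SLZ} {κ : Type} (Λ : LFam G κ) (n : κ → ℤ)
    (l : List SLZ) (v : Cusp) : Cusp :=
  l.foldr (fun k x => if 0 < side k x then Λ.w n k • x else x) v

/-- EL (uses NEST, WW) (B3.3): a list of half planes which do not contain `o`, outer half planes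
first. -/
def EL_S : Prop := ∀ (G : Subgroup SLZ) (κ : Type) (Λ : LFam G κ) (n : κ → ℤ) (o : Cusp)
  (l : List SLZ), (∀ k ∈ l, k ∈ Λ.KK ∧ side k o < 0) → l.Pairwise (fun k k' => ¬ HP k k') →
  ∀ v, Λ.DL n l v = ((l.filter (fun k => 0 < side k v)).map (Λ.w n)).prod • v

/-- SORT (uses SAME): finite sets of half planes can be listed, outer ones first. -/
def SORT_S : Prop := ∀ (G : Subgroup SLZ) (κ : Type) (Λ : LFam G κ) (F : Set SLZ), F.Finite →
  F ⊆ Λ.KK → ∃ l : List SLZ, (∀ k, k ∈ l ↔ k ∈ F) ∧ l.Nodup ∧ l.Pairwise (fun k k' => ¬ HP k k')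

/-- DCROSS (uses EL, SORT, ORD, SEPFIN, EK, WW, NEST) (B3.4). -/
def DCROSS_S : Prop := ∀ (G : Subgroup SLZ) (κ : Type) (_ : Finite κ) (Λ : LFam G κ)
  (n : κ → ℤ) (a b c d : Cusp),
  Cross (Λ.D n a) (Λ.D n b) (Λ.D n c) (Λ.D n d) ↔ Cross a b c d

/-- DINV (uses ORD, NEST, WW, SEPFIN) (B3.5). -/
def DINV_S : Prop := ∀ (G : Subgroup SLZ) (κ : Type) (_ : Finite κ) (Λ : LFam G κ)
  (n : κ → ℤ) (v : Cusp), Λ.D (-n) (Λ.D n v) = v

/-- CPRG (uses WW): the cocycle has values in `G`. -/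
def CPRG_S : Prop := ∀ (G : Subgroup SLZ) (κ : Type) (Λ : LFam G κ) (n : κ → ℤ) (x y : Pt Λ),
  cpr n x y ∈ G

/-- PSI (uses COC, EQV, SEPFIN, CPRG, DINV): the twist normalises `G`. -/
def PSI_S : Prop := ∀ (G : Subgroup SLZ) (κ : Type) (_ : Finite κ) (Λ : LFam G κ) (n : κ → ℤ),
  (∀ g ∈ G, ∃ g' ∈ G, ∀ v, Λ.D n (g • v) = g' • Λ.D n v) ∧
  (∀ g' ∈ G, ∃ g ∈ G, ∀ v, Λ.D n (g • v) = g' • Λ.D n v)

/-- DARC (uses COC, SEPFIN, CPRG): the twist fixes the arcs disjoint from the loops. -/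
def DARC_S : Prop := ∀ (G : Subgroup SLZ) (κ : Type) (_ : Finite κ) (Λ : LFam G κ) (n : κ → ℤ)
  (x y : Cusp), (∀ k ∈ Λ.KK, 0 ≤ side k x * side k y) → ∃ g ∈ G, Λ.D n x = g • x ∧ Λ.D n y = g • y

/-- AXPT (uses NEST, SAME): the point next to the axis of `h ∈ KK`, on its negative side. -/
def AXPT_S : Prop := ∀ (G : Subgroup SLZ) (κ : Type) (Λ : LFam G κ), ∀ h ∈ Λ.KK,
  ∃ x : Pt Λ, ∀ k ∈ Λ.KK, x.mem k ↔ (HP h⁻¹ k ∨ (HP h k ∧ ¬ HP k h))

/-- DISJH (uses NEST, SEPFIN, POS): a half plane strictly inside a half plane of `h` is disjoint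
from its translate. -/
def DISJH_S : Prop := ∀ (G : Subgroup SLZ) (κ : Type) (_ : Finite κ) (Λ : LFam G κ),
  ∀ h ∈ Λ.KK, ∀ k ∈ Λ.KK, HP k h → ¬ HP h k → ∀ v, 0 < side k v → side k (h • v) < 0

/-- HPOS (uses DISJH, NCS, POS): such a half plane has length at most 1. -/
def HPOS_S : Prop := ∀ (G : Subgroup SLZ) (κ : Type) (_ : Finite κ) (Λ : LFam G κ),
  ∀ h ∈ Λ.KK, ∀ k ∈ Λ.KK, HP k h → ¬ HP h k →
  ∀ v w, 0 < side k v → 0 < side k w → |pos h v - pos h w| ≤ 1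

/-- DAX (uses AXPT, COC, EQV, SEPFIN, HPOS, WW, NEST, CPRG, POS) (B3.7). -/
def DAX_S : Prop := ∀ (G : Subgroup SLZ) (κ : Type) (_ : Finite κ) (Λ : LFam G κ) (n : κ → ℤ)
  (j : κ), ∃ g ∈ G, (∀ v, g • Λ.D n (Λ.h j • v) = Λ.h j • g • Λ.D n v) ∧
  (∀ v, side (Λ.h j) v < 0 → side (Λ.h j) (g • Λ.D n v) < 0 ∧
    |pos (Λ.h j) (g • Λ.D n v) - pos (Λ.h j) v| ≤ 1) ∧
  (∀ v, 0 < side (Λ.h j) v → 0 < side (Λ.h j) (g • Λ.D n v) ∧
    |pos (Λ.h j) (g • Λ.D n v) - pos (Λ.h j) v - n j| ≤ 1)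

/-- MONO (uses POS): a map which carries `h` to `h'` and preserves crossing and the sides is
increasing along the axes: `pos h v < pos h w` iff `w` is a translate of `v` by some `h ^ m`, `m ≥ 1`,
or `Cross v (h ^ m v) w y` for some `m ≥ 1` and some (all) `y` on the other side. -/
def MONO_S : Prop := ∀ (h h' : SLZ) (D : Cusp → Cusp), 2 < h.1.trace → 2 < h'.1.trace →
  (∀ a b c d, Cross (D a) (D b) (D c) (D d) ↔ Cross a b c d) → Function.Injective D →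
  (∀ v, D (h • v) = h' • D v) →
  (∀ v, side h v < 0 → side h' (D v) < 0) → (∀ v, 0 < side h v → 0 < side h' (D v)) →
  ∀ v w, 0 < side h v * side h w → (pos h' (D v) < pos h' (D w) ↔ pos h v < pos h w)

/-- DTRI (uses DCROSS, DINV, PSI) (B3.8). -/
def DTRI_S : Prop := ∀ (G : Subgroup SLZ) (κ ι : Type) (_ : Finite κ) (Λ : LFam G κ)
  (n : κ → ℤ) (T : Fam ι), T.IsTri G →
  (mapF T (Λ.D n)).IsTri G ∧
  (∀ a b a' b', SameArc G (Λ.D n a) (Λ.D n b) (Λ.D n a') (Λ.D n b') ↔ SameArc G a b a' b')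

/-- MTD (uses DTRI, DAX, DINV, DEL): transport of the shear vector (`α' (D' v) = α v` with
`D' = g D` from DAX). -/
def MTD_S : Prop := ∀ (G : Subgroup SLZ) (κ ι : Type) (_ : Finite κ) (_ : Fintype ι)
  (Λ : LFam G κ) (n : κ → ℤ) (j : κ) (T : Fam ι) (m : ι → ℤ), T.IsTri G →
  IsShear G T (Λ.h j) m → IsShear G (mapF T (Λ.D n)) (Λ.h j) m

/-- T1P (uses T1PP, MTD, DTRI, DAX, BDD, ARCFAM) (B4): the theorem (T1'). -/
def T1P_S : Prop := ∀ (G : Subgroup SLZ) (κ ι : Type) (_ : Finite κ) (_ : Fintype ι)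
  (Λ : LFam G κ) (T : Fam ι) (S : Set QF) (r : Cusp → Cusp → Prop) (m : κ → ι → ℤ),
  T.IsTri G → (∀ j, IsShear G T (Λ.h j) (m j)) → SimpleFam G S → RelInv G r →
  (∀ j, RelOK (Λ.h j) r) → ∀ ε : κ → ℤ, (∀ j, ε j = 1 ∨ ε j = -1) →
  ∃ n₀ : ℕ, ∀ n : ℕ, n₀ ≤ n → ∀ j,
    0 ≤ -(ε j * pair (mapF T (Λ.D (fun i => ε i * n))) (m j) (XX S r)) ∧
    ((∃ f ∈ S, (sideF (Λ.h j)).res f < 0) →
      1 ≤ -(ε j * pair (mapF T (Λ.D (fun i => ε i * n))) (m j) (XX S r)))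

/-- B5G (uses T1P): independence, general form. -/
def B5G_S : Prop := ∀ (G : Subgroup SLZ) (κ ι : Type) (_ : Fintype κ) (_ : Fintype ι)
  (Λ : LFam G κ) (T : Fam ι) (S : Set QF) (r : Cusp → Cusp → Prop) (m : κ → ι → ℤ),
  T.IsTri G → (∀ j, IsShear G T (Λ.h j) (m j)) → SimpleFam G S → RelInv G r →
  (∀ j, RelOK (Λ.h j) r) → (∀ j, ∃ f ∈ S, (sideF (Λ.h j)).res f < 0) → ∀ c : κ → ℤ,
  (∀ n : κ → ℤ, pair (mapF T (Λ.D n)) (∑ j, c j • m j) (XX S r) = 0) → c = 0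

/-! ## Chains of translates of `e` (relation `Sim G e`) -/

/-- PATHX (uses TOOL = `ToolStatement`): crossing paths meet. -/
def PATHX_S : Prop := ToolStatement → ∀ (G : Subgroup SLZ), IsSurface G → ∀ e, Adm G e →
  ∀ u u' w w', Cross u u' w w' → Sim G e u u' → Sim G e w w' → Sim G e u w

/-- RELOK (uses PATHX, POS): the chains are compatible with nondegenerate loops. -/
def RELOK_S : Prop := ToolStatement → ∀ (G : Subgroup SLZ), IsSurface G → ∀ e, Adm G e →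
  RelInv G (Sim G e) ∧ ∀ h ∈ G, 2 < h.1.trace → NCL G e h → (∀ a, ¬ Sim G e a (h • a)) →
    RelOK h (Sim G e) ∧ ∀ (a : Cusp) (n : ℕ), 1 ≤ n → ¬ Sim G e a (h ^ n • a)

/-- NI (uses POS, FIN, ARCFAM, PATHX): if an arc `xy` with `x` at an end of `e` and `y` not in the
chain of `x` is disjoint from `e` and from the loop `h`, then no chain is invariant under `h`. -/
def NI_S : Prop := ToolStatement → ∀ (G : Subgroup SLZ), IsSurface G →
  ∀ p : Cusp × Cusp, Adm G (some p) → ∀ (x y : Cusp) (h : SLZ), h ∈ G → 2 < h.1.trace →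
  NCL G (some p) h → (∃ g ∈ G, g • p.1 = x ∨ g • p.2 = x) → ¬ Sim G (some p) x y →
  NC G (some p) x y → (∀ g ∈ G, 0 < side h (g • x) * side h (g • y)) →
  ∀ a, ¬ Sim G (some p) a (h • a)

/-- DECH (uses DARC, PSI, DINV, DTRI): the twist preserves `e` and its chains. -/
def DECH_S : Prop := ∀ (G : Subgroup SLZ) (κ : Type) (_ : Finite κ) (Λ : LFam G κ) (n : κ → ℤ)
  (e : Option (Cusp × Cusp)), (∀ j, NCL G e (Λ.h j)) →
  (∀ x y, Ge G e (Λ.D n x) (Λ.D n y) ↔ Ge G e x y) ∧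
  (∀ x y, Sim G e (Λ.D n x) (Λ.D n y) ↔ Sim G e x y)

/-! ## Bridges to the statements of Iface2 -/

/-- XBX (uses RHO-free algebra: `ev_arcF`): `XB` and `XX`. -/
def XBX_S : Prop := ∀ (G : Subgroup SLZ) (e : Option (Cusp × Cusp)) (κ : Type) (Q : Fam κ),
  (∀ i, Q.s i ≠ Q.t i) → ∀ a b, XB G e Q a b = XX (strandsQ G Q) (Sim G e) a b

/-- XLX: `XL`, `XF` and `XX` (the forms `sideF k` determine `k` with `2 < tr k`). -/
def XLX_S : Prop := ∀ (G : Subgroup SLZ),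
  (∀ h : SLZ, 2 < h.1.trace → ∀ a b,
    XL G h a b = XX {f | ∃ g ∈ G, f = sideF (g * h * g⁻¹)} Eq a b ∧ XL G (-h) a b = XL G h a b) ∧
  (∀ (κ : Type) (_ : Fintype κ) (Λ : LFam G κ) a b,
    ∑ j, XL G (Λ.h j) a b = XX Λ.strands Eq a b)

/-- The group `G ∪ -G`. -/
def hat (G : Subgroup SLZ) : Subgroup SLZ where
  carrier := {g | g ∈ G ∨ -g ∈ G}
  one_mem' := Or.inl G.one_mem
  mul_mem' := by
    rintro a b (ha | ha) (hb | hb)
    · exact Or.inl (G.mul_mem ha hb)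
    · right; rw [← mul_neg]; exact G.mul_mem ha hb
    · right; rw [← neg_mul]; exact G.mul_mem ha hb
    · left; rw [← neg_mul_neg]; exact G.mul_mem ha hb
  inv_mem' := by
    rintro a (ha | ha)
    · exact Or.inl (G.inv_mem ha)
    · right
      have : -a⁻¹ = (-a)⁻¹ := by
        rw [eq_comm, inv_eq_iff_mul_eq_one, neg_mul_neg, mul_inv_cancel]
      rw [this]; exact G.inv_mem ha

/-- HAT: passing to `G ∪ -G` changes nothing. -/
def HAT_S : Prop := ∀ (G : Subgroup SLZ), (IsSurface G → IsSurface (hat G)) ∧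
  (∀ a b c d, SameArc (hat G) a b c d ↔ SameArc G a b c d) ∧
  (∀ (ι : Type) (T : Fam ι), (T.IsTri (hat G) ↔ T.IsTri G) ∧
    (∀ a b, T.E (hat G) a b ↔ T.E G a b) ∧ (∀ a b, T.del (hat G) a b = T.del G a b) ∧
    (∀ P, IsPol (hat G) T P ↔ IsPol G T P) ∧
    (∀ h m, IsShear (hat G) T h m ↔ IsShear G T h m)) ∧
  (∀ e, (∀ a b, Sim (hat G) e a b ↔ Sim G e a b) ∧ (∀ a b, Ge (hat G) e a b ↔ Ge G e a b) ∧
    (∀ h, NCL (hat G) e h ↔ NCL G e h) ∧ (Adm (hat G) e ↔ Adm G e) ∧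
    ∀ (κ : Type) (Q : Fam κ) a b, XB (hat G) e Q a b = XB G e Q a b) ∧
  (∀ h a b, XL (hat G) h a b = XL G h a b) ∧
  (∀ h, IsLoop G h → ∀ s : SLZ, s = h ∨ s = -h → IsLoop (hat G) s) ∧
  (∀ h k, DisjLoop G h k → ∀ s t : SLZ, (s = h ∨ s = -h) → (t = k ∨ t = -k) →
    DisjLoop (hat G) s t)

end Pool.Agent.Lib.MP_eee7a8_ag.TB.PB
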