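import Pool.Agent.Lib.MP_eee7a8_ag.TB.Iface1
import Pool.Agent.Lib.MP_eee7a8_ag.TB.A.Tri

/-!
# TAGBR: interface A (auxiliary statements for the modules of group A)

The statements of `Iface1.lean` plus the following ones.
-/

open Matrix

namespace Pool.Agent.Lib.MP_eee7a8_ag.TB

/-! ## Coordinates at a cusp -/

/-- COORD: an order embedding in `ℚ` of the cusps different from `c` in which the elements fixing
`c` are integral translations. -/
def CoordStatement : Prop :=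
  ∀ c : Cusp, ∃ t : Cusp → ℚ,
    (∀ x y, x ≠ c → y ≠ c → t x = t y → x = y) ∧
    (∀ n : ℤ, ∀ x, x ≠ c → par c n • x ≠ c ∧ t (par c n • x) = t x + n) ∧
    (∀ g : SLZ, g • c = c → ∃ n : ℤ, (g = par c n ∨ g = -par c n) ∧
      ∀ x, x ≠ c → g • x ≠ c ∧ t (g • x) = t x + n) ∧
    (∀ b x y, b ≠ c → x ≠ c → y ≠ c →
      (Cross c b x y ↔ (t x < t b ∧ t b < t y) ∨ (t y < t b ∧ t b < t x))) ∧
    (∀ a b x y, a ≠ c → b ≠ c → x ≠ c → y ≠ c → (Cross a b x y ↔
      (((t a < t x ∧ t x < t b) ∨ (t b < t x ∧ t x < t a)) ∧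
        ((t a < t y ∧ t b < t y) ∨ (t y < t a ∧ t y < t b))) ∨
      (((t a < t x ∧ t b < t x) ∨ (t x < t a ∧ t x < t b)) ∧
        ((t a < t y ∧ t y < t b) ∨ (t b < t y ∧ t y < t a)))))

/-! ## Numbers of strands (ordered pairs) of a family -/

/-- The number of (ordered) strands of `Q` crossing `ab`. -/
noncomputable def XQ (G : Subgroup SLZ) {κ : Type} (Q : Fam κ) (a b : Cusp) : ℕ :=
  Set.ncard {p : Cusp × Cusp | Q.E G p.1 p.2 ∧ Cross p.1 p.2 a b}

/-- The number of (ordered) strands of `Q` crossing `ab` and `cd`. -/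
noncomputable def YQ (G : Subgroup SLZ) {κ : Type} (Q : Fam κ) (a b c d : Cusp) : ℕ :=
  Set.ncard {p : Cusp × Cusp | Q.E G p.1 p.2 ∧ Cross p.1 p.2 a b ∧ Cross p.1 p.2 c d}

/-- The number of strands of `Q` crossing `cd` which lie on the `c`-side of `st`. -/
noncomputable def NQ (G : Subgroup SLZ) {κ : Type} (Q : Fam κ) (s t c d : Cusp) : ℕ :=
  Set.ncard {p : Cusp × Cusp | Q.E G p.1 p.2 ∧ Cross p.1 p.2 c d ∧
    0 ≤ (dt s p.1 * dt t p.1) * (dt s c * dt t c) ∧ 0 ≤ (dt s p.2 * dt t p.2) * (dt s c * dt t c) ∧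
    p ≠ (s, t) ∧ p ≠ (t, s)}

/-- `st` is a central strand of `Q` on `cd` (`M` is the number of all strands crossing `cd`). -/
def Central (G : Subgroup SLZ) {κ : Type} (Q : Fam κ) (M : ℕ) (s t c d : Cusp) : Prop :=
  Q.E G s t ∧ Cross s t c d ∧ 2 * NQ G Q s t c d ≤ M ∧ 2 * NQ G Q s t d c ≤ M

/-- Shape of the strands at the triangle `acd` in the case of equality. -/
def Shape (G : Subgroup SLZ) {κ : Type} (Q : Fam κ) (M : ℕ) (a c d : Cusp) : Prop :=
  (∀ s t, Q.E G s t → Cross s t c d → s ≠ a) ∧ (∀ s t, Q.E G s t → Cross s t a c → s ≠ d) ∧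
  (∀ s t, Q.E G s t → Cross s t a d → s ≠ c) ∧
  ((XQ G Q a c = M ∧ YQ G Q c d a d ≤ YQ G Q c d a c) ∨
   (XQ G Q a d = M ∧ YQ G Q c d a c ≤ YQ G Q c d a d))

/-- MFA: an edge with the maximal number of crossings is flippable. -/
def MfaStatement : Prop :=
  ∀ G : Subgroup SLZ, IsSurface G → ∀ (ι κ : Type) [Finite ι] [Finite κ] (T : Fam ι) (Q : Fam κ),
    T.IsTri G → Q.NonCross G → ∀ M : ℕ, 0 < M → (∀ x y, T.E G x y → XQ G Q x y ≤ M) →
    ∀ a f c d, T.E G c d → T.E G a c → T.E G a d → T.E G f c → T.E G f d → Cross a f c d →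
      XQ G Q c d = M → Simple G a f

/-- MFBG: the numbers of strands of the 15 types at a quadrilateral `a c f d`:
`na nc nf nd` = corners, `P` = crossing `ac` and `fd`, `P'` = crossing `cf` and `da`,
`A1 A2` = from `a` through `cf`, `fd`; `F1 F2` = from `f` through `da`, `ac`; `C1 C2` = from `c`
through `fd`, `da`; `D1 D2` = from `d` through `ac`, `cf`; `AF` = the strand `af`. -/
def MfbgStatement : Prop :=
  ∀ (G : Subgroup SLZ) (κ : Type) [Finite κ] (Q : Fam κ), Q.NonCross G →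
    ∀ a f c d, Cross a f c d → ¬ Q.E G c d → ∃ na nc nf nd P P' A1 A2 F1 F2 C1 C2 D1 D2 AF : ℕ,
      XQ G Q c d = nc + nd + P + P' + A1 + A2 + F1 + F2 + AF ∧
      XQ G Q a f = na + nf + P + P' + C1 + C2 + D1 + D2 ∧
      XQ G Q a c = na + nc + P + F2 + D1 ∧ XQ G Q f c = nc + nf + P' + A1 + D2 ∧
      XQ G Q f d = nf + nd + P + A2 + C1 ∧ XQ G Q a d = nd + na + P' + F1 + C2 ∧
      YQ G Q c d a c = nc + P + F2 ∧ YQ G Q c d a d = nd + P' + F1 ∧
      YQ G Q c d f c = nc + P' + A1 ∧ YQ G Q c d f d = nd + P + A2 ∧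
      (A1 + A2 + AF = 0 → ∀ s t, Q.E G s t → Cross s t c d → s ≠ a) ∧
      (D1 = 0 → ∀ s t, Q.E G s t → Cross s t a c → s ≠ d) ∧
      (C2 = 0 → ∀ s t, Q.E G s t → Cross s t a d → s ≠ c) ∧
      (P = 0 ∨ P' + A1 + F1 + AF + C2 + D2 = 0) ∧ (P' = 0 ∨ A2 + F2 + AF + C1 + D1 = 0) ∧
      (AF = 0 ∨ C1 + C2 + D1 + D2 + na + nf = 0) ∧ (A1 = 0 ∨ C1 + C2 + D1 + F2 + na = 0) ∧
      (A2 = 0 ∨ D1 + D2 + C2 + F1 + na = 0) ∧ (F1 = 0 ∨ D1 + D2 + C1 + nf = 0) ∧
      (F2 = 0 ∨ C1 + C2 + D2 + nf = 0) ∧ (C1 = 0 ∨ nc = 0) ∧ (C2 = 0 ∨ nc = 0) ∧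
      (D1 = 0 ∨ nd = 0) ∧ (D2 = 0 ∨ nd = 0)

/-- MFB: the flip of an edge with the maximal number of crossings. -/
def MfbStatement : Prop :=
  ∀ (G : Subgroup SLZ) (κ : Type) [Finite κ] (Q : Fam κ), Q.NonCross G →
    ∀ (M : ℕ) (a f c d : Cusp), 0 < M → Cross a f c d → XQ G Q c d = M → XQ G Q a c ≤ M →
      XQ G Q a d ≤ M → XQ G Q f c ≤ M → XQ G Q f d ≤ M →
      XQ G Q a f ≤ M ∧ (XQ G Q a f = M → Shape G Q M a c d)

/-- MFC1: central strands exist. -/
def Mfc1Statement : Prop :=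
  ∀ (G : Subgroup SLZ) (κ : Type) [Finite κ] (Q : Fam κ), Q.NonCross G →
    ∀ c d, c ≠ d → (∀ s t, Q.E G s t → Cross s t c d →
      NQ G Q s t c d + NQ G Q s t d c + 2 = XQ G Q c d) ∧
    (0 < XQ G Q c d → ∃ s t, Central G Q (XQ G Q c d) s t c d)

/-- MFC2: propagation of central strands. -/
def Mfc2Statement : Prop :=
  ∀ (G : Subgroup SLZ) (κ : Type) [Finite κ] (Q : Fam κ), Q.NonCross G →
    ∀ (M : ℕ) (a c d : Cusp), a ≠ c → a ≠ d → c ≠ d → XQ G Q c d = M → XQ G Q a c ≤ M →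
      XQ G Q a d ≤ M → Shape G Q M a c d → ∀ s t, Central G Q M s t c d →
      (XQ G Q a c = M ∧ Central G Q M s t a c) ∨ (XQ G Q a d = M ∧ Central G Q M s t a d)

/-- MFC3: there is a maximal edge whose flip has fewer crossings. -/
def Mfc3Statement : Prop :=
  ∀ (G : Subgroup SLZ) (ι κ : Type) [Finite ι] [Finite κ] (T : Fam ι) (Q : Fam κ),
    T.IsTri G → Q.NonCross G → ∀ M : ℕ, 0 < M → (∀ x y, T.E G x y → XQ G Q x y ≤ M) →
    (∃ x y, T.E G x y ∧ XQ G Q x y = M) →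
    ∃ a f c d, T.E G c d ∧ T.E G a c ∧ T.E G a d ∧ T.E G f c ∧ T.E G f d ∧ Cross a f c d ∧
      XQ G Q c d = M ∧ XQ G Q a f < M

/-! ## Monogons -/

/-- MONO1: a monogon loop around `c` of a triangulation: the star of `c` is one orbit of edges. -/
def Mono1Statement : Prop :=
  ∀ G : Subgroup SLZ, IsSurface G → ∀ (ι : Type) [Finite ι] (T : Fam ι), T.IsTri G →
    ∀ g ∈ G, ∀ a c : Cusp, g • c = c → T.E G a (g • a) →
      T.E G c a ∧ ∀ b, T.E G c b → ∃ k : ℤ, b = g ^ k • a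

/-! ## Charts -/

/-- MATCH: a triangulation contained in another one is equal to it. -/
def MatchStatement : Prop :=
  ∀ (G : Subgroup SLZ) (ι κ : Type) (T : Fam ι) (T' : Fam κ), T.IsTri G → T'.IsTri G →
    (∀ a b, T'.E G a b → T.E G a b) →
    ∃ e : ι ≃ κ, ∀ i, SameArc G (T.s i) (T.t i) (T'.s (e i)) (T'.t (e i))

variable {G : Subgroup SLZ} {K : Type*} [Field K] [Algebra ℂ K]

/-- The lambda lengths of the family are algebraically independent. -/
def Lam.Ind (L : Lam G K) {ι : Type} (T : Fam ι) : Prop :=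
  AlgebraicIndependent ℂ (fun i => L.lam (T.s i) (T.t i))

/-- CHARTIND: algebraic independence implies `IsChart`. -/
def ChartIndStatement : Prop :=
  ∀ (G : Subgroup SLZ) (K : Type) [Field K] [Algebra ℂ K] (L : Lam G K)
    (ι : Type) [Fintype ι] (T : Fam ι), L.Ind T → L.IsChart T

/-- SIDES: the sides of the quadrilateral of a flippable edge are not translates of the edge or of
the new edge. -/
def SidesStatement : Prop :=
  ∀ G : Subgroup SLZ, IsSurface G → ∀ (ι : Type) [Finite ι] (T : Fam ι), T.IsTri G →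
    ∀ a f c d, T.E G c d → T.E G a c → T.E G a d → T.E G f c → T.E G f d → Cross a f c d →
      Simple G a f → ¬ SameArc G c d a c ∧ ¬ T.E G a f

/-- FLIPIND: flips preserve algebraic independence. -/
def FlipIndStatement : Prop :=
  ∀ (G : Subgroup SLZ) (K : Type) [Field K] [Algebra ℂ K] (L : Lam G K), IsSurface G →
    ∀ (ι : Type) [Finite ι] (T T' : Fam ι) (F : Cusp → Cusp → Prop), T.IsTri G →
      FlipStep G F T T' → L.Ind T → L.Ind T'

/-- EVN: evaluation of Laurent polynomials with coefficients in `ℕ` in a chart. -/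
def EvnStatement : Prop :=
  ∀ (G : Subgroup SLZ) (K : Type) [Field K] [Algebra ℂ K] (L : Lam G K)
    (ι : Type) [Fintype ι] (T : Fam ι), L.IsChart T →
      Function.Injective (L.evN T) ∧ (∀ p q, L.evN T (p * q) = L.evN T p * L.evN T q) ∧
      (∀ p q, L.evN T (p + q) = L.evN T p + L.evN T q) ∧ L.evN T 1 = 1 ∧ L.evN T 0 = 0 ∧
      (∀ m, L.evN T (AddMonoidAlgebra.single m 1) = L.mon T m) ∧
      ∀ i, L.lam (T.s i) (T.t i) ≠ 0

/-! ## Existence of the generic local system -/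

/-- DEVELOP: vectors with prescribed determinants for the Farey edges. -/
def DevelopStatement : Prop :=
  ∀ (K : Type) [Field K] (x : Cusp → Cusp → K), (∀ a b, x a b = x b a) →
    (∀ a b, |dt a b| = 1 → x a b ≠ 0) →
    ∃ W : Cusp → Fin 2 → K, ∀ a b, |dt a b| = 1 →
      W a 0 * W b 1 - W a 1 * W b 0 = ((Int.sign (dt a b) : ℤ) : K) * x a b

/-- EXTEND: extension of a `G`-invariant function on Farey edges to lambda lengths. -/
def ExtendStatement : Prop :=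
  ∀ (G : Subgroup SLZ) (K : Type) [Field K] (x : Cusp → Cusp → K), (∀ a b, x a b = x b a) →
    (∀ a b, |dt a b| = 1 → x a b ≠ 0) → (∀ g ∈ G, ∀ a b, x (g • a) (g • b) = x a b) →
    ∃ lam : Cusp → Cusp → K, (∀ a b, lam a b = lam b a) ∧ (∀ a, lam a a = 0) ∧
      (∀ g ∈ G, ∀ a b, lam (g • a) (g • b) = lam a b) ∧
      (∀ a b c d, Cross a b c d → lam a b * lam c d = lam a c * lam b d + lam a d * lam b c) ∧
      ∀ a b, |dt a b| = 1 → lam a b = x a b

end Pool.Agent.Lib.MP_eee7a8_ag.TB
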