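import Pool.Agent.Lib.MP_eee7a8_ag.TB.Iface3

/-!
# TAGBR: interface 4 (tags, tagged triangulations, bracelets and systems, assembly)
-/

open Matrix

namespace Pool.Agent.Lib.MP_eee7a8_ag.TB

variable {G : Subgroup SLZ} {K : Type*} [Field K] [Algebra ℂ K]

/-! ## Change of tags -/

/-- Sets of punctures. -/
def TagInv (G : Subgroup SLZ) (ε : Cusp → Bool) : Prop := ∀ g ∈ G, ∀ a, ε (g • a) = ε a

/-- `L'` is `L` with the decoration changed at the punctures in `ε`. -/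
def IsTw (L L' : Lam G K) (ε : Cusp → Bool) : Prop :=
  ∀ a b, L'.lam a b = (if ε a then L.v a else 1) * (if ε b then L.v b else 1) * L.lam a b

/-- Tagged arc with tags changed at `ε`. -/
def tw (ε : Cusp → Bool) (τ : TArc) : TArc := ⟨τ.a, τ.b, xor τ.s (ε τ.a), xor τ.t (ε τ.b)⟩

/-- TAGCH: the changed decoration is again a generic local system. -/
def TagchStatement : Prop :=
  ∀ (G : Subgroup SLZ) (K : Type) [Field K] [Algebra ℂ K] (L : Lam G K), IsSurface G →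
    ∀ ε, TagInv G ε → ∃ L' : Lam G K, IsTw L L' ε

/-- TAGF: functions under the change of decoration. -/
def TagfStatement : Prop :=
  ∀ (G : Subgroup SLZ) (K : Type) [Field K] [Algebra ℂ K] (L L' : Lam G K), IsSurface G →
    ∀ ε, TagInv G ε → IsTw L L' ε →
    IsTw L' L ε ∧ (∀ a, L'.v a = if ε a then (L.v a)⁻¹ else L.v a) ∧
    (∀ h ∈ G, 2 < |h.1.trace| → L'.tr h = L.tr h) ∧ (∀ τ : TArc, L'.arc τ = L.arc (tw ε τ)) ∧
    (∀ δ x, x ∈ L.Hom δ → x ∈ L'.Hom (fun z => if ε z then -δ z else δ z))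

/-- TAGU: tagged triangulations and bracelets under the change of tags. -/
def TaguStatement : Prop :=
  ∀ (G : Subgroup SLZ) (K : Type) [Field K] [Algebra ℂ K] (L L' : Lam G K), IsSurface G →
    ∀ ε, TagInv G ε → IsTw L L' ε →
    (∀ T, IsTTri G T → IsTTri G (tw ε '' T) ∧ L'.monomials T = L.monomials (tw ε '' T)) ∧
    L'.U = L.U ∧ L'.Upos = L.Upos ∧ (∀ β : Bracelet G, ∃ β' : Bracelet G, L'.I β = L.I β')

/-! ## Tagged triangulations and triangulations -/

/-- LENC: the loop enclosing a puncture `p` at which a non-crossing family has only the end of the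
arc `pw` can be added to the family. -/
def LencStatement : Prop :=
  ∀ G : Subgroup SLZ, IsSurface G → ∀ (p w : Cusp) (γ : SLZ), γ ∈ G → γ • p = p →
    (∀ g ∈ G, g • p = p → ∃ k : ℤ, g = γ ^ k ∨ g = -γ ^ k) → Simple G p w → (∀ g ∈ G, g • p ≠ w) →
    Simple G w (γ • w) ∧
    (∀ x y, (∀ g ∈ G, ¬ Cross x y (g • p) (g • w)) →
      (∀ g ∈ G, g • x ≠ p ∧ g • y ≠ p) → ∀ g ∈ G, ¬ Cross x y (g • w) (g • γ • w)) ∧
    (∀ g ∈ G, ¬ Cross p w (g • w) (g • γ • w))

/-- MONOG: monogon loops: a simple arc `(a, g a)` with `g` fixing a cusp `c` is `(a, γ a)` for a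
generator `γ` of the stabiliser of `c`; `ca` is a simple arc with ends at different punctures; it is
an edge of every triangulation containing the loop, and the only one with an end at `c`. -/
def MonogStatement : Prop :=
  ∀ G : Subgroup SLZ, IsSurface G → ∀ (a c : Cusp), ∀ g ∈ G, g • c = c → Simple G a (g • a) →
    (∀ k ∈ G, k • c = c → ∃ n : ℤ, k = g ^ n ∨ k = -g ^ n) ∧ Simple G c a ∧
    (∀ k ∈ G, k • c ≠ a) ∧
    (∀ x y, Simple G x y → (∀ k ∈ G, ¬ Cross x y (k • a) (k • g • a)) →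
      (∀ k ∈ G, ¬ Cross x y (k • c) (k • a)) ∧
      ((∃ k ∈ G, k • c = x) → SameArc G c a x y) ∧ ((∃ k ∈ G, k • c = y) → SameArc G c a x y))

/-- TTRI: the Laurent monomials of a tagged triangulation are those of a triangulation for a changed
decoration. -/
def TtriStatement : Prop :=
  ∀ G : Subgroup SLZ, IsSurface G → ∀ Tt, IsTTri G Tt → ∃ ε, TagInv G ε ∧
    ∃ (n : ℕ) (T : Fam (Fin n)), T.IsTri G ∧ (∀ τ ∈ Tt, T.E G τ.a τ.b) ∧
      (∀ p, ε p = true → ∀ τ ∈ Tt, (τ.a = p → τ.s = true) ∧ (τ.b = p → τ.t = true)) ∧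
      (∀ p w t, (⟨p, w, false, t⟩ : TArc) ∈ Tt → (⟨p, w, true, t⟩ : TArc) ∈ Tt →
        ∀ γ ∈ G, γ • p = p → (∀ g ∈ G, g • p = p → ∃ k : ℤ, g = γ ^ k ∨ g = -γ ^ k) →
        T.E G w (γ • w)) ∧
      ∀ (K : Type) [Field K] [Algebra ℂ K] (L L' : Lam G K), IsTw L L' ε →
        L.monomials Tt = Set.range (L'.mon T)

/-- TPLAIN: every triangulation comes from a tagged triangulation. -/
def TplainStatement : Prop :=
  ∀ G : Subgroup SLZ, IsSurface G → ∀ (n : ℕ) (T : Fam (Fin n)), T.IsTri G →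
    ∃ Tt, IsTTri G Tt ∧ ∀ (K : Type) [Field K] [Algebra ℂ K] (L : Lam G K),
      L.monomials Tt = Set.range (L.mon T)

/-! ## Bracelets and systems -/

open Classical in
/-- Degree of a tagged arc. -/
noncomputable def TArc.deg (G : Subgroup SLZ) (τ : TArc) : Cusp → ℤ := fun z =>
  (if τ.s then -1 else 1) * (if ∃ g ∈ G, g • z = τ.a then 1 else 0) +
  (if τ.t then -1 else 1) * (if ∃ g ∈ G, g • z = τ.b then 1 else 0)

/-- Degree of a bracelet. -/
noncomputable def Bracelet.deg {G : Subgroup SLZ} (β : Bracelet G) : Cusp → ℤ :=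
  (β.arcs.map (TArc.deg G)).sum

/-- BRDEG. -/
def BrdegStatement : Prop :=
  ∀ (G : Subgroup SLZ) (K : Type) [Field K] [Algebra ℂ K] (L : Lam G K), IsSurface G →
    ∀ β : Bracelet G, L.I β ∈ L.Hom β.deg

/-- BRSYSA: the function of a system is the function of a bracelet. -/
def BrsysaStatement : Prop :=
  ∀ G : Subgroup SLZ, IsSurface G → ∀ γ : Sys G, ∃ β : Bracelet G,
    ∀ (K : Type) [Field K] [Algebra ℂ K] (L : Lam G K), L.I β = L.IS γ

/-- BRSYSB: the function of a bracelet of nonnegative degrees is the function of a system. -/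
def BrsysbStatement : Prop :=
  ∀ G : Subgroup SLZ, IsSurface G → ∀ β : Bracelet G, (∀ z, 0 ≤ β.deg z) →
    ∃ γ : Sys G, γ.deg = β.deg ∧
      ∀ (K : Type) [Field K] [Algebra ℂ K] (L : Lam G K), L.IS γ = L.I β

/-- SLEQ: equal systems have equal functions. -/
def SleqStatement : Prop :=
  ∀ (G : Subgroup SLZ) (K : Type) [Field K] [Algebra ℂ K] (L : Lam G K), IsSurface G →
    (∀ β γ : Sys G, Slide G none β γ → L.IS β = L.IS γ) ∧
    (∀ (e : Option (Cusp × Cusp)) (β : Sys G), Slide G e β β) ∧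
    (∀ (e : Option (Cusp × Cusp)) (β γ : Sys G), Slide G e β γ → Slide G e γ β) ∧
    (∀ (e : Option (Cusp × Cusp)) (β γ δ : Sys G), Slide G e β γ → Slide G e γ δ → Slide G e β δ)

/-! ## Positivity -/

/-- POSR: nonnegative combinations. -/
def PosrStatement : Prop :=
  ∀ (K : Type) [Field K] [Algebra ℂ K] (S : Set K),
    S ⊆ PosSpan S ∧ (∀ x ∈ PosSpan S, ∀ y ∈ PosSpan S, x + y ∈ PosSpan S) ∧
    (∀ x ∈ PosSpan S, ∀ c : ℝ, 0 ≤ c → algebraMap ℂ K (c : ℂ) * x ∈ PosSpan S) ∧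
    ((∀ x ∈ S, ∀ y ∈ S, x * y ∈ S) → ∀ x ∈ PosSpan S, ∀ y ∈ PosSpan S, x * y ∈ PosSpan S) ∧
    ((0 : K) ∈ PosSpan S) ∧ (∀ S' : Set K, S ⊆ PosSpan S' → PosSpan S ⊆ PosSpan S')

/-- PLPOS: positivity in plain charts. -/
def PlposStatement : Prop :=
  ∀ (G : Subgroup SLZ) (K : Type) [Field K] [Algebra ℂ K] (L : Lam G K), IsSurface G →
    ∀ (n : ℕ) (T : Fam (Fin n)), T.IsTri G →
    (∀ a b, L.lam a b ∈ PosSpan (Set.range (L.mon T))) ∧
    (∀ a, L.v a ∈ PosSpan (Set.range (L.mon T))) ∧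
    (∀ h ∈ G, 2 < |h.1.trace| → ∀ k : ℕ, 1 ≤ k →
      tk (L.tr h) k ∈ PosSpan (Set.range (L.mon T)))

/-- POSIT: functions of bracelets are in `U⁺`. -/
def PositStatement : Prop :=
  ∀ (G : Subgroup SLZ) (K : Type) [Field K] [Algebra ℂ K] (L : Lam G K), IsSurface G →
    ∀ β : Bracelet G, L.I β ∈ L.Upos

/-- POSC: elements of `U` are Laurent polynomials in plain charts, with nonnegative coefficients
for elements of `U⁺`. -/
def PoscStatement : Prop :=
  ∀ (G : Subgroup SLZ) (K : Type) [Field K] [Algebra ℂ K] (L : Lam G K), IsSurface G →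
    (∀ x ∈ L.U, L.UP x) ∧ (L.Upos ⊆ L.U) ∧
    (∀ x ∈ L.Upos, ∀ (n : ℕ) (T : Fam (Fin n)), T.IsTri G → ∀ p, L.ev T p = x →
      ∀ m, ∃ r : ℝ, 0 ≤ r ∧ p.coeff m = (r : ℂ))

/-- GRADU: homogeneous components of elements of `U⁺` and `U`. -/
def GraduStatement : Prop :=
  ∀ (G : Subgroup SLZ) (K : Type) [Field K] [Algebra ℂ K] (L : Lam G K), IsSurface G →
    ∀ x ∈ L.Upos, ∃ (s : Finset (Cusp → ℤ)) (y : (Cusp → ℤ) → K),
      (∀ δ ∈ s, y δ ∈ L.Hom δ ∧ y δ ∈ L.Upos ∧ y δ ≠ 0) ∧ x = ∑ δ ∈ s, y δ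

/-! ## Assembly -/

/-- LINSYS: inequivalent systems are separated by coefficients. -/
def LinsysStatement : Prop :=
  ∀ (G : Subgroup SLZ) (K : Type) [Field K] [Algebra ℂ K] (L : Lam G K), IsSurface G →
    ∀ (n : ℕ) (β : Fin n → Sys G), (∀ i j, i ≠ j → ¬ Slide G none (β i) (β j)) →
    ∀ (c : Fin n → ℂ) (i₀ : Fin n), ∃ (m : ℕ) (T : Fam (Fin m)) (E : Fin m → ℤ), T.IsTri G ∧
      ∀ p, L.ev T p = ∑ i, algebraMap ℂ K (c i) * L.IS (β i) → p.coeff E = c i₀

/-- INZ: functions of bracelets do not vanish. -/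
def InzStatement : Prop :=
  ∀ (G : Subgroup SLZ) (K : Type) [Field K] [Algebra ℂ K] (L : Lam G K), IsSurface G →
    (∀ β : Bracelet G, L.I β ≠ 0) ∧ (∀ β : Sys G, L.IS β ≠ 0)

/-- INDL: different functions of bracelets are linearly independent. -/
def IndlStatement : Prop :=
  ∀ (G : Subgroup SLZ) (K : Type) [Field K] [Algebra ℂ K] (L : Lam G K), IsSurface G →
    ∀ (n : ℕ) (β : Fin n → Bracelet G), (∀ i j, i ≠ j → L.I (β i) ≠ L.I (β j)) →
    LinearIndependent ℂ (fun i => L.I (β i))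

/-- SPANP: elements of `U⁺` are nonnegative combinations of functions of bracelets. -/
def SpanpStatement : Prop :=
  ∀ (G : Subgroup SLZ) (K : Type) [Field K] [Algebra ℂ K] (L : Lam G K), IsSurface G →
    L.Upos ⊆ PosSpan (Set.range L.I)

/-- FINALE: the last step. -/
def FinaleStatement : Prop :=
  PosrStatement → PositStatement → IndlStatement → SpanpStatement → ExistStatement → FullStatement

end Pool.Agent.Lib.MP_eee7a8_ag.TB
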