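import Pool.Agent.Lib.MP_eee7a8_ag.TB.Strand

/-!
# TAGBR Part B: basic lemmas on sides, loops and points
-/

open Matrix

namespace Pool.Agent.Lib.MP_eee7a8_ag.TB.PB

theorem side_conj (g h : SLZ) (v : Cusp) : side (g * h * g⁻¹) (g • v) = side h v := by
  rw [← ev_sideF, ← ev_sideF, ← act_sideF, ev_act]

theorem side_smul_self (h : SLZ) (v : Cusp) : side h (h • v) = side h v := by
  have := side_conj h h v
  rwa [mul_inv_cancel_right] at this

theorem side_inv (h : SLZ) (v : Cusp) : side h⁻¹ v = -side h v := by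
  rw [← ev_sideF, ← ev_sideF, ← ev_neg, sideF_inv]; rfl

theorem side_neg (h : SLZ) (v : Cusp) : side (-h) v = -side h v := by
  rw [← ev_sideF, ← ev_sideF, ← ev_neg, sideF_neg]; rfl

/-- Hyperbolic elements fix no cusp. -/
theorem side_ne_zero {h : SLZ} (ht : 2 < |h.1.trace|) (v : Cusp) : side h v ≠ 0 := by
  intro h0
  have hd := disc_sideF h
  have h1 : (2 * (sideF h).a * v.x + (sideF h).b * v.y) ^ 2 = (h.1.trace ^ 2 - 4) * v.y ^ 2 := by
    rw [← ev_sideF] at h0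
    unfold QF.ev at h0
    unfold QF.disc at hd
    linear_combination 4 * (sideF h).a * h0 + v.y ^ 2 * hd
  have ht2 : 9 ≤ h.1.trace ^ 2 := by
    have : (3 : ℤ) ≤ |h.1.trace| := by omega
    calc (9 : ℤ) = 3 * 3 := by norm_num
      _ ≤ |h.1.trace| * |h.1.trace| := mul_le_mul this this (by norm_num) (abs_nonneg _)
      _ = h.1.trace ^ 2 := by rw [abs_mul_abs_self]; ring
  by_cases hy : v.y = 0
  · have hx : v.x = 1 := by
      rcases v.nrm with h2 | h2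
      · omega
      · exact h2.2
    rw [hy, hx] at h1
    have hr : h.1 1 0 = 0 := by
      have : (2 * (sideF h).a) ^ 2 = 0 := by nlinarith
      have h3 : 2 * (sideF h).a = 0 := by simpa using this
      have h4 : (sideF h).a = h.1 1 0 := rfl
      omega
    have hdet := det_eq h
    rw [hr] at hdet
    have htr : h.1.trace = h.1 0 0 + h.1 1 1 := Matrix.trace_fin_two _
    have h5 : h.1 0 0 * h.1 1 1 = 1 := by linarith
    rcases Int.mul_eq_one_iff_eq_one_or_neg_one.1 h5 with ⟨h6, h7⟩ | ⟨h6, h7⟩ <;>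
    · rw [htr, h6, h7] at ht; norm_num at ht
  · have hdvd : v.y ∣ 2 * (sideF h).a * v.x + (sideF h).b * v.y := by
      rw [← Int.pow_dvd_pow_iff (n := 2) (by norm_num), h1]
      exact Dvd.intro_left _ rfl
    obtain ⟨m, hm⟩ := hdvd
    rw [hm] at h1
    have hy2 : v.y ^ 2 ≠ 0 := pow_ne_zero 2 hy
    have h2 : m ^ 2 = h.1.trace ^ 2 - 4 := by
      apply mul_left_cancel₀ hy2
      linear_combination h1
    have h3 : |m| ^ 2 = |h.1.trace| ^ 2 - 4 := by rw [sq_abs, sq_abs]; exact h2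
    have h4 : 0 ≤ |m| := abs_nonneg m
    have h5 : (3 : ℤ) ≤ |h.1.trace| := by omega
    generalize |m| = a at *
    generalize |h.1.trace| = t at *
    have h6 : a < t := by nlinarith
    have h7 : a ≤ t - 1 := by omega
    nlinarith

theorem trace_conj (g h : SLZ) : (g * h * g⁻¹).1.trace = h.1.trace := by
  have : (g * h * g⁻¹).1 = g.1 * h.1 * (g⁻¹).1 := rfl
  rw [this, Matrix.trace_mul_comm, ← Matrix.mul_assoc]
  have h2 : (g⁻¹).1 * g.1 = 1 := by
    have : (g⁻¹ * g).1 = (g⁻¹).1 * g.1 := rfl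
    rw [← this, inv_mul_cancel]; rfl
  rw [h2, Matrix.one_mul]

theorem trace_inv (h : SLZ) : (h⁻¹).1.trace = h.1.trace := by
  rw [Matrix.trace_fin_two, Matrix.trace_fin_two]
  simp only [Matrix.SpecialLinearGroup.coe_inv, Matrix.adjugate_fin_two, Matrix.of_apply,
    Matrix.cons_val', Matrix.cons_val_zero, Matrix.cons_val_one, Matrix.cons_val_fin_one]
  ring

variable {G : Subgroup SLZ} {κ : Type}

theorem LFam.Mem.mem_G {Λ : LFam G κ} {j : κ} {k : SLZ} (h : Λ.Mem j k) : k ∈ G := by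
  obtain ⟨g, hg, rfl | rfl⟩ := h
  · exact G.mul_mem (G.mul_mem hg (Λ.loop j).mem) (G.inv_mem hg)
  · exact G.mul_mem (G.mul_mem hg (G.inv_mem (Λ.loop j).mem)) (G.inv_mem hg)

theorem LFam.Mem.conj {Λ : LFam G κ} {j : κ} {k : SLZ} (h : Λ.Mem j k) {g : SLZ}
    (hg : g ∈ G) : Λ.Mem j (g * k * g⁻¹) := by
  obtain ⟨g', hg', rfl | rfl⟩ := h
  · exact ⟨g * g', G.mul_mem hg hg', Or.inl (by group)⟩
  · exact ⟨g * g', G.mul_mem hg hg', Or.inr (by group)⟩

theorem LFam.Mem.inv {Λ : LFam G κ} {j : κ} {k : SLZ} (h : Λ.Mem j k) : Λ.Mem j k⁻¹ := by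
  obtain ⟨g', hg', rfl | rfl⟩ := h
  · exact ⟨g', hg', Or.inr (by group)⟩
  · exact ⟨g', hg', Or.inl (by group)⟩

theorem LFam.Mem.tr {Λ : LFam G κ} {j : κ} {k : SLZ} (h : Λ.Mem j k) :
    k.1.trace = (Λ.h j).1.trace := by
  obtain ⟨g', hg', rfl | rfl⟩ := h
  · exact trace_conj _ _
  · rw [trace_conj, trace_inv]

theorem LFam.mem_self (Λ : LFam G κ) (j : κ) : Λ.Mem j (Λ.h j) :=
  ⟨1, G.one_mem, Or.inl (by simp)⟩

theorem LFam.KK_conj {Λ : LFam G κ} {k : SLZ} (h : k ∈ Λ.KK) {g : SLZ} (hg : g ∈ G) :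
    g * k * g⁻¹ ∈ Λ.KK := by
  obtain ⟨j, hj⟩ := h
  exact ⟨j, hj.conj hg⟩

theorem LFam.KK_conj' {Λ : LFam G κ} {k : SLZ} (h : k ∈ Λ.KK) {g : SLZ} (hg : g ∈ G) :
    g⁻¹ * k * g ∈ Λ.KK := by
  have := LFam.KK_conj h (G.inv_mem hg)
  rwa [inv_inv] at this

theorem LFam.KK_inv {Λ : LFam G κ} {k : SLZ} (h : k ∈ Λ.KK) : k⁻¹ ∈ Λ.KK := by
  obtain ⟨j, hj⟩ := h
  exact ⟨j, hj.inv⟩

theorem LFam.KK_tr {Λ : LFam G κ} {k : SLZ} (h : k ∈ Λ.KK) : 2 < k.1.trace := by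
  obtain ⟨j, hj⟩ := h
  rw [hj.tr]; exact Λ.tr j

theorem LFam.KK_G {Λ : LFam G κ} {k : SLZ} (h : k ∈ Λ.KK) : k ∈ G := by
  obtain ⟨j, hj⟩ := h
  exact hj.mem_G

theorem LFam.side_ne {Λ : LFam G κ} {k : SLZ} (h : k ∈ Λ.KK) (v : Cusp) :
    side k v ≠ 0 :=
  side_ne_zero (lt_of_lt_of_le (LFam.KK_tr h) (le_abs_self _)) v

theorem HP.conj {k k' : SLZ} (h : HP k k') (g : SLZ) : HP (g * k * g⁻¹) (g * k' * g⁻¹) := by
  intro v hv
  have h1 := side_conj g k (g⁻¹ • v)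
  have h2 := side_conj g k' (g⁻¹ • v)
  rw [smul_inv_smul] at h1 h2
  rw [h1] at hv
  rw [h2]
  exact h _ hv

theorem HP.trans {k k' k'' : SLZ} (h : HP k k') (h' : HP k' k'') : HP k k'' :=
  fun v hv => h' v (h v hv)

theorem HP.refl (k : SLZ) : HP k k := fun _ hv => hv

/-- The point of the dual tree given by a cusp. -/
def Pt.ofCusp (Λ : LFam G κ) (v : Cusp) : Pt Λ where
  mem := fun k => 0 < side k v
  inv := by
    intro k hk
    have := LFam.side_ne hk v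
    rw [side_inv]; omega
  up := fun k _ k' _ hp h => hp v h

/-- The action of `G` on the points. -/
def Pt.act {Λ : LFam G κ} (g : G) (x : Pt Λ) : Pt Λ where
  mem := fun k => x.mem ((g : SLZ)⁻¹ * k * g)
  inv := by
    intro k hk
    have h1 := x.inv _ (LFam.KK_conj' hk g.2)
    have h2 : ((g : SLZ)⁻¹ * k * g)⁻¹ = (g : SLZ)⁻¹ * k⁻¹ * g := by group
    rw [h2] at h1
    exact h1
  up := by
    intro k hk k' hk' hp h
    refine x.up _ (LFam.KK_conj' hk g.2) _ (LFam.KK_conj' hk' g.2) ?_ h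
    have := hp.conj (g : SLZ)⁻¹
    rwa [inv_inv] at this

/-- The twist homeomorphism. -/
noncomputable def LFam.D (Λ : LFam G κ) (n : κ → ℤ) (v : Cusp) : Cusp :=
  cpr n (Pt.ofCusp Λ infty) (Pt.ofCusp Λ v) • v

end Pool.Agent.Lib.MP_eee7a8_ag.TB.PB
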