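import Pool.Agent.Lib.MP_eee7a8_ag.TB.Iface2

/-!
# TAGBR: interface 3 (rings, degrees, skein relations, Hartogs arguments, Theorems 4.1 and 5.1)

`L.RA` is the ring generated by all lambda lengths and traces; `L.RR F` is generated by those not
crossing `F`; `L.RI F` is `L.RA` with the inverses of the lambda lengths of `F`.
-/

open Matrix

namespace Pool.Agent.Lib.MP_eee7a8_ag.TB

variable {G : Subgroup SLZ} {K : Type*} [Field K] [Algebra ℂ K]

/-! ## Rings -/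

/-- Lambda lengths of pairs not crossing `F`, traces of hyperbolic elements whose axis does not
cross `F`. -/
def Lam.gens (L : Lam G K) (F : Cusp → Cusp → Prop) : Set K :=
  {z | ∃ a b, (∀ c d, F c d → ¬ Cross a b c d) ∧ z = L.lam a b} ∪
  {z | ∃ g ∈ G, 2 < |g.1.trace| ∧ (∀ c d, F c d → 0 < side g c * side g d) ∧ z = L.tr g}

/-- The ring `R_F`. -/
def Lam.RR (L : Lam G K) (F : Cusp → Cusp → Prop) : Subalgebra ℂ K :=
  Algebra.adjoin ℂ (L.gens F)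

/-- The ring `R`. -/
def Lam.RA (L : Lam G K) : Subalgebra ℂ K := L.RR (fun _ _ => False)

/-- The ring `R[1/F]`. -/
def Lam.RI (L : Lam G K) (F : Cusp → Cusp → Prop) : Subalgebra ℂ K :=
  Algebra.adjoin ℂ ((L.RA : Set K) ∪ {z | ∃ a b, F a b ∧ z = (L.lam a b)⁻¹})

/-- Laurent polynomials in every (plain) triangulation. -/
def Lam.UP (L : Lam G K) (x : K) : Prop :=
  ∀ (n : ℕ) (T : Fam (Fin n)), T.IsTri G → x ∈ Set.range (L.ev T)

/-- Laurent polynomials in all triangulations obtained from `T` by flips of edges not in `F`. -/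
def Lam.UF (L : Lam G K) {ι : Type} [Fintype ι] (T : Fam ι) (F : Cusp → Cusp → Prop) (x : K) :
    Prop :=
  ∀ T' : Fam ι, FlipEqv G F T T' → x ∈ Set.range (L.ev T')

/-! ## Degrees -/

open Classical in
/-- Number of ends of `ab` at the puncture of `z`. -/
noncomputable def ends (G : Subgroup SLZ) (a b : Cusp) : Cusp → ℤ := fun z =>
  (if ∃ g ∈ G, g • z = a then 1 else 0) + (if ∃ g ∈ G, g • z = b then 1 else 0)

/-- Products of lambda lengths and inverses, with their degrees. -/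
inductive Lam.HM (L : Lam G K) : (Cusp → ℤ) → K → Prop
  | one : Lam.HM L 0 1
  | mul (δ : Cusp → ℤ) (x : K) (a b : Cusp) : a ≠ b → Lam.HM L δ x →
      Lam.HM L (δ + ends G a b) (x * L.lam a b)
  | inv (δ : Cusp → ℤ) (x : K) (a b : Cusp) : a ≠ b → Lam.HM L δ x →
      Lam.HM L (δ - ends G a b) (x * (L.lam a b)⁻¹)

/-- Homogeneous elements of degree `δ`. -/
def Lam.Hom (L : Lam G K) (δ : Cusp → ℤ) : Submodule ℂ K := Submodule.span ℂ {x | L.HM δ x}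

/-- Degree of an exponent in the chart `T`. -/
noncomputable def degT (G : Subgroup SLZ) {ι : Type} [Fintype ι] (T : Fam ι) (m : ι → ℤ) :
    Cusp → ℤ := fun z => ∑ i, m i * ends G (T.s i) (T.t i) z

/-- Degree of a system. -/
noncomputable def Sys.deg {G : Subgroup SLZ} (β : Sys G) : Cusp → ℤ :=
  (β.arcs.map (fun p => ends G p.1 p.2)).sum

/-- GRAD: degrees. -/
def GradStatement : Prop :=
  ∀ (G : Subgroup SLZ) (K : Type) [Field K] [Algebra ℂ K] (L : Lam G K), IsSurface G →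
    (∀ (s : Finset (Cusp → ℤ)) (x : (Cusp → ℤ) → K), (∀ δ ∈ s, x δ ∈ L.Hom δ) →
      ∑ δ ∈ s, x δ = 0 → ∀ δ ∈ s, x δ = 0) ∧
    (∀ δ δ' x y, x ∈ L.Hom δ → y ∈ L.Hom δ' → x * y ∈ L.Hom (δ + δ')) ∧
    (∀ a b, L.lam a b ∈ L.Hom (ends G a b)) ∧
    (∀ a b, a ≠ b → (L.lam a b)⁻¹ ∈ L.Hom (-ends G a b)) ∧
    (∀ a, L.v a ∈ L.Hom (-ends G a a)) ∧ (∀ a, (L.v a)⁻¹ ∈ L.Hom (ends G a a)) ∧
    (∀ h ∈ G, 2 < |h.1.trace| → L.tr h ∈ L.Hom 0) ∧
    (∀ β : Sys G, L.IS β ∈ L.Hom β.deg) ∧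
    (∀ δ x, x ∈ L.Hom δ → x ≠ 0 → ∀ g ∈ G, ∀ z, δ (g • z) = δ z)

/-- GRADT: degrees in a chart. -/
def GradtStatement : Prop :=
  ∀ (G : Subgroup SLZ) (K : Type) [Field K] [Algebra ℂ K] (L : Lam G K), IsSurface G →
    ∀ (ι : Type) [Fintype ι] (T : Fam ι), T.IsTri G →
    (∀ m : ι → ℤ, L.mon T m ∈ L.Hom (degT G T m)) ∧
    ∀ (p : AddMonoidAlgebra ℂ (ι → ℤ)) (δ : Cusp → ℤ), L.ev T p ∈ L.Hom δ →
      ∀ m ∈ p.coeff.support, degT G T m = δ

/-! ## Identities -/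

/-- VGEN: `lam w (γ w)` for a parabolic `γ` fixing `z`. -/
def VgenStatement : Prop :=
  ∀ (G : Subgroup SLZ) (K : Type) [Field K] [Algebra ℂ K] (L : Lam G K), IsSurface G →
    ∀ (z w : Cusp) (k : ℤ),
      L.lam w (par z (k * width G z) • w) = (|k| : ℤ) * L.v z * L.lam z w ^ 2

/-- HORO: the horocycle at `z` between `w` and `γ w`, for a generator `γ` of the stabiliser of `z`,
is cut at `v`. -/
def HoroStatement : Prop :=
  ∀ (G : Subgroup SLZ) (K : Type) [Field K] [Algebra ℂ K] (L : Lam G K), IsSurface G →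
    ∀ (z w v : Cusp), ∀ γ ∈ G, γ • z = z →
      (∀ g ∈ G, g • z = z → ∃ k : ℤ, g = γ ^ k ∨ g = -γ ^ k) →
      Cross z v w (γ • w) → L.v z * L.lam z w * L.lam z v = L.lam w v + L.lam v (γ • w)

/-- VABS: `v z` absorbs two ends at `z`. -/
def VabsStatement : Prop :=
  ∀ (G : Subgroup SLZ) (K : Type) [Field K] [Algebra ℂ K] (L : Lam G K), IsSurface G →
    (∀ z y y' : Cusp, L.v z * L.lam z y * L.lam z y' ∈ L.RA) ∧
    (∀ z : Cusp, ∀ g ∈ G, L.v z * L.lam z (g • z) ∈ L.RA)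

/-- RUP: elements of `R` are Laurent polynomials in every triangulation. -/
def RupStatement : Prop :=
  ∀ (G : Subgroup SLZ) (K : Type) [Field K] [Algebra ℂ K] (L : Lam G K), IsSurface G →
    ∀ x ∈ L.RA, L.UP x

/-! ## Theorem 4.1 -/

/-- Invariant sets of edges of `T`. -/
structure SubE (G : Subgroup SLZ) {ι : Type} (T : Fam ι) (F : Cusp → Cusp → Prop) : Prop where
  sub : ∀ a b, F a b → T.E G a b
  inv : ∀ a b c d, SameArc G a b c d → F a b → F c d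

/-- Adding the translates of the arc `pq` to `F`. -/
def AddArc (G : Subgroup SLZ) (F : Cusp → Cusp → Prop) (p q : Cusp) : Cusp → Cusp → Prop :=
  fun a b => F a b ∨ SameArc G p q a b

/-- The cusp `z` is not an end of `F`. -/
def NoEnd (F : Cusp → Cusp → Prop) (z : Cusp) : Prop := ∀ b, ¬ F z b ∧ ¬ F b z

/-- ABS: elimination of `v z`. -/
def AbsStatement : Prop :=
  ∀ (G : Subgroup SLZ) (K : Type) [Field K] [Algebra ℂ K] (L : Lam G K), IsSurface G →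
    ∀ F : Cusp → Cusp → Prop, (∀ a b c d, SameArc G a b c d → F a b → F c d) →
    (∀ a b, F a b → a ≠ b) → ∀ z, NoEnd F z → ∀ (f : K) (δ : Cusp → ℤ),
    f ∈ Algebra.adjoin ℂ ((L.RI F : Set K) ∪ {L.v z}) → f ∈ L.Hom δ → 0 ≤ δ z → f ∈ L.RI F

/-- CASEA0: `zw` is a radius, the loop `(w, g w)` is in `F`. -/
def CaseA0Statement : Prop :=
  ∀ (G : Subgroup SLZ) (K : Type) [Field K] [Algebra ℂ K] (L : Lam G K), IsSurface G →
    ∀ F : Cusp → Cusp → Prop, (∀ a b c d, SameArc G a b c d → F a b → F c d) →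
    (∀ a b, F a b → a ≠ b) → ∀ z w, ∀ g ∈ G, g • z = z → F w (g • w) → NoEnd F z →
    ∀ (f : K) (δ : Cusp → ℤ), f ∈ L.RI (AddArc G F z w) → f ∈ L.Hom δ → 0 ≤ δ z → f ∈ L.RI F

/-- CASEA1: `z` is an end of `F`. -/
def CaseA1Statement : Prop :=
  ∀ (G : Subgroup SLZ) (K : Type) [Field K] [Algebra ℂ K] (L : Lam G K), IsSurface G →
    ∀ F : Cusp → Cusp → Prop, (∀ a b c d, SameArc G a b c d → F a b → F c d) →
    (∀ a b, F a b → a ≠ b) → ∀ w v z z', F w v → F z z' → z ≠ w → z ≠ v →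
    ∀ f : K, f ∈ L.RI (AddArc G F z w) → f ∈ L.RI (AddArc G F z v) → f ∈ L.RI F

/-- CUT: cutting pairs and axes at the edges of a finite non-crossing family. -/
def CutStatement : Prop :=
  ∀ (G : Subgroup SLZ) (K : Type) [Field K] [Algebra ℂ K] (L : Lam G K), IsSurface G →
    ∀ (κ : Type) [Finite κ] (Q : Fam κ), Q.NonCross G → ∀ A : Subalgebra ℂ K,
    (∀ a b, Q.E G a b → (L.lam a b)⁻¹ ∈ A) → ((L.RR (Q.E G) : Set K) ⊆ A) → L.RA ≤ A

/-- LOBE: `S` and `F` are sets of edges of `T` such that the triangles with a side in `S` have all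
sides in `S ∪ F`.  Pairs and axes not crossing `S ∪ F` are in the field generated by the edges not
in `S`. -/
def LobeStatement : Prop :=
  ∀ (G : Subgroup SLZ) (K : Type) [Field K] [Algebra ℂ K] (L : Lam G K), IsSurface G →
    ∀ (ι : Type) [Fintype ι] (T : Fam ι), T.IsTri G → ∀ S F : Cusp → Cusp → Prop,
    SubE G T S → SubE G T F →
    (∀ a b c, S a b → T.E G a c → T.E G b c → (S a c ∨ F a c)) →
    (∀ x y, ¬ S x y → (∀ c d, S c d ∨ F c d → ¬ Cross x y c d) →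
      L.lam x y ∈ IntermediateField.adjoin ℂ {z : K | ∃ a b, T.E G a b ∧ ¬ S a b ∧ z = L.lam a b}) ∧
    (∀ h ∈ G, 2 < |h.1.trace| → (∀ c d, S c d ∨ F c d → 0 < side h c * side h d) →
      L.tr h ∈ IntermediateField.adjoin ℂ {z : K | ∃ a b, T.E G a b ∧ ¬ S a b ∧ z = L.lam a b})

/-- INDK: Laurent monomials in the edges of `S` are independent over the field generated by the
other edges. -/
def IndkStatement : Prop :=
  ∀ (G : Subgroup SLZ) (K : Type) [Field K] [Algebra ℂ K] (L : Lam G K), IsSurface G →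
    ∀ (ι : Type) [Fintype ι] (T : Fam ι), T.IsTri G → ∀ S : Cusp → Cusp → Prop, SubE G T S →
    ∀ (s : Finset (ι → ℤ)) (k : (ι → ℤ) → K),
    (∀ m ∈ s, ∀ i, ¬ S (T.s i) (T.t i) → m i = 0) →
    (∀ m ∈ s, k m ∈
      IntermediateField.adjoin ℂ {z : K | ∃ a b, T.E G a b ∧ ¬ S a b ∧ z = L.lam a b}) →
    ∑ m ∈ s, k m * L.mon T m = 0 → ∀ m ∈ s, k m = 0

/-- HART2: the Hartogs argument in two variables (pure algebra). -/
def Hart2Statement : Prop :=
  ∀ (K : Type) [Field K] [Algebra ℂ K] (K0 : IntermediateField ℂ K) (D : Subalgebra ℂ K)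
    (x y c : K), x ≠ 0 → y ≠ 0 → c ≠ 0 → (D : Set K) ⊆ K0 → c ∈ D →
    (∀ (s : Finset (ℤ × ℤ)) (k : ℤ × ℤ → K), (∀ m ∈ s, k m ∈ K0) →
      ∑ m ∈ s, k m * (x ^ m.1 * y ^ m.2) = 0 → ∀ m ∈ s, k m = 0) →
    ∀ (f : K) (N : ℕ),
      x ^ N * f ∈ Algebra.adjoin ℂ ((D : Set K) ∪ {x, y, c / (x * y)}) →
      y ^ N * f ∈ Algebra.adjoin ℂ ((D : Set K) ∪ {x, y, c / (x * y)}) →
      f ∈ Algebra.adjoin ℂ ((D : Set K) ∪ {x, y, c / (x * y)})

/-- HART1: the Hartogs argument in one variable (pure algebra). -/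
def Hart1Statement : Prop :=
  ∀ (K : Type) [Field K] [Algebra ℂ K] (K0 : IntermediateField ℂ K) (D : Subalgebra ℂ K)
    (x c : K), x ≠ 0 → c ≠ 0 → (D : Set K) ⊆ K0 → c ∈ D →
    (∀ (s : Finset ℤ) (k : ℤ → K), (∀ m ∈ s, k m ∈ K0) →
      ∑ m ∈ s, k m * x ^ m = 0 → ∀ m ∈ s, k m = 0) →
    ∀ (f : K) (N : ℕ),
      x ^ N * f ∈ Algebra.adjoin ℂ ((D : Set K) ∪ {x, c / x}) →
      (c / x) ^ N * f ∈ Algebra.adjoin ℂ ((D : Set K) ∪ {x, c / x}) →
      f ∈ Algebra.adjoin ℂ ((D : Set K) ∪ {x, c / x})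

/-- The sides and the two radii of a once-punctured digon around the puncture of `z`: `γ` generates
the stabiliser of `z`, the neighbours of `z` in `T` are the `γ^k w` and the `γ^k v`. -/
structure Digon (G : Subgroup SLZ) {ι : Type} (T : Fam ι) (z w v : Cusp) (γ : SLZ) : Prop where
  tri : T.IsTri G
  mem : γ ∈ G
  fix : γ • z = z
  gen : ∀ g ∈ G, g • z = z → ∃ k : ℤ, g = γ ^ k ∨ g = -γ ^ k
  zw : T.E G z w
  zv : T.E G z v
  wv : T.E G w v
  vw : T.E G v (γ • w)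
  cross : Cross z v w (γ • w)
  nw : ∀ g ∈ G, g • z ≠ w
  nv : ∀ g ∈ G, g • z ≠ v

/-- GEOA2: existence of the digon. -/
def GeoA2Statement : Prop :=
  ∀ G : Subgroup SLZ, IsSurface G → ∀ (ι : Type) [Finite ι] (T : Fam ι), T.IsTri G →
    ∀ F, SubE G T F → ∀ w v z, F w v → T.E G z w → T.E G z v → NoEnd F z →
    ¬ SameArc G z w z v →
    ∃ (γ : SLZ) (T' : Fam ι), Digon G T' z w v γ ∧ SubE G T' F

/-- DIGONA: the radii are different arcs; triangles with a side which is a radius. -/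
def DigonaStatement : Prop :=
  ∀ G : Subgroup SLZ, IsSurface G → ∀ (ι : Type) [Finite ι] (T : Fam ι) (z w v : Cusp) (γ : SLZ),
    Digon G T z w v γ →
    (¬ SameArc G z w z v) ∧
    (∀ a b c, (SameArc G z w a b ∨ SameArc G z v a b) → T.E G a c → T.E G b c →
      ((SameArc G z w a c ∨ SameArc G z v a c) ∨ (SameArc G w v a c ∨ SameArc G v (γ • w) a c)))

/-- DIGONB: pairs which cross a radius but no side join vertices of the digon. -/
def DigonbStatement : Prop :=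
  ∀ G : Subgroup SLZ, IsSurface G → ∀ (ι : Type) [Finite ι] (T : Fam ι) (z w v : Cusp) (γ : SLZ),
    Digon G T z w v γ →
    ∀ x y, (∀ c d, SameArc G w v c d ∨ SameArc G v (γ • w) c d → ¬ Cross x y c d) →
      (∃ c d, (SameArc G z w c d ∨ SameArc G z v c d) ∧ Cross x y c d) →
      ∃ g ∈ G, ∃ i j : ℤ, (g • x = γ ^ i • w ∨ g • x = γ ^ i • v) ∧
        (g • y = γ ^ j • w ∨ g • y = γ ^ j • v)

/-- DIGONC: axes which cross no side cross no radius. -/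
def DigoncStatement : Prop :=
  ∀ G : Subgroup SLZ, IsSurface G → ∀ (ι : Type) [Finite ι] (T : Fam ι) (z w v : Cusp) (γ : SLZ),
    Digon G T z w v γ →
    ∀ h ∈ G, 2 < |h.1.trace| →
      (∀ c d, SameArc G w v c d ∨ SameArc G v (γ • w) c d → 0 < side h c * side h d) →
      ∀ c d, SameArc G z w c d ∨ SameArc G z v c d → 0 < side h c * side h d

/-- CASEA2: Hartogs in the digon. -/
def CaseA2Statement : Prop :=
  ∀ (G : Subgroup SLZ) (K : Type) [Field K] [Algebra ℂ K] (L : Lam G K), IsSurface G →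
    ∀ (ι : Type) [Fintype ι] (T : Fam ι) (z w v : Cusp) (γ : SLZ), Digon G T z w v γ →
    ∀ F, SubE G T F → F w v → NoEnd F z →
    ∀ f : K, f ∈ L.RI (AddArc G F z w) → f ∈ L.RI (AddArc G F z v) →
      f ∈ Algebra.adjoin ℂ ((L.RI F : Set K) ∪ {L.v z})

/-- CASEB1: Hartogs in a square with all sides in `F`. -/
def CaseB1Statement : Prop :=
  ∀ (G : Subgroup SLZ) (K : Type) [Field K] [Algebra ℂ K] (L : Lam G K), IsSurface G →
    ∀ (ι : Type) [Fintype ι] (T : Fam ι), T.IsTri G → ∀ F, SubE G T F →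
    ∀ x₁ x₂ x₃ y, F x₁ x₂ → F x₂ x₃ → F x₁ y → F x₃ y → T.E G x₁ x₃ → ¬ F x₁ x₃ →
    Cross x₂ y x₁ x₃ →
    ∀ f : K, f ∈ L.RI (AddArc G F x₁ x₃) → f ∈ L.RI (AddArc G F x₂ y) → f ∈ L.RI F

/-- CONN: a set of edges which contains one and is closed under passing to the other sides of
triangles contains all edges. -/
def ConnStatement : Prop :=
  ∀ G : Subgroup SLZ, IsSurface G → ∀ (ι : Type) [Finite ι] (T : Fam ι), T.IsTri G →
    ∀ F, SubE G T F → (∃ a b, F a b) →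
    (∀ a b c, F a b → T.E G a c → T.E G b c → F a c) → ∀ a b, T.E G a b → F a b

/-- THM41: `U(T, F) = R[1/F]` in degrees nonnegative at the punctures which are not ends of `F`. -/
def Thm41Statement : Prop :=
  ∀ (G : Subgroup SLZ) (K : Type) [Field K] [Algebra ℂ K] (L : Lam G K), IsSurface G →
    ∀ (ι : Type) [Fintype ι] (T : Fam ι), T.IsTri G → ∀ F, SubE G T F → (∃ a b, F a b) →
    ∀ (f : K) (δ : Cusp → ℤ), L.UF T F f → f ∈ L.Hom δ → (∀ z, NoEnd F z → 0 ≤ δ z) → f ∈ L.RI F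

/-! ## PUSH -/

/-- Symmetric bilinear forms of two real variables. -/
@[ext] structure Form where
  p : ℝ
  q : ℝ
  r : ℝ

/-- Value on two cusps. -/
def Form.ev (B : Form) (a b : Cusp) : ℝ :=
  B.p * a.x * b.x + B.q * (a.x * b.y + a.y * b.x) + B.r * a.y * b.y

/-- Nonzero positive semidefinite forms. -/
def Form.Psd (B : Form) : Prop := 0 ≤ B.p ∧ 0 ≤ B.r ∧ B.q ^ 2 ≤ B.p * B.r ∧ 0 < B.p + B.r

/-- The form moved by `g`: `(g B)(a, b) = B(g⁻¹ a, g⁻¹ b)`. -/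
def Form.act (g : SLZ) (B : Form) : Form :=
  ⟨B.p * g.1 1 1 ^ 2 - 2 * B.q * g.1 1 1 * g.1 1 0 + B.r * g.1 1 0 ^ 2,
   -(B.p * g.1 1 1 * g.1 0 1) + B.q * (g.1 1 1 * g.1 0 0 + g.1 0 1 * g.1 1 0)
     - B.r * g.1 1 0 * g.1 0 0,
   B.p * g.1 0 1 ^ 2 - 2 * B.q * g.1 0 1 * g.1 0 0 + B.r * g.1 0 0 ^ 2⟩

/-- The form of a cusp: `(a, b) ↦ dt z a * dt z b`. -/
def cform (z : Cusp) : Form := ⟨(z.y : ℝ) ^ 2, -(z.x : ℝ) * z.y, (z.x : ℝ) ^ 2⟩

/-- The translates of `e` separating two points. -/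
def Sep (G : Subgroup SLZ) (e : Option (Cusp × Cusp)) (B B' : Form) : Set (Cusp × Cusp) :=
  {s | Ge G e s.1 s.2 ∧ B.ev s.1 s.2 * B'.ev s.1 s.2 < 0}

/-- FORMA: elementary properties of forms. -/
def FormaStatement : Prop :=
  (∀ (g : SLZ) (B : Form) (a b : Cusp), (Form.act g B).ev (g • a) (g • b) =
    ((eps g a * eps g b : ℤ) : ℝ) * B.ev a b) ∧
  (∀ (g h : SLZ) (B : Form), Form.act g (Form.act h B) = Form.act (g * h) B) ∧
  (∀ (g : SLZ) (B : Form), B.Psd → (Form.act g B).Psd) ∧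
  (∀ (g : SLZ) (B : Form), 0 < B.p → B.q ^ 2 < B.p * B.r →
    0 < (Form.act g B).p ∧ (Form.act g B).q ^ 2 < (Form.act g B).p * (Form.act g B).r) ∧
  (∀ (g : SLZ) (z : Cusp), Form.act g (cform z) = cform (g • z)) ∧
  (∀ z : Cusp, (cform z).Psd ∧ ∀ a b, (cform z).ev a b = (dt z a : ℝ) * dt z b) ∧
  (∃ B : Form, 0 < B.p ∧ B.q ^ 2 < B.p * B.r ∧ ∀ a b : Cusp, B.ev a b ≠ 0)

/-- FORMB: finiteness. -/
def FormbStatement : Prop :=
  (∀ (G : Subgroup SLZ) (e : Option (Cusp × Cusp)) (B B' : Form), 0 < B.p → 0 < B'.p →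
    B.q ^ 2 < B.p * B.r → B'.q ^ 2 < B'.p * B'.r → (Sep G e B B').Finite) ∧
  (∀ (G : Subgroup SLZ) (e : Option (Cusp × Cusp)) (z z' : Cusp),
    (Sep G e (cform z) (cform z')).Finite)

/-- PUSHC: moving `B'` around an end `c` of a separating translate of `e` decreases the number of
separating translates. -/
def PushcStatement : Prop :=
  ∀ (G : Subgroup SLZ), IsSurface G → ∀ e, Adm G e → ∀ B B' : Form, B.Psd → B'.Psd →
    (Sep G e B B').Finite → ∀ c d, Ge G e c d → B.ev c d * B'.ev c d < 0 →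
    ∀ γ ∈ G, γ • c = c → (∀ g ∈ G, g • c = c → ∃ k : ℤ, g = γ ^ k ∨ g = -γ ^ k) →
    ∃ γ' : SLZ, (γ' = γ ∨ γ' = γ⁻¹) ∧ (Sep G e B (Form.act γ' B')).Finite ∧
      (Sep G e B (Form.act γ' B')).ncard < (Sep G e B B').ncard

/-- NCLSEP: if no translate of `e` separates a generic point and its image by the hyperbolic `g`
then the axis of `g` does not cross `e`. -/
def NclsepStatement : Prop :=
  ∀ (G : Subgroup SLZ), IsSurface G → ∀ e, Adm G e → ∀ B : Form, 0 < B.p → B.q ^ 2 < B.p * B.r →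
    (∀ c d, Ge G e c d → B.ev c d ≠ 0) → ∀ g ∈ G, 2 < |g.1.trace| →
    Sep G e B (Form.act g B) = ∅ → NCL G e g

/-- PUSH: `R` is contained in `R_e[v_u]`. -/
def PushStatement : Prop :=
  ∀ (G : Subgroup SLZ) (K : Type) [Field K] [Algebra ℂ K] (L : Lam G K), IsSurface G →
    ∀ u v, Adm G (some (u, v)) → ∀ x ∈ L.RA,
      x ∈ Algebra.adjoin ℂ ((L.RR (Ge G (some (u, v))) : Set K) ∪ {L.v u})

/-! ## SK -/

/-- Words. -/
structure Wd where
  arcs : List (Cusp × Cusp)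
  els : List SLZ

/-- The function of a word. -/
noncomputable def Lam.W (L : Lam G K) (w : Wd) : K :=
  (w.arcs.map (fun p => L.lam p.1 p.2)).prod * (w.els.map L.tr).prod

/-- Spectral radius. -/
noncomputable def rho (g : SLZ) : ℝ :=
  (|((g.1.trace : ℤ) : ℝ)| + Real.sqrt (((g.1.trace : ℤ) : ℝ) ^ 2 - 4)) / 2

/-- The value of a word at the integer point. -/
noncomputable def Wd.val (w : Wd) : ℝ :=
  (w.arcs.map (fun p => |(dt p.1 p.2 : ℝ)|)).prod * (w.els.map rho).prod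

/-- Length. -/
def Wd.len (w : Wd) : ℕ := w.arcs.length + w.els.length

/-- Words not crossing `e`. -/
structure Wd.OK (G : Subgroup SLZ) (e : Option (Cusp × Cusp)) (w : Wd) : Prop where
  ne : ∀ p ∈ w.arcs, p.1 ≠ p.2
  nc : ∀ p ∈ w.arcs, NC G e p.1 p.2
  mem : ∀ g ∈ w.els, g ∈ G ∧ 2 < |g.1.trace|
  ncl : ∀ g ∈ w.els, NCL G e g

/-- The word is a combination of smaller words. -/
def Red (G : Subgroup SLZ) (e : Option (Cusp × Cusp)) (w : Wd) : Prop :=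
  ∀ (K : Type) [Field K] [Algebra ℂ K] (L : Lam G K),
    L.W w ∈ Submodule.span ℂ {z : K | ∃ w' : Wd, w'.OK G e ∧
      (w'.val < w.val ∨ (w'.val = w.val ∧ w'.len < w.len)) ∧ z = L.W w'}

/-- Systems not crossing `e` (possibly containing `e`). -/
structure SysN (G : Subgroup SLZ) (e : Option (Cusp × Cusp)) (β : Sys G) : Prop where
  nc : ∀ p ∈ β.arcs, NC G e p.1 p.2
  ncl : ∀ l ∈ β.loops, NCL G e l.1

/-- NCP: pairs produced by the rules do not cross `e`. -/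
def NcpStatement : Prop :=
  ∀ (G : Subgroup SLZ), IsSurface G → ∀ e, Adm G e →
    (∀ g ∈ G, 2 < |g.1.trace| → NCL G e g → ∀ x y, NC G e x y → side g x * side g y < 0 →
      NC G e x (g • y) ∧ NC G e x (g⁻¹ • y)) ∧
    (∀ g ∈ G, ∀ x y, NC G e x y → Cross x y (g • x) (g • y) → ∀ k : ℤ, NC G e (g ^ k • x) y)

/-- NCLG: hyperbolic elements produced by the rules do not cross `e`. -/
def NclgStatement : Prop :=
  ∀ (G : Subgroup SLZ), IsSurface G → ∀ e, Adm G e →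
    (∀ g ∈ G, ∀ h ∈ G, 2 < |g.1.trace| → 2 < |h.1.trace| → NCL G e g → NCL G e h →
      AxesCross g h → (2 < |(g * h).1.trace| → NCL G e (g * h)) ∧
        (2 < |(g * h⁻¹).1.trace| → NCL G e (g * h⁻¹))) ∧
    (∀ g ∈ G, ∀ k ∈ G, 2 < |g.1.trace| → NCL G e g → AxesCross g (k * g * k⁻¹) →
      (2 < |k.1.trace| → NCL G e k) ∧ (2 < |(k * g).1.trace| → NCL G e (k * g)) ∧
        (2 < |(k * k * g).1.trace| → NCL G e (k * k * g))) ∧
    (∀ g ∈ G, ∀ x y, NC G e x y → Cross x y (g • x) (g • y) → 2 < |g.1.trace| → NCL G e g)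

/-- RULE1 (Ptolemy). -/
def Rule1Statement : Prop :=
  ∀ (G : Subgroup SLZ), IsSurface G → ∀ e, Adm G e → ∀ x y x' y', ∀ g ∈ G,
    Wd.OK G e ⟨[(x, y), (x', y')], []⟩ → Cross x y (g • x') (g • y') →
    Red G e ⟨[(x, y), (x', y')], []⟩

/-- RULE2 (an arc crossing a translate). -/
def Rule2Statement : Prop :=
  ∀ (G : Subgroup SLZ), IsSurface G → ∀ e, Adm G e → ∀ x y, ∀ g ∈ G,
    Wd.OK G e ⟨[(x, y)], []⟩ → Cross x y (g • x) (g • y) → Red G e ⟨[(x, y)], []⟩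

/-- RULE3 (an axis crossing an arc). -/
def Rule3Statement : Prop :=
  ∀ (G : Subgroup SLZ), IsSurface G → ∀ e, Adm G e → ∀ x y h, ∀ g ∈ G,
    Wd.OK G e ⟨[(x, y)], [h]⟩ → side h (g • x) * side h (g • y) < 0 → Red G e ⟨[(x, y)], [h]⟩

/-- RULE4 (two crossing axes). -/
def Rule4Statement : Prop :=
  ∀ (G : Subgroup SLZ), IsSurface G → ∀ e, Adm G e → ∀ h k, ∀ g ∈ G,
    Wd.OK G e ⟨[], [h, k]⟩ → AxesCross h (g * k * g⁻¹) → Red G e ⟨[], [h, k]⟩

/-- RULE5 (an axis crossing a translate). -/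
def Rule5Statement : Prop :=
  ∀ (G : Subgroup SLZ), IsSurface G → ∀ e, Adm G e → ∀ h, ∀ g ∈ G,
    Wd.OK G e ⟨[], [h]⟩ → AxesCross h (g * h * g⁻¹) → Red G e ⟨[], [h]⟩

/-- RULE6 (two powers of one element). -/
def Rule6Statement : Prop :=
  ∀ (G : Subgroup SLZ), IsSurface G → ∀ e, Adm G e → ∀ l ∈ G, ∀ g ∈ G, ∀ (i j : ℕ) (h k : SLZ),
    1 ≤ i → 1 ≤ j → (h = l ^ i ∨ h = -l ^ i) → (g * k * g⁻¹ = l ^ j ∨ g * k * g⁻¹ = -l ^ j ∨
      g * k * g⁻¹ = (l⁻¹) ^ j ∨ g * k * g⁻¹ = -(l⁻¹) ^ j) →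
    Wd.OK G e ⟨[], [h, k]⟩ → Red G e ⟨[], [h, k]⟩

/-- WFV: finitely many values below a bound. -/
def WfvStatement : Prop :=
  ∀ C : ℝ, {v : ℝ | v ≤ C ∧ ∃ w : Wd, (∀ p ∈ w.arcs, p.1 ≠ p.2) ∧
    (∀ g ∈ w.els, 2 < |g.1.trace|) ∧ v = w.val}.Finite

/-- PRIMR: primitive roots. -/
def PrimrStatement : Prop :=
  ∀ (G : Subgroup SLZ), IsSurface G → ∀ h ∈ G, 2 < |h.1.trace| →
    ∃ l ∈ G, ∃ m : ℕ, 1 ≤ m ∧ 2 < |l.1.trace| ∧ (h = l ^ m ∨ h = -l ^ m) ∧
      (∀ k ∈ G, ∀ n : ℕ, (l = k ^ n ∨ l = -k ^ n) → n = 1) ∧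
      (∀ a b, side h a * side h b < 0 ↔ side l a * side l b < 0) ∧
      (∀ k, AxesCross h k ↔ AxesCross l k) ∧ (∀ k, AxesCross k h ↔ AxesCross k l)

/-- SKN: words without crossings are systems. -/
def SknStatement : Prop :=
  ∀ (G : Subgroup SLZ), IsSurface G → ∀ e, Adm G e → ∀ w : Wd, w.OK G e →
    (∀ p ∈ w.arcs, ∀ q ∈ w.arcs, ∀ g ∈ G, ¬ Cross p.1 p.2 (g • q.1) (g • q.2)) →
    (∀ p ∈ w.arcs, ∀ h ∈ w.els, ∀ g ∈ G, ¬ side h (g • p.1) * side h (g • p.2) < 0) →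
    (∀ h ∈ w.els, ∀ k ∈ w.els, ∀ g ∈ G, ¬ AxesCross h (g * k * g⁻¹)) →
    (w.els.Pairwise (fun h k => ∀ l ∈ G, ∀ g ∈ G, ∀ i j : ℕ, 1 ≤ i → 1 ≤ j →
      ¬ ((h = l ^ i ∨ h = -l ^ i) ∧ (g * k * g⁻¹ = l ^ j ∨ g * k * g⁻¹ = -l ^ j ∨
      g * k * g⁻¹ = (l⁻¹) ^ j ∨ g * k * g⁻¹ = -(l⁻¹) ^ j)))) →
    ∃ β : Sys G, SysN G e β ∧ ∀ (K : Type) [Field K] [Algebra ℂ K] (L : Lam G K),
      L.W w = L.IS β

/-- SK: the ring `R_e` is spanned by the functions of the systems not crossing `e`. -/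
def SkStatement : Prop :=
  ∀ (G : Subgroup SLZ) (K : Type) [Field K] [Algebra ℂ K] (L : Lam G K), IsSurface G →
    ∀ e, Adm G e → ∀ (y : K) (δ : Cusp → ℤ), y ∈ L.RR (Ge G e) → y ∈ L.Hom δ →
      y ∈ Submodule.span ℂ {z : K | ∃ β : Sys G, SysN G e β ∧ β.deg = δ ∧ z = L.IS β}

/-! ## SL, Lemma 5.2 and Theorem 5.1 -/

/-- SL: sliding along `e` changes the function by a sign modulo `lam(e) R`. -/
def SlStatement : Prop :=
  ∀ (G : Subgroup SLZ) (K : Type) [Field K] [Algebra ℂ K] (L : Lam G K), IsSurface G →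
    ∀ u v, Adm G (some (u, v)) → ∀ β γ : Sys G, Slide G (some (u, v)) β γ → β.deg = γ.deg →
      1 ≤ β.deg u → 1 ≤ β.deg v →
      ∃ s : ℤ, (s = 1 ∨ s = -1) ∧ ∃ r ∈ L.RA, L.IS γ = s * L.IS β + L.lam u v * r

/-- POLY: in a triangulation `T`, if `E` is a set of edges containing the third side of every
triangle with two sides in `E`, then every edge whose ends are connected by a path in `E` is in
`E`. -/
def PolyStatement : Prop :=
  ∀ G : Subgroup SLZ, IsSurface G → ∀ (ι : Type) [Finite ι] (T : Fam ι), T.IsTri G →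
    ∀ E, SubE G T E → (∀ a b c, E a b → E b c → T.E G a c → E a c) →
    ∀ a b, T.E G a b → Relation.EqvGen E a b → E a b

/-- SIMARC: systems of degree at least one at both ends of `e` which do not contain `e` have no arc
with equivalent ends. -/
def SimarcStatement : Prop :=
  ∀ (G : Subgroup SLZ), IsSurface G → ∀ u v, Adm G (some (u, v)) → ∀ β : Sys G,
    SysN G (some (u, v)) β → (∀ p ∈ β.arcs, ¬ Ge G (some (u, v)) p.1 p.2) →
    1 ≤ β.deg u → 1 ≤ β.deg v → SysE G (some (u, v)) β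

/-- The exponent `[z]` of `e = uv` in the chart `T`. -/
def IsZ (G : Subgroup SLZ) (u v : Cusp) {ι : Type} (T : Fam ι) (z : ι → ℤ) : Prop :=
  ∃ x y, T.E G u x ∧ T.E G v x ∧ T.E G u y ∧ T.E G v y ∧ Cross u v x y ∧
    z = T.del G u x + T.del G v y - T.del G v x - T.del G u y

/-- KERL0: the elements of `KerL` of degree zero at `v` are the multiples of `[z]`. -/
def Kerl0Statement : Prop :=
  ∀ (G : Subgroup SLZ), IsSurface G → ∀ u v, Adm G (some (u, v)) →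
    ∀ (ι : Type) [Fintype ι] (T : Fam ι), Good G (some (u, v)) T →
    (∃ z, IsZ G u v T z) ∧
    ∀ z, IsZ G u v T z → (z ∈ KerL G (some (u, v)) T ∧ Rz G (some (u, v)) T z ∧ degT G T z = 0 ∧
      (∀ z', IsZ G u v T z' → z' = z ∨ z' = -z) ∧
      ∀ ν ∈ KerL G (some (u, v)) T, degT G T ν v = 0 → ∃ j : ℤ, ν = j • z)

/-- The part of `x` at `e = 0` in the chart `T` is divisible by `1 + z`. -/
def Lam.Div (L : Lam G K) (u v : Cusp) {ι : Type} [Fintype ι] (T : Fam ι) (x : K) : Prop :=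
  ∀ z, IsZ G u v T z → ∀ p, L.ev T p = x → ∀ E, Rz G (some (u, v)) T E →
    ∑ᶠ j : ℤ, (-1 : ℂ) ^ j * p.coeff (E + j • z) = 0

/-- VCORN: the pole of `v u` at `e = uv`. -/
def VcornStatement : Prop :=
  ∀ (G : Subgroup SLZ) (K : Type) [Field K] [Algebra ℂ K] (L : Lam G K), IsSurface G →
    ∀ u v, Adm G (some (u, v)) → ∀ (ι : Type) [Fintype ι] (T : Fam ι), Good G (some (u, v)) T →
    ∀ x y, T.E G u x → T.E G v x → T.E G u y → T.E G v y → Cross u v x y →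
    ∃ γ ∈ G, γ • u = u ∧ NC G (some (u, v)) x (γ • y) ∧
      L.v u = (L.lam x y + L.lam x (γ • y)) / (L.lam u x * L.lam u y)

/-- REPOL: elements of `R_e` are polynomials in `lam(e)` in good charts. -/
def RepolStatement : Prop :=
  ∀ (G : Subgroup SLZ) (K : Type) [Field K] [Algebra ℂ K] (L : Lam G K), IsSurface G →
    ∀ e, Adm G e → ∀ (ι : Type) [Fintype ι] (T : Fam ι), Good G e T → ∀ x ∈ L.RR (Ge G e),
    ∃ p, L.ev T p = x ∧ ∀ m ∈ p.coeff.support, ∀ i, Ge G e (T.s i) (T.t i) → 0 ≤ m i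

/-- KEYDIV: division by `P_e`. -/
def KeydivStatement : Prop :=
  ∀ (G : Subgroup SLZ) (K : Type) [Field K] [Algebra ℂ K] (L : Lam G K), IsSurface G →
    ∀ u v, Adm G (some (u, v)) → ∀ (n : ℕ) (T : Fam (Fin n)), Good G (some (u, v)) T →
    (∀ z, IsZ G u v T z → z ≠ 0) → ∀ x, L.UP x → ∀ (N : ℕ) (h : ℕ → K),
    (∀ j, h j ∈ L.RR (Ge G (some (u, v)))) →
    L.lam u v * x = ∑ j ∈ Finset.range N, L.v u ^ j * h j → ∀ j < N, L.Div u v T (h j)

/-- LEM52. -/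
def Lem52Statement : Prop :=
  ∀ (G : Subgroup SLZ) (K : Type) [Field K] [Algebra ℂ K] (L : Lam G K), IsSurface G →
    ∀ u v, Adm G (some (u, v)) →
    (∀ (n : ℕ) (T : Fam (Fin n)), Good G (some (u, v)) T → ∀ z, IsZ G u v T z → z ≠ 0) →
    ∀ (r : K) (δ : Cusp → ℤ), r ∈ L.RR (Ge G (some (u, v))) → r ∈ L.Hom δ → 1 ≤ δ u → 1 ≤ δ v →
    (∀ (n : ℕ) (T : Fam (Fin n)), Good G (some (u, v)) T → L.Div u v T r) →
    ∃ r' ∈ L.RA, r = L.lam u v * r'

/-- EGOOD: there are an arc between different punctures and a good triangulation for it; good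
triangulations exist for every such arc. -/
def EgoodStatement : Prop :=
  ∀ (G : Subgroup SLZ), IsSurface G → (∃ u v, Adm G (some (u, v))) ∧
    ∀ u v, Adm G (some (u, v)) → ∃ (n : ℕ) (T : Fam (Fin n)), Good G (some (u, v)) T

/-- S03: the sphere with three punctures. -/
def S03Statement : Prop :=
  ∀ (G : Subgroup SLZ) (K : Type) [Field K] [Algebra ℂ K] (L : Lam G K), IsSurface G →
    ∀ u v, Adm G (some (u, v)) → ∀ (n : ℕ) (T : Fam (Fin n)), Good G (some (u, v)) T →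
    IsZ G u v T 0 → ∀ (f : K) (δ : Cusp → ℤ), f ∈ Set.range (L.ev T) → f ∈ L.Hom δ →
    (∀ z, 0 ≤ δ z) → f ∈ L.RA

/-- THM51. -/
def Thm51Statement : Prop :=
  ∀ (G : Subgroup SLZ) (K : Type) [Field K] [Algebra ℂ K] (L : Lam G K), IsSurface G →
    ∀ (f : K) (δ : Cusp → ℤ), L.UP f → f ∈ L.Hom δ → (∀ z, 0 ≤ δ z) → f ∈ L.RA

end Pool.Agent.Lib.MP_eee7a8_ag.TB
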