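import Mathlib

/-!
# Tagged bracelets on punctured surfaces: definitions (statement of Q1 of MP_eee7a8_ag)

The surface.  A closed oriented surface `Sigma` with punctures and an ideal triangulation is the
quotient of the upper half plane by a finite index subgroup `G` of `SL(2,ℤ)` without elliptic
elements (glue ideal triangles without shear: the triangulation becomes the image of the Farey
tessellation), and every such quotient is a surface of this kind.  Its punctures are the orbits of
`G` on the cusps (`Cusp`, the rational points of the projective line = primitive integer vectors up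
to sign); arcs between punctures are the orbits of pairs of distinct cusps (geodesics of the upper
half plane); essential closed curves are the conjugacy classes of hyperbolic elements.

The cluster variety.  `Lam G K` is the generic decorated twisted local system in terms of its
lambda lengths (Penner coordinates): `lam a b` is the pairing of the decoration vectors at the two
ends of the arc `ab`; the lambda lengths of the Farey edges (one for each edge of the triangulation)
are the coordinates of one chart and generate the field `K`.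
-/

open Matrix

namespace Pool.Agent.Lib.MP_eee7a8_ag.TB

/-- The group `SL(2,ℤ)`. -/
abbrev SLZ := Matrix.SpecialLinearGroup (Fin 2) ℤ

/-- A cusp: a rational point of the projective line, i.e. a primitive integer vector `(x, y)` up
to sign, normalised by `0 < y`, or `y = 0` and `x = 1`. -/
@[ext] structure Cusp where
  x : ℤ
  y : ℤ
  cop : IsCoprime x y
  nrm : 0 < y ∨ (y = 0 ∧ x = 1)

/-- The cusp of a primitive vector. -/
def Cusp.mk' (x y : ℤ) (h : IsCoprime x y) : Cusp :=
  if hy : 0 < y then ⟨x, y, h, Or.inl hy⟩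
  else if hy' : y < 0 then ⟨-x, -y, h.neg_neg, Or.inl (by omega)⟩
  else ⟨1, 0, isCoprime_one_left, Or.inr ⟨rfl, rfl⟩⟩

theorem Cusp.cop_smul (g : SLZ) (a : Cusp) :
    IsCoprime (g.1 0 0 * a.x + g.1 0 1 * a.y) (g.1 1 0 * a.x + g.1 1 1 * a.y) := by
  obtain ⟨u, v, h⟩ := a.cop
  have hd : g.1 0 0 * g.1 1 1 - g.1 0 1 * g.1 1 0 = 1 := by
    have := g.2
    rwa [Matrix.det_fin_two] at this
  refine ⟨u * g.1 1 1 - v * g.1 1 0, -u * g.1 0 1 + v * g.1 0 0, ?_⟩
  linear_combination (u * a.x + v * a.y) * hd + h

/-- `SL(2,ℤ)` acts on cusps by multiplication of vectors by matrices. -/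
instance : SMul SLZ Cusp :=
  ⟨fun g a => Cusp.mk' (g.1 0 0 * a.x + g.1 0 1 * a.y) (g.1 1 0 * a.x + g.1 1 1 * a.y)
    (Cusp.cop_smul g a)⟩

/-- The determinant of two cusps (well defined up to sign). -/
def dt (a b : Cusp) : ℤ := a.x * b.y - a.y * b.x

/-- The geodesics `ab` and `cd` cross: `c` and `d` lie strictly on different sides of `ab`. -/
def Cross (a b c d : Cusp) : Prop := (dt a c * dt b c) * (dt a d * dt b d) < 0

/-- The surfaces: `G` has finite index, no elliptic elements, and at least two cusps (up to `G`),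
i.e. `p ≥ 2`. -/
structure IsSurface (G : Subgroup SLZ) : Prop where
  fin : G.FiniteIndex
  tor : ∀ g ∈ G, 2 ≤ |g.1.trace|
  two : ∃ a b : Cusp, ∀ g ∈ G, g • a ≠ b

/-- The generic decorated twisted local system on the surface, given by its lambda lengths. -/
structure Lam (G : Subgroup SLZ) (K : Type*) [Field K] [Algebra ℂ K] where
  /-- the lambda length of the arc `ab` -/
  lam : Cusp → Cusp → K
  symm : ∀ a b, lam a b = lam b a
  self : ∀ a, lam a a = 0
  inv : ∀ g ∈ G, ∀ a b, lam (g • a) (g • b) = lam a b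
  ptolemy : ∀ a b c d, Cross a b c d → lam a b * lam c d = lam a c * lam b d + lam a d * lam b c
  free : ∀ (m : ℕ) (e f : Fin m → Cusp), (∀ i, |dt (e i) (f i)| = 1) →
    (∀ i j, i ≠ j → ∀ g ∈ G, ¬ (g • e i = e j ∧ g • f i = f j) ∧
      ¬ (g • e i = f j ∧ g • f i = e j)) →
    AlgebraicIndependent ℂ (fun i => lam (e i) (f i))
  gen : IntermediateField.adjoin ℂ {z : K | ∃ a b, |dt a b| = 1 ∧ z = lam a b} = ⊤

/-- The parabolic element `v ↦ v + n dt(a,v) a` fixing the cusp `a`. -/
def par (a : Cusp) (n : ℤ) : SLZ :=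
  ⟨!![1 - n * a.x * a.y, n * a.x * a.x; -(n * a.y * a.y), 1 + n * a.x * a.y], by
    rw [Matrix.det_fin_two_of]; ring⟩

/-- The width of the cusp `a`: `par a (width G a)` generates its stabiliser up to sign. -/
noncomputable def width (G : Subgroup SLZ) (a : Cusp) : ℕ :=
  sInf {n : ℕ | 0 < n ∧ (par a n ∈ G ∨ -par a n ∈ G)}

/-- The cusp at infinity. -/
def infty : Cusp := ⟨1, 0, isCoprime_one_left, Or.inr ⟨rfl, rfl⟩⟩

/-- The cusp at zero. -/
def zero : Cusp := ⟨0, 1, isCoprime_one_right, Or.inl one_pos⟩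

open Classical in
/-- Some cusp different from `a`. -/
noncomputable def other (a : Cusp) : Cusp := if a = infty then zero else infty

variable {G : Subgroup SLZ} {K : Type*} [Field K] [Algebra ℂ K]

/-- The entry of the unipotent monodromy around the puncture `a` (total length of the horocycle):
if `γ` generates the stabiliser of `a` then `v a = lam b (γ b) / (lam a b) ^ 2` for all `b`.
The `ℤ/2`-action at the puncture multiplies the decoration vector at `a` by it. -/
noncomputable def Lam.v (L : Lam G K) (a : Cusp) : K :=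
  L.lam (other a) (par a (width G a) • other a) / (L.lam a (other a)) ^ 2

/-- An arc `ab` with a tag at each end (`true` = notched). -/
structure TArc where
  a : Cusp
  b : Cusp
  s : Bool
  t : Bool

/-- Tagged arcs in the sense of Fomin, Shapiro and Thurston: `ab` is a simple arc which does not
cut out a once-punctured monogon, and both ends have the same tag if they are at the same
puncture. -/
structure IsTArc (G : Subgroup SLZ) (τ : TArc) : Prop where
  ne : τ.a ≠ τ.b
  simple : ∀ g ∈ G, ¬ Cross τ.a τ.b (g • τ.a) (g • τ.b)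
  monogon : ∀ g ∈ G, g • τ.a = τ.b → ∀ c : Cusp, g • c ≠ c
  tag : ∀ g ∈ G, g • τ.a = τ.b → τ.s = τ.t

/-- Compatibility of tagged arcs: no crossing, and either the underlying arcs are equal and one end
of them has the same tag in both, or all ends at a common puncture have the same tag. -/
def Compat (G : Subgroup SLZ) (τ υ : TArc) : Prop :=
  (∀ g ∈ G, ¬ Cross τ.a τ.b (g • υ.a) (g • υ.b)) ∧
  (((∃ g ∈ G, g • τ.a = υ.a ∧ g • τ.b = υ.b) ∧ (τ.s = υ.s ∨ τ.t = υ.t)) ∨
   ((∃ g ∈ G, g • τ.a = υ.b ∧ g • τ.b = υ.a) ∧ (τ.s = υ.t ∨ τ.t = υ.s)) ∨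
   ((∀ g ∈ G, g • τ.a = υ.a → τ.s = υ.s) ∧ (∀ g ∈ G, g • τ.a = υ.b → τ.s = υ.t) ∧
    (∀ g ∈ G, g • τ.b = υ.a → τ.t = υ.s) ∧ (∀ g ∈ G, g • τ.b = υ.b → τ.t = υ.t)))

/-- Tagged triangulations: maximal sets of pairwise compatible tagged arcs (as sets of pairs of
cusps with tags, so they contain all translates of each arc). -/
structure IsTTri (G : Subgroup SLZ) (T : Set TArc) : Prop where
  arc : ∀ τ ∈ T, IsTArc G τ
  compat : ∀ τ ∈ T, ∀ υ ∈ T, Compat G τ υ
  maximal : ∀ τ, IsTArc G τ → (∀ υ ∈ T, Compat G τ υ) → τ ∈ T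

/-- The function of a tagged arc: its lambda length for the decoration changed at the notches. -/
noncomputable def Lam.arc (L : Lam G K) (τ : TArc) : K :=
  (if τ.s then L.v τ.a else 1) * (if τ.t then L.v τ.b else 1) * L.lam τ.a τ.b

/-- The Laurent monomials of a tagged triangulation. -/
def Lam.monomials (L : Lam G K) (T : Set TArc) : Set K :=
  Submonoid.closure {z | ∃ τ ∈ T, z = L.arc τ ∨ z = (L.arc τ)⁻¹}

/-- Finite combinations of elements of `S` with nonnegative real coefficients. -/
def PosSpan (S : Set K) : Set K :=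
  {z | ∃ (s : Finset K) (c : K → ℝ), (s : Set K) ⊆ S ∧ (∀ y ∈ s, 0 ≤ c y) ∧
    z = ∑ y ∈ s, algebraMap ℂ K (c y) * y}

/-- The ring `U(Sigma)` of regular functions: Laurent polynomials in every cluster chart. -/
def Lam.U (L : Lam G K) : Set K :=
  {z | ∀ T, IsTTri G T → z ∈ Submodule.span ℂ (L.monomials T)}

/-- `U(Sigma)^+`: nonnegative coefficients in every cluster chart. -/
def Lam.Upos (L : Lam G K) : Set K :=
  {z | ∀ T, IsTTri G T → z ∈ PosSpan (L.monomials T)}

/-- Extremal elements of `U(Sigma)^+`. -/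
def Lam.Extremal (L : Lam G K) (z : K) : Prop :=
  z ∈ L.Upos ∧ ∀ x ∈ L.Upos, ∀ y ∈ L.Upos, z = x + y → ¬ LinearIndependent ℂ ![x, y]

/-- The side of the cusp `a` with respect to the axis of a hyperbolic `h`: the determinant of the
vectors `a` and `h a`; it vanishes only at the fixed points of `h`. -/
def side (h : SLZ) (a : Cusp) : ℤ :=
  a.x * (h.1 1 0 * a.x + h.1 1 1 * a.y) - a.y * (h.1 0 0 * a.x + h.1 0 1 * a.y)

/-- The axes of the hyperbolic elements `h` and `k` cross. -/
def AxesCross (h k : SLZ) : Prop :=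
  (∃ a, 0 < side h a ∧ 0 < side k a) ∧ (∃ a, 0 < side h a ∧ side k a < 0) ∧
  (∃ a, side h a < 0 ∧ 0 < side k a) ∧ (∃ a, side h a < 0 ∧ side k a < 0)

/-- Essential simple closed curves: hyperbolic elements of `G`, not proper powers (up to sign),
whose axis crosses none of its translates. -/
structure IsLoop (G : Subgroup SLZ) (h : SLZ) : Prop where
  mem : h ∈ G
  hyp : 2 < |h.1.trace|
  prim : ∀ k ∈ G, ∀ m : ℕ, (h = k ^ m ∨ h = -k ^ m) → m = 1
  simple : ∀ g ∈ G, ¬ AxesCross h (g * h * g⁻¹)

/-- The loop `h` is disjoint from the arc `ab`. -/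
def DisjArc (G : Subgroup SLZ) (h : SLZ) (τ : TArc) : Prop :=
  ∀ g ∈ G, 0 ≤ side h (g • τ.a) * side h (g • τ.b)

/-- The loops `h` and `k` are disjoint and not isotopic. -/
def DisjLoop (G : Subgroup SLZ) (h k : SLZ) : Prop :=
  ∀ g ∈ G, ¬ AxesCross h (g * k * g⁻¹) ∧ g * k * g⁻¹ ≠ h ∧ g * k * g⁻¹ ≠ -h ∧
    g * k * g⁻¹ ≠ h⁻¹ ∧ g * k * g⁻¹ ≠ -h⁻¹

/-- The trace of the monodromy along the loop `h`: `lam a (h² a) = tr h * lam a (h a)` for all
cusps `a`. -/
noncomputable def Lam.tr (L : Lam G K) (h : SLZ) : K :=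
  L.lam infty ((h * h) • infty) / L.lam infty (h • infty)

/-- `tk t k` is `z ^ k + z ^ (-k)` if `t = z + z⁻¹`. -/
def tk {R : Type*} [Ring R] (t : R) : ℕ → R
  | 0 => 2
  | 1 => t
  | (k + 2) => t * tk t (k + 1) - tk t k

/-- A tagged bracelet: a finite collection (with multiplicities) of pairwise compatible tagged arcs
and finitely many loops `h` with multiplicities `k ≥ 1` (the closed curve `Brac_k(h)`), disjoint
from the arcs, pairwise disjoint and not isotopic. -/
structure Bracelet (G : Subgroup SLZ) where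
  arcs : Multiset TArc
  loops : List (SLZ × ℕ)
  arc : ∀ τ ∈ arcs, IsTArc G τ
  compat : ∀ τ ∈ arcs, ∀ υ ∈ arcs, Compat G τ υ
  loop : ∀ l ∈ loops, IsLoop G l.1 ∧ 1 ≤ l.2
  disj : ∀ l ∈ loops, ∀ τ ∈ arcs, DisjArc G l.1 τ
  pair : loops.Pairwise (fun l m => DisjLoop G l.1 m.1)

/-- The Fock-Goncharov function of a tagged bracelet. -/
noncomputable def Lam.I (L : Lam G K) (β : Bracelet G) : K :=
  (β.arcs.map L.arc).prod * (β.loops.map (fun l => tk (L.tr l.1) l.2)).prod

/-- The statement of Q1 for one surface: a nonzero element is extremal (in particular an element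
of `U(Sigma)^+`) if and only if it is a positive multiple of the function of a tagged bracelet, and
every element of `U(Sigma)^+` is a nonnegative combination of functions of tagged bracelets. -/
def Lam.Q1 (L : Lam G K) : Prop :=
  (∀ β : Bracelet G, L.I β ≠ 0) ∧
  (∀ z : K, z ≠ 0 →
    (L.Extremal z ↔ ∃ (c : ℝ) (β : Bracelet G), 0 < c ∧ z = algebraMap ℂ K (c : ℂ) * L.I β)) ∧
  L.Upos ⊆ PosSpan (Set.range L.I)

/-- The full statement: for every surface the generic local system exists, and Q1 holds. -/
def FullStatement : Prop :=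
  (∀ G : Subgroup SLZ, IsSurface G →
    ∃ (K : Type) (_ : Field K) (_ : Algebra ℂ K), Nonempty (Lam G K)) ∧
  (∀ (G : Subgroup SLZ) (K : Type) (_ : Field K) (_ : Algebra ℂ K) (L : Lam G K),
    IsSurface G → L.Q1)

end Pool.Agent.Lib.MP_eee7a8_ag.TB
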