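import Pool.Agent.Lib.MP_eee7a8_ag.TB.Base

/-!
# TAGBR: families of arcs, triangulations, Laurent polynomials, crossing numbers (definitions)

All modules use these definitions (do not change them; ask helper4).
-/

open Matrix

namespace Pool.Agent.Lib.MP_eee7a8_ag.TB

/-! ## Arcs, families, triangulations -/

/-- `ab` and `cd` are the same arc of the surface (unoriented). -/
def SameArc (G : Subgroup SLZ) (a b c d : Cusp) : Prop :=
  ∃ g ∈ G, (g • a = c ∧ g • b = d) ∨ (g • a = d ∧ g • b = c)

/-- `ab` is a simple arc (monogon loops allowed). -/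
def Simple (G : Subgroup SLZ) (a b : Cusp) : Prop :=
  a ≠ b ∧ ∀ g ∈ G, ¬ Cross a b (g • a) (g • b)

/-- A family of arcs indexed by `ι`. -/
structure Fam (ι : Type) where
  s : ι → Cusp
  t : ι → Cusp

/-- `ab` is a translate of an arc of the family. -/
def Fam.E (G : Subgroup SLZ) {ι : Type} (T : Fam ι) (a b : Cusp) : Prop :=
  ∃ i, SameArc G (T.s i) (T.t i) a b

/-- The arcs of the family are simple and do not cross. -/
structure Fam.NonCross (G : Subgroup SLZ) {ι : Type} (T : Fam ι) : Prop where
  ne : ∀ i, T.s i ≠ T.t i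
  nocross : ∀ a b c d, T.E G a b → T.E G c d → ¬ Cross a b c d

/-- Ideal triangulations (`ι` finite): `star` says that from every cusp `a` the geodesic `ab` either
is an edge or leaves through the opposite edge `cd` of a triangle `acd`; `tri` says that every edge
has a triangle on both sides. -/
structure Fam.IsTri (G : Subgroup SLZ) {ι : Type} (T : Fam ι) : Prop extends T.NonCross G where
  inj : ∀ i j, SameArc G (T.s i) (T.t i) (T.s j) (T.t j) → i = j
  star : ∀ a b, a ≠ b → T.E G a b ∨
    ∃ c d, T.E G a c ∧ T.E G a d ∧ T.E G c d ∧ Cross a b c d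
  tri : ∀ c d, T.E G c d →
    ∃ a f, T.E G a c ∧ T.E G a d ∧ T.E G f c ∧ T.E G f d ∧ Cross a f c d

open Classical in
/-- The flip of the edge number `i` to the arc `af`. -/
noncomputable def Fam.flip {ι : Type} (T : Fam ι) (i : ι) (a f : Cusp) : Fam ι :=
  ⟨fun j => if j = i then a else T.s j, fun j => if j = i then f else T.t j⟩

/-- `T'` is obtained from `T` by one flip of an edge which is not in the family `F`. -/
def FlipStep (G : Subgroup SLZ) {ι : Type} (F : Cusp → Cusp → Prop) (T T' : Fam ι) : Prop :=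
  ∃ i a f, ¬ F (T.s i) (T.t i) ∧ T.E G a (T.s i) ∧ T.E G a (T.t i) ∧ T.E G f (T.s i) ∧
    T.E G f (T.t i) ∧ Cross a f (T.s i) (T.t i) ∧ Simple G a f ∧ T' = T.flip i a f

/-- `T'` is obtained from `T` by flips of edges not in `F`. -/
def FlipEqv (G : Subgroup SLZ) {ι : Type} (F : Cusp → Cusp → Prop) (T T' : Fam ι) : Prop :=
  Relation.ReflTransGen (FlipStep G F) T T'

/-! ## Laurent polynomials -/

/-- Laurent polynomials with coefficients in `ℕ` (exponents: functions on the set of edges). -/
abbrev LP (ι : Type) := AddMonoidAlgebra ℕ (ι → ℤ)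

open Classical in
/-- The exponent of an edge of the family. -/
noncomputable def Fam.del (G : Subgroup SLZ) {ι : Type} (T : Fam ι) (a b : Cusp) : ι → ℤ :=
  if h : T.E G a b then Pi.single h.choose 1 else 0

/-- The Laurent monomial `∏ lam(t)^(m t)`. -/
noncomputable def Lam.mon {G : Subgroup SLZ} {K : Type*} [Field K] [Algebra ℂ K] (L : Lam G K)
    {ι : Type} [Fintype ι] (T : Fam ι) (m : ι → ℤ) : K :=
  ∏ i, L.lam (T.s i) (T.t i) ^ (m i)

/-- Evaluation of a Laurent polynomial with complex coefficients. -/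
noncomputable def Lam.ev {G : Subgroup SLZ} {K : Type*} [Field K] [Algebra ℂ K] (L : Lam G K)
    {ι : Type} [Fintype ι] (T : Fam ι) (p : AddMonoidAlgebra ℂ (ι → ℤ)) : K :=
  Finsupp.sum p.coeff (fun m c => algebraMap ℂ K c * L.mon T m)

end Pool.Agent.Lib.MP_eee7a8_ag.TB
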