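import Pool.Agent.Lib.MP_eee7a8_ag.TB.Fam

/-!
# TAGBR: interface 1 (cusps, triangulations, charts, representation)

Statements of the modules of group A.  Each `XStatement` is a closed proposition.
-/

open Matrix

namespace Pool.Agent.Lib.MP_eee7a8_ag.TB

/-! ## A1. Stabilisers -/

/-- STAB: the stabiliser of a cusp is generated (up to sign) by `par a (width G a)`. -/
def StabStatement : Prop :=
  ∀ G : Subgroup SLZ, IsSurface G → ∀ a : Cusp,
    0 < width G a ∧ (par a (width G a) ∈ G ∨ -par a (width G a) ∈ G) ∧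
    ∀ g ∈ G, g • a = a → ∃ k : ℤ, g = par a (k * width G a) ∨ g = -par a (k * width G a)

/-- NOSWAP: no element of `G` exchanges two cusps. -/
def NoSwapStatement : Prop :=
  ∀ G : Subgroup SLZ, IsSurface G → ∀ g ∈ G, ∀ a b : Cusp, g • a = b → g • b = a → a = b

/-- FIXTWO: an element fixing two cusps is `±1`; elements of `G` which permute the vertices of a
triangle cyclically do not exist. -/
def FixTwoStatement : Prop :=
  (∀ (g : SLZ) (a b : Cusp), g • a = a → g • b = b → a ≠ b → g = 1 ∨ g = -1) ∧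
  (∀ G : Subgroup SLZ, IsSurface G → ∀ g ∈ G, ∀ a b c : Cusp, a ≠ b →
    ¬ (g • a = b ∧ g • b = c ∧ g • c = a))

/-- TRANS: `SL(2,ℤ)` is transitive on cusps and on oriented Farey edges. -/
def TransStatement : Prop :=
  (∀ a : Cusp, ∃ g : SLZ, g • infty = a) ∧
  (∀ a b : Cusp, |dt a b| = 1 → ∃ g : SLZ, g • infty = a ∧ g • zero = b)

/-! ## A2. Finiteness -/

/-- FIN: only finitely many pairs with a given determinant cross `ab`. -/
def FinStatement : Prop :=
  ∀ (N : ℤ) (a b : Cusp), {p : Cusp × Cusp | |dt p.1 p.2| = N ∧ Cross p.1 p.2 a b}.Finite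

/-- FAMFIN: only finitely many translates of the arcs of a finite family cross `ab`. -/
def FamFinStatement : Prop :=
  ∀ (G : Subgroup SLZ) (κ : Type) [Fintype κ] (Q : Fam κ) (a b : Cusp),
    {p : Cusp × Cusp | Q.E G p.1 p.2 ∧ Cross p.1 p.2 a b}.Finite

/-! ## A3. Triangulations -/

/-- FAREY: the Farey tessellation is a triangulation with finitely many edges modulo `G`. -/
def FareyStatement : Prop :=
  ∀ G : Subgroup SLZ, IsSurface G →
    ∃ (n : ℕ) (T : Fam (Fin n)), T.IsTri G ∧ ∀ a b, T.E G a b ↔ |dt a b| = 1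

/-- FLIP: flips of triangulations are triangulations. -/
def FlipStatement : Prop :=
  ∀ G : Subgroup SLZ, IsSurface G → ∀ (ι : Type) [Finite ι] (T T' : Fam ι)
    (F : Cusp → Cusp → Prop), T.IsTri G → FlipStep G F T T' → T'.IsTri G

/-- RADIUS: an edge `cd` whose flip `af` is not simple is a radius. -/
def RadiusStatement : Prop :=
  ∀ G : Subgroup SLZ, IsSurface G → ∀ (ι : Type) [Finite ι] (T : Fam ι), T.IsTri G →
    ∀ a f c d : Cusp, T.E G c d → T.E G a c → T.E G a d → T.E G f c → T.E G f d →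
    Cross a f c d → ¬ Simple G a f →
    ∃ g ∈ G, (g • c = c ∧ g • d = a ∧ g • f = d) ∨ (g • d = d ∧ g • c = a ∧ g • f = c)

/-- FIRST: number of edges crossed.  In `star`, the pairs `db` and `cb` cross fewer edges. -/
def FirstStatement : Prop :=
  ∀ G : Subgroup SLZ, ∀ (ι : Type) [Finite ι] (T : Fam ι), T.IsTri G →
    ∀ a b c d : Cusp, T.E G a c → T.E G a d → T.E G c d → Cross a b c d →
    Set.ncard {p : Cusp × Cusp | T.E G p.1 p.2 ∧ Cross p.1 p.2 d b} <
      Set.ncard {p : Cusp × Cusp | T.E G p.1 p.2 ∧ Cross p.1 p.2 a b} ∧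
    Set.ncard {p : Cusp × Cusp | T.E G p.1 p.2 ∧ Cross p.1 p.2 c b} <
      Set.ncard {p : Cusp × Cusp | T.E G p.1 p.2 ∧ Cross p.1 p.2 a b}

/-- MAXFLIP (A4): every finite non-crossing family is contained in a triangulation obtained from a
given one by flips of edges not in the family. -/
def MaxFlipStatement : Prop :=
  ∀ G : Subgroup SLZ, IsSurface G → ∀ (ι κ : Type) [Finite ι] [Finite κ] (T : Fam ι) (Q : Fam κ),
    T.IsTri G → Q.NonCross G →
    ∃ T' : Fam ι, T'.IsTri G ∧ FlipEqv G (Q.E G) T T' ∧ ∀ a b, Q.E G a b → T'.E G a b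

/-- MONO: moreover all monogon loops of the triangulation can be assumed to be in the family. -/
def MonoStatement : Prop :=
  ∀ G : Subgroup SLZ, IsSurface G → ∀ (ι κ : Type) [Finite ι] [Finite κ] (T : Fam ι) (Q : Fam κ),
    T.IsTri G → (∀ a b, Q.E G a b → T.E G a b) →
    ∃ T' : Fam ι, T'.IsTri G ∧ FlipEqv G (Q.E G) T T' ∧ (∀ a b, Q.E G a b → T'.E G a b) ∧
      ∀ g ∈ G, ∀ a c : Cusp, g • c = c → T'.E G a (g • a) → Q.E G a (g • a)

/-! ## A4. Charts -/

variable {G : Subgroup SLZ} {K : Type*} [Field K] [Algebra ℂ K]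

/-- The family `T` is a chart: the Laurent monomials are linearly independent and evaluation is
multiplicative. -/
structure Lam.IsChart (L : Lam G K) {ι : Type} [Fintype ι] (T : Fam ι) : Prop where
  inj : Function.Injective (L.ev T)
  mul : ∀ p q, L.ev T (p * q) = L.ev T p * L.ev T q
  one : L.ev T 1 = 1
  add : ∀ p q, L.ev T (p + q) = L.ev T p + L.ev T q

/-- NONZERO: lambda lengths of arcs do not vanish. -/
def NonzeroStatement : Prop :=
  ∀ (G : Subgroup SLZ) (K : Type) [Field K] [Algebra ℂ K] (L : Lam G K), IsSurface G →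
    ∀ a b, a ≠ b → L.lam a b ≠ 0

/-- CHART: every triangulation is a chart. -/
def ChartStatement : Prop :=
  ∀ (G : Subgroup SLZ) (K : Type) [Field K] [Algebra ℂ K] (L : Lam G K), IsSurface G →
    ∀ (ι : Type) [Fintype ι] (T : Fam ι), T.IsTri G → L.IsChart T

/-- Laurent polynomials with nonnegative integer coefficients of all lambda lengths in the chart
`T`. -/
structure IsPol (G : Subgroup SLZ) {ι : Type} (T : Fam ι) (P : Cusp → Cusp → LP ι) : Prop where
  self : ∀ a, P a a = 0
  edge : ∀ a b, T.E G a b → P a b = AddMonoidAlgebra.single (T.del G a b) 1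
  symm : ∀ a b, P a b = P b a
  inv : ∀ g ∈ G, ∀ a b, P (g • a) (g • b) = P a b
  ptolemy : ∀ a b c d, Cross a b c d → P a b * P c d = P a c * P b d + P a d * P b c

/-- Evaluation of Laurent polynomials with coefficients in `ℕ`. -/
noncomputable def Lam.evN (L : Lam G K) {ι : Type} [Fintype ι] (T : Fam ι) (p : LP ι) : K :=
  Finsupp.sum p.coeff (fun m c => (c : K) * L.mon T m)

/-- POL: existence of the polynomials; they are the expansions of the lambda lengths. -/
def PolStatement : Prop :=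
  ∀ (G : Subgroup SLZ) (K : Type) [Field K] [Algebra ℂ K] (L : Lam G K), IsSurface G →
    ∀ (ι : Type) [Fintype ι] (T : Fam ι), T.IsTri G →
      ∃ P : Cusp → Cusp → LP ι, IsPol G T P ∧ ∀ a b, L.evN T (P a b) = L.lam a b

/-! ## A5. The representation -/

/-- Signed lambda lengths. -/
def Lam.sl (L : Lam G K) (a b : Cusp) : K := ((Int.sign (dt a b) : ℤ) : K) * L.lam a b

/-- The decorated representation behind the lambda lengths. -/
structure Rep (L : Lam G K) where
  W : Cusp → Fin 2 → K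
  R : G →* Matrix.SpecialLinearGroup (Fin 2) K
  det : ∀ a b, W a 0 * W b 1 - W a 1 * W b 0 = L.sl a b
  act : ∀ (g : G) (a : Cusp), (R g).1 *ᵥ W a = ((eps g a : ℤ) : K) • W ((g : SLZ) • a)
  neg : ∀ g h : G, (h : SLZ) = -(g : SLZ) → (R h).1 = -(R g).1

/-- REP: the representation exists. -/
def RepStatement : Prop :=
  ∀ (G : Subgroup SLZ) (K : Type) [Field K] [Algebra ℂ K] (L : Lam G K), IsSurface G →
    Nonempty (Rep L)

/-- PLUCKER: signed lambda lengths satisfy all Pluecker relations and are invariant. -/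
def PluckerStatement : Prop :=
  ∀ (G : Subgroup SLZ) (K : Type) [Field K] [Algebra ℂ K] (L : Lam G K),
    (∀ a b c d, L.sl a b * L.sl c d - L.sl a c * L.sl b d + L.sl a d * L.sl b c = 0) ∧
    (∀ a b, L.sl a b = -L.sl b a) ∧
    (∀ g ∈ G, ∀ a b, L.sl (g • a) (g • b) = ((eps g a * eps g b : ℤ) : K) * L.sl a b)

/-- VPAR: the parabolic element at `a` acts through `v a`. -/
def VparStatement : Prop :=
  ∀ (G : Subgroup SLZ) (K : Type) [Field K] [Algebra ℂ K] (L : Lam G K), IsSurface G →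
    ∀ a x y : Cusp, ∀ k : ℤ,
      ((eps (par a (k * width G a)) y : ℤ) : K) * L.sl x (par a (k * width G a) • y) =
        L.sl x y + k * L.v a * L.sl a y * L.sl x a

/-- VINV: `v` is invariant and nonzero. -/
def VinvStatement : Prop :=
  ∀ (G : Subgroup SLZ) (K : Type) [Field K] [Algebra ℂ K] (L : Lam G K), IsSurface G →
    (∀ g ∈ G, ∀ a, L.v (g • a) = L.v a) ∧ ∀ a, L.v a ≠ 0

/-- VPOS: in every chart `v a` is a Laurent polynomial with coefficients in `ℕ`. -/
def VposStatement : Prop :=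
  ∀ (G : Subgroup SLZ) (K : Type) [Field K] [Algebra ℂ K] (L : Lam G K), IsSurface G →
    ∀ (ι : Type) [Fintype ι] (T : Fam ι), T.IsTri G → ∀ a, ∃ p : LP ι, L.evN T p = L.v a

/-- TRACE: traces of hyperbolic elements. -/
def TraceStatement : Prop :=
  ∀ (G : Subgroup SLZ) (K : Type) [Field K] [Algebra ℂ K] (L : Lam G K), IsSurface G →
    ∀ h ∈ G, 2 < |h.1.trace| →
      (∀ a, side h a ≠ 0) ∧
      (∀ a b, side h a * side h b < 0 →
        L.tr h * L.lam a b = L.lam a (h • b) + L.lam a (h⁻¹ • b)) ∧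
      (∀ k : ℕ, 1 ≤ k → L.tr (h ^ k) = tk (L.tr h) k) ∧
      (∀ g ∈ G, L.tr (g * h * g⁻¹) = L.tr h) ∧ L.tr (-h) = L.tr h ∧ L.tr h⁻¹ = L.tr h ∧
      (∀ (Rp : Rep L) (h' : G), (h' : SLZ) = h →
        L.tr h = ((Int.sign h.1.trace : ℤ) : K) * (Rp.R h').1.trace)

/-- EXIST: the generic local system exists. -/
def ExistStatement : Prop :=
  ∀ G : Subgroup SLZ, IsSurface G →
    ∃ (K : Type) (_ : Field K) (_ : Algebra ℂ K), Nonempty (Lam G K)

end Pool.Agent.Lib.MP_eee7a8_ag.TB
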