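import Pool.Agent.Lib.MP_eee7a8_ag.TB.Iface1

/-!
# TAGBR: interface 2 (crossing numbers, loops, twists, the functionals PP)

Everything is relative to `e : Option (Cusp × Cusp)`: `none`, or an arc with ends at two different
punctures, whose lambda length is set to zero.
-/

open Matrix

namespace Pool.Agent.Lib.MP_eee7a8_ag.TB

variable (G : Subgroup SLZ)

/-! ## The arc `e` -/

/-- Translates of `e`. -/
def Ge (e : Option (Cusp × Cusp)) (a b : Cusp) : Prop := ∃ p, e = some p ∧ SameArc G p.1 p.2 a b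

/-- `a ~ b`: connected by translates of `e`. -/
def Sim (e : Option (Cusp × Cusp)) (a b : Cusp) : Prop := Relation.EqvGen (Ge G e) a b

/-- `ab` crosses no translate of `e`. -/
def NC (e : Option (Cusp × Cusp)) (a b : Cusp) : Prop := ∀ c d, Ge G e c d → ¬ Cross a b c d

/-- The axis of `h` crosses no translate of `e`. -/
def NCL (e : Option (Cusp × Cusp)) (h : SLZ) : Prop :=
  ∀ c d, Ge G e c d → 0 < side h c * side h d

/-- Admissible `e`: a simple arc between two different punctures (or `none`). -/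
def Adm (e : Option (Cusp × Cusp)) : Prop :=
  ∀ p, e = some p → Simple G p.1 p.2 ∧ ∀ g ∈ G, g • p.1 ≠ p.2

/-- `T` is a triangulation containing `e` such that no triangle has two sides in `Ge`. -/
structure Good (e : Option (Cusp × Cusp)) {ι : Type} (T : Fam ι) : Prop extends T.IsTri G where
  mem : ∀ a b, Ge G e a b → T.E G a b
  nofold : ∀ a b c, Ge G e a b → Ge G e b c → a ≠ c → ¬ T.E G a c

/-- The exponents vanish on the translates of `e`. -/
def Rz (e : Option (Cusp × Cusp)) {ι : Type} (T : Fam ι) (m : ι → ℤ) : Prop :=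
  ∀ i, Ge G e (T.s i) (T.t i) → m i = 0

/-- The lattice of exponents spanned by `[ac] - [bc]`, `ab` a translate of `e`, `abc` a triangle. -/
def KerL (e : Option (Cusp × Cusp)) {ι : Type} (T : Fam ι) : AddSubgroup (ι → ℤ) :=
  AddSubgroup.closure {x | ∃ a b c, Ge G e a b ∧ T.E G a c ∧ T.E G b c ∧
    x = T.del G a c - T.del G b c}

/-- Pairing of an exponent with a function on pairs of cusps. -/
def pair {ι : Type} [Fintype ι] (T : Fam ι) (m : ι → ℤ) (X : Cusp → Cusp → ℤ) : ℤ :=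
  ∑ i, m i * X (T.s i) (T.t i)

/-! ## Crossing numbers -/

/-- Number of (oriented) strands of `Q` crossing `ab` without ends equivalent to `a` or `b`. -/
noncomputable def XB (e : Option (Cusp × Cusp)) {κ : Type} (Q : Fam κ) (a b : Cusp) : ℤ :=
  (Set.ncard {p : Cusp × Cusp | Q.E G p.1 p.2 ∧ Cross p.1 p.2 a b ∧
    ¬ Sim G e p.1 a ∧ ¬ Sim G e p.1 b ∧ ¬ Sim G e p.2 a ∧ ¬ Sim G e p.2 b} : ℤ)

/-- Number of axes of conjugates of `h` separating `a` and `b`. -/
noncomputable def XL (h : SLZ) (a b : Cusp) : ℤ :=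
  (Set.ncard {k : SLZ | (∃ g ∈ G, k = g * h * g⁻¹) ∧ side k a * side k b < 0} : ℤ)

/-- A family admissible for crossing numbers: non-crossing, it does not cross `e`, and no arc has
equivalent ends. -/
structure QAdm (e : Option (Cusp × Cusp)) {κ : Type} (Q : Fam κ) : Prop extends Q.NonCross G where
  nc : ∀ i, NC G e (Q.s i) (Q.t i)
  ns : ∀ i, ¬ Sim G e (Q.s i) (Q.t i)

/-- The properties of crossing functions used in the upper bound (X1): the inequality holds when the
product `ac · bd` survives at `e = 0`. -/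
structure SuperT (e : Option (Cusp × Cusp)) (X : Cusp → Cusp → ℤ) : Prop where
  symm : ∀ a b, X a b = X b a
  nonneg : ∀ a b, 0 ≤ X a b
  inv : ∀ g ∈ G, ∀ a b, X (g • a) (g • b) = X a b
  slide : ∀ a a' b, Sim G e a a' → NC G e a b → NC G e a' b → ¬ Sim G e a b → X a b = X a' b
  ineq : ∀ a b c d, Cross a b c d → NC G e a b → NC G e c d → ¬ Sim G e a c → ¬ Sim G e b d →
    ¬ Sim G e a b → ¬ Sim G e c d → X a c + X b d ≤ X a b + X c d

/-- TOOL: translates of `e` do not cross each other or a pair not crossing `e`; two equivalent cusps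
are not separated by a pair not crossing `e` unless one of them is equivalent to an end. -/
def ToolStatement : Prop :=
  ∀ (G : Subgroup SLZ), IsSurface G → ∀ e, Adm G e →
    (∀ g ∈ G, ∀ a b, Sim G e a b → Sim G e (g • a) (g • b)) ∧
    (∀ g ∈ G, ∀ a b, NC G e a b → NC G e (g • a) (g • b)) ∧
    (∀ a b, Ge G e a b → NC G e a b) ∧
    (∀ p q r s, Sim G e p q → NC G e r s → Cross p q r s → Sim G e p r ∨ Sim G e p s) ∧
    (∀ h, NCL G e h → ∀ p q, Sim G e p q → (∀ a, side h a ≠ 0) → 0 < side h p * side h q) ∧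
    (∀ a b c d, Cross a b c d → NC G e a b → NC G e c d →
      NC G e a c ∧ NC G e b d ∧ NC G e a d ∧ NC G e b c)

/-- XBSUP: `XB` is a crossing function; the family `Q` itself gives one more unit (two oriented
strands). -/
def XbSupStatement : Prop :=
  ∀ (G : Subgroup SLZ), IsSurface G → ∀ e, Adm G e → ∀ (κ : Type) [Finite κ] (Q : Fam κ),
    QAdm G e Q → SuperT G e (XB G e Q) ∧
    ∀ a b c d, Cross a b c d → Q.E G a b → NC G e c d → ¬ Sim G e a c → ¬ Sim G e b d →
      ¬ Sim G e a d → ¬ Sim G e b c → ¬ Sim G e c d →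
      XB G e Q a c + XB G e Q b d + 1 ≤ XB G e Q a b + XB G e Q c d ∧
      XB G e Q a d + XB G e Q b c + 1 ≤ XB G e Q a b + XB G e Q c d

/-- XLSUP: `XL h` is a crossing function for a loop not crossing `e`; sums of those of pairwise
disjoint loops satisfy the exact tropical relation. -/
def XlSupStatement : Prop :=
  ∀ (G : Subgroup SLZ), IsSurface G → ∀ e, Adm G e → ∀ h, IsLoop G h → NCL G e h →
    SuperT G e (XL G h)

/-- The loop `h` is not the boundary of a neighbourhood of `e`: no power of `h` maps a cusp to an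
equivalent one.  (For `e = none` this holds for all hyperbolic `h`.) -/
def NonDeg (e : Option (Cusp × Cusp)) (h : SLZ) : Prop :=
  ∀ (a : Cusp) (n : ℕ), 1 ≤ n → ¬ Sim G e a (h ^ n • a)

/-- Families of pairwise disjoint nondegenerate loops not crossing `e`. -/
structure LoopFam (e : Option (Cusp × Cusp)) (r : ℕ) where
  h : Fin r → SLZ
  loop : ∀ i, IsLoop G (h i)
  disj : ∀ i j, i ≠ j → DisjLoop G (h i) (h j)
  nc : ∀ i, NCL G e (h i)
  nd : ∀ i, NonDeg G e (h i)

/-- Number of axes of the family separating `a` and `b`. -/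
noncomputable def XF {e : Option (Cusp × Cusp)} {r : ℕ} (Λ : LoopFam G e r) (a b : Cusp) : ℤ :=
  ∑ i, XL G (Λ.h i) a b

/-- XFEXACT: exact tropical relation (not used). -/
def XfExactStatement : Prop :=
  ∀ (G : Subgroup SLZ), IsSurface G → ∀ e, Adm G e → ∀ r (Λ : LoopFam G e r) a b c d,
    Cross a b c d → XF G Λ a b + XF G Λ c d = max (XF G Λ a c + XF G Λ b d)
      (XF G Λ a d + XF G Λ b c)

/-! ## Upper bounds for exponents -/

/-- RECB: behaviour of the expansions at `e = 0`. -/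
def RecbStatement : Prop :=
  ∀ (G : Subgroup SLZ), IsSurface G → ∀ e, Adm G e → ∀ (ι : Type) [Finite ι] (T : Fam ι),
    Good G e T → ∀ P, IsPol G T P →
    (∀ a b, T.E G a b → Sim G e a b → Ge G e a b) ∧
    (∀ a b, NC G e a b → ∀ m ∈ (P a b).coeff.support, ∀ i, Ge G e (T.s i) (T.t i) → 0 ≤ m i) ∧
    (∀ a b, NC G e a b → Sim G e a b → ∀ m ∈ (P a b).coeff.support, ¬ Rz G e T m) ∧
    (∀ a b, NC G e a b → ¬ Sim G e a b → ∃ m ∈ (P a b).coeff.support, Rz G e T m)

/-- X1: upper bound. -/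
def X1Statement : Prop :=
  ∀ (G : Subgroup SLZ), IsSurface G → ∀ e, Adm G e → ∀ (ι : Type) [Fintype ι] (T : Fam ι),
    Good G e T → ∀ P, IsPol G T P → ∀ X, SuperT G e X →
    ∀ a b, NC G e a b → ¬ Sim G e a b → ∀ m ∈ (P a b).coeff.support, Rz G e T m →
      pair T m X ≤ X a b

/-- X1S: strict upper bound for the arcs of the family which are not (up to sliding along `e`) edges
of `T`; for the others all exponents of the expansion at `e = 0` are equal modulo `KerL`. -/
def X1sStatement : Prop :=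
  ∀ (G : Subgroup SLZ), IsSurface G → ∀ e, Adm G e → ∀ (ι : Type) [Fintype ι] (T : Fam ι),
    Good G e T → ∀ P, IsPol G T P → ∀ (κ : Type) [Finite κ] (Q : Fam κ), QAdm G e Q →
    ∀ a b, Q.E G a b →
      (∃ a' b', Sim G e a a' ∧ Sim G e b b' ∧ T.E G a' b' ∧
        ∀ m ∈ (P a b).coeff.support, Rz G e T m → m - T.del G a' b' ∈ KerL G e T) ∨
      (∀ m ∈ (P a b).coeff.support, Rz G e T m → pair T m (XB G e Q) ≤ XB G e Q a b - 1)

/-- Laurent polynomial of `tr (h^k)` in the chart `T`. -/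
def IsTrP {ι : Type} (T : Fam ι) (P : Cusp → Cusp → LP ι) (h : SLZ) (k : ℕ) (p : LP ι) : Prop :=
  ∀ a b, T.E G a b → side h a * side h b < 0 →
    p * AddMonoidAlgebra.single (T.del G a b) 1 = P a (h ^ k • b) + P a ((h⁻¹) ^ k • b)

/-- TRPOL: existence of the polynomial; it evaluates to the trace; hyperbolic elements cross some
edge; for a loop not crossing `e` the exponents are nonnegative at `e`. -/
def TrPolStatement : Prop :=
  ∀ (G : Subgroup SLZ) (K : Type) [Field K] [Algebra ℂ K] (L : Lam G K), IsSurface G →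
    ∀ (ι : Type) [Fintype ι] (T : Fam ι), T.IsTri G →
    ∀ P : Cusp → Cusp → LP ι, IsPol G T P → (∀ a b, L.evN T (P a b) = L.lam a b) →
    ∀ h ∈ G, 2 < |h.1.trace| → ∀ k : ℕ, 1 ≤ k →
      (∃ a b, T.E G a b ∧ side h a * side h b < 0) ∧
      ∃ p : LP ι, IsTrP G T P h k p ∧ L.evN T p = L.tr (h ^ k)

/-- X2: upper bound for the traces of loops disjoint from the walls of `X`. -/
def X2Statement : Prop :=
  ∀ (G : Subgroup SLZ), IsSurface G → ∀ e, Adm G e → ∀ (ι : Type) [Fintype ι] (T : Fam ι),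
    Good G e T → ∀ P, IsPol G T P → ∀ X, SuperT G e X →
    ∀ h, IsLoop G h → NCL G e h →
    (∀ a b, side h a * side h b < 0 → ∀ k : ℤ, X a (h ^ k • b) ≤ X a b) →
    ∀ k : ℕ, 1 ≤ k → ∀ p, IsTrP G T P h k p →
      (∀ m ∈ p.coeff.support, ∀ i, Ge G e (T.s i) (T.t i) → 0 ≤ m i) ∧
      ∀ m ∈ p.coeff.support, Rz G e T m → pair T m X ≤ 0

/-- X2B, X2L: the hypothesis of X2 for `XB` and `XF`. -/
def X2bStatement : Prop :=
  ∀ (G : Subgroup SLZ), IsSurface G → ∀ e, Adm G e →
    (∀ (κ : Type) [Finite κ] (Q : Fam κ), QAdm G e Q → ∀ h, IsLoop G h → NCL G e h →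
      (∀ p q, Q.E G p q → 0 < side h p * side h q) →
      ∀ a b, side h a * side h b < 0 → ∀ k : ℤ, XB G e Q a (h ^ k • b) ≤ XB G e Q a b) ∧
    (∀ r (Λ : LoopFam G e r) h, IsLoop G h →
      (∀ j, ∀ g ∈ G, ¬ AxesCross h (g * Λ.h j * g⁻¹)) →
      ∀ a b, side h a * side h b < 0 → ∀ k : ℤ, XF G Λ a (h ^ k • b) ≤ XF G Λ a b)

/-! ## Shear vectors, twists -/

/-- `m` is the shear vector (up to sign) of the loop `h` in the triangulation `T`: potentials `α`,
`β` on the two sides of the axis with `α a + β b = [ab]` for all edges crossing the axis, and `m`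
the increment of `β`. -/
def IsShear {ι : Type} (T : Fam ι) (h : SLZ) (m : ι → ℤ) : Prop :=
  ∃ α β : Cusp → ι → ℤ,
    (∀ a b, T.E G a b → 0 < side h a → side h b < 0 → α a + β b = T.del G a b) ∧
    (∀ a b, T.E G a b → 0 < side h a → side h b < 0 →
      β (h • b) - β b = m ∧ α (h • a) - α a = -m)

/-- SHEAR: existence and uniqueness of shear vectors; they are supported on the edges crossed by the
axis; behaviour under conjugation, sign and inversion. -/
def ShearStatement : Prop :=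
  ∀ (G : Subgroup SLZ), IsSurface G → ∀ (ι : Type) [Finite ι] (T : Fam ι), T.IsTri G →
    ∀ h, IsLoop G h →
    (∃ m, IsShear G T h m) ∧
    (∀ m m', IsShear G T h m → IsShear G T h m' → m = m') ∧
    (∀ m, IsShear G T h m → ∀ i, m i ≠ 0 →
      ∃ a b, SameArc G (T.s i) (T.t i) a b ∧ side h a * side h b < 0) ∧
    (∀ m, IsShear G T h m → (∀ g ∈ G, IsShear G T (g * h * g⁻¹) m) ∧ IsShear G T (-h) (-m) ∧
      IsShear G T h⁻¹ m)

/-- TOP: leading part of `tr (h^k)` with respect to the crossing number with a family of disjoint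
loops containing `h`. -/
def TopStatement : Prop :=
  ∀ (G : Subgroup SLZ), IsSurface G → ∀ e, Adm G e → ∀ (ι : Type) [Fintype ι] (T : Fam ι),
    Good G e T → ∀ P, IsPol G T P → ∀ r (Λ : LoopFam G e r) (j : Fin r) (m : ι → ℤ),
    IsShear G T (Λ.h j) m → m ≠ 0 → ∀ k : ℕ, 1 ≤ k → ∀ p, IsTrP G T P (Λ.h j) k p →
      Rz G e T m ∧ pair T m (XF G Λ) = 0 ∧
      p.coeff ((k : ℤ) • m) = 1 ∧ p.coeff (-((k : ℤ) • m)) = 1 ∧
      ∀ m' ∈ p.coeff.support, Rz G e T m' → 0 ≤ pair T m' (XF G Λ) →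
        m' = (k : ℤ) • m ∨ m' = -((k : ℤ) • m)

/-- TWIST: for a family `Λ` of disjoint loops there are triangulations containing all edges of `T`
not crossed by `Λ` such that the shear vectors have nonnegative pairing with finitely many given
crossing functions, and positive pairing if the loop is crossed. -/
def TwistStatement : Prop :=
  ∀ (G : Subgroup SLZ), IsSurface G → ∀ e, Adm G e → ∀ (ι : Type) [Fintype ι] (T : Fam ι),
    Good G e T → ∀ r (Λ : LoopFam G e r)
    (n : ℕ) (κ : Fin n → Type) [∀ l, Finite (κ l)] (Q : ∀ l, Fam (κ l)) (_ : ∀ l, QAdm G e (Q l))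
    (n' : ℕ) (h' : Fin n' → SLZ) (_ : ∀ l, IsLoop G (h' l)) (_ : ∀ l, NCL G e (h' l)),
    ∃ (T' : Fam ι) (m : Fin r → ι → ℤ), Good G e T' ∧
      (∀ a b, T.E G a b → (∀ j, ∀ g ∈ G, 0 < side (Λ.h j) (g • a) * side (Λ.h j) (g • b)) →
        T'.E G a b) ∧
      (∀ j, IsShear G T' (Λ.h j) (m j)) ∧
      (∀ j l, 0 ≤ pair T' (m j) (XB G e (Q l))) ∧
      (∀ j l, (∃ p q, (Q l).E G p q ∧ side (Λ.h j) p * side (Λ.h j) q < 0) →
        0 < pair T' (m j) (XB G e (Q l))) ∧
      (∀ j l, 0 ≤ pair T' (m j) (XL G (h' l))) ∧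
      (∀ j l, (∃ g ∈ G, AxesCross (Λ.h j) (g * h' l * g⁻¹)) →
        0 < pair T' (m j) (XL G (h' l)))

/-- INDEP: shear vectors of disjoint loops are linearly independent modulo `KerL`. -/
def IndepStatement : Prop :=
  ∀ (G : Subgroup SLZ), IsSurface G → ∀ e, Adm G e → ∀ (ι : Type) [Fintype ι] (T : Fam ι),
    Good G e T → ∀ r (Λ : LoopFam G e r) (m : Fin r → ι → ℤ),
    (∀ j, IsShear G T (Λ.h j) (m j)) → ∀ c : Fin r → ℤ, (∑ j, c j • m j) ∈ KerL G e T → c = 0

/-! ## Systems and PP -/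

/-- A (plain) system: simple arcs and weighted loops, pairwise disjoint. -/
structure Sys where
  arcs : List (Cusp × Cusp)
  loops : List (SLZ × ℕ)
  ne : ∀ p ∈ arcs, p.1 ≠ p.2
  nocross : ∀ p ∈ arcs, ∀ q ∈ arcs, ∀ g ∈ G, ¬ Cross p.1 p.2 (g • q.1) (g • q.2)
  loop : ∀ l ∈ loops, IsLoop G l.1 ∧ 1 ≤ l.2
  disj : ∀ l ∈ loops, ∀ p ∈ arcs, ∀ g ∈ G, 0 < side l.1 (g • p.1) * side l.1 (g • p.2)
  pairw : loops.Pairwise (fun l m => DisjLoop G l.1 m.1)

/-- The function of a system. -/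
noncomputable def Lam.IS {G : Subgroup SLZ} {K : Type*} [Field K] [Algebra ℂ K] (L : Lam G K)
    (β : Sys G) : K :=
  (β.arcs.map (fun p => L.lam p.1 p.2)).prod * (β.loops.map (fun l => tk (L.tr l.1) l.2)).prod

/-- The system does not cross `e` and has no arc with equivalent ends (in particular it does not
contain `e`). -/
structure SysE (e : Option (Cusp × Cusp)) (β : Sys G) : Prop where
  nc : ∀ p ∈ β.arcs, NC G e p.1 p.2
  ns : ∀ p ∈ β.arcs, ¬ Sim G e p.1 p.2
  ncl : ∀ l ∈ β.loops, NCL G e l.1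

/-- The system has an arc with an end at one of the two punctures of `e`. -/
def Touch (e : Option (Cusp × Cusp)) (β : Sys G) : Prop :=
  ∀ p, e = some p → ∃ q ∈ β.arcs, ∃ g ∈ G, g • p.1 = q.1 ∨ g • p.1 = q.2 ∨ g • p.2 = q.1 ∨
    g • p.2 = q.2

/-- NONDEG: the loops of a system touching `e` are nondegenerate. -/
def NondegStatement : Prop :=
  ∀ (G : Subgroup SLZ), IsSurface G → ∀ e, Adm G e → ∀ β : Sys G, SysE G e β → Touch G e β →
    ∀ l ∈ β.loops, NonDeg G e l.1

/-- Arcs equal up to the group and sliding along `e`. -/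
def SlideArc (e : Option (Cusp × Cusp)) (p q : Cusp × Cusp) : Prop :=
  ∃ g ∈ G, (Sim G e (g • p.1) q.1 ∧ Sim G e (g • p.2) q.2) ∨
    (Sim G e (g • p.1) q.2 ∧ Sim G e (g • p.2) q.1)

/-- The same loop with the same multiplicity. -/
def SameLoop (l m : SLZ × ℕ) : Prop :=
  l.2 = m.2 ∧ ∃ g ∈ G, g * l.1 * g⁻¹ = m.1 ∨ g * l.1 * g⁻¹ = -m.1 ∨ g * l.1 * g⁻¹ = m.1⁻¹ ∨
    g * l.1 * g⁻¹ = -m.1⁻¹

/-- Systems equal up to sliding along `e` (for `e = none`: equal systems). -/
def Slide (e : Option (Cusp × Cusp)) (β γ : Sys G) : Prop :=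
  Multiset.Rel (SlideArc G e) (β.arcs : Multiset (Cusp × Cusp)) γ.arcs ∧
  Multiset.Rel (SameLoop G) (β.loops : Multiset (SLZ × ℕ)) γ.loops

/-- `p` is the Laurent polynomial of the function of the system `β` in the chart `T`. -/
def IsSysP {ι : Type} (T : Fam ι) (P : Cusp → Cusp → LP ι) (β : Sys G) (p : LP ι) : Prop :=
  ∃ q : List (LP ι), List.Forall₂ (fun l x => IsTrP G T P l.1 l.2 x) β.loops q ∧
    p = (β.arcs.map (fun a => P a.1 a.2)).prod * q.prod

/-- PPT: a good triangulation containing the arcs of a system. -/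
def PptStatement : Prop :=
  ∀ (G : Subgroup SLZ), IsSurface G → ∀ e, Adm G e → ∀ β : Sys G, SysE G e β →
    ∃ (n : ℕ) (T : Fam (Fin n)), Good G e T ∧ ∀ p ∈ β.arcs, T.E G p.1 p.2

/-- PP: for finitely many systems and one of them, `β₀`, there is a coefficient which detects the
class of `β₀`. -/
def PPStatement : Prop :=
  ∀ (G : Subgroup SLZ), IsSurface G → ∀ e, Adm G e → ∀ (B : List (Sys G)),
    (∀ β ∈ B, SysE G e β ∧ Touch G e β) → ∀ β₀ ∈ B,
    ∃ (n : ℕ) (T : Fam (Fin n)) (E : Fin n → ℤ), Good G e T ∧ Rz G e T E ∧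
      ∀ P, IsPol G T P → ∀ β ∈ B, ∀ p, IsSysP G T P β p →
        (∀ ν ∈ KerL G e T, p.coeff (E + ν) ≠ 0 → Slide G e β β₀) ∧
        (β = β₀ → ∀ ν ∈ KerL G e T, p.coeff (E + ν) = if ν = 0 then 1 else 0)

end Pool.Agent.Lib.MP_eee7a8_ag.TB
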