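import Pool.Agent.Lib.MP_eee7a8_ag.TB.Iface2

/-!
# TAGBR Part B: strands, crossing numbers, positions, strips, twists (definitions)

Namespace `PB`. The final targets are the statements of group B in `Iface2.lean`.

A strand (a geodesic: an arc or an axis) is an indefinite integral binary quadratic form; its ends
are the zeros of the form, and it separates two cusps if the form has opposite signs at them.
The form and its negative are the two orientations of the strand.
-/

open Matrix

namespace Pool.Agent.Lib.MP_eee7a8_ag.TB.PB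

/-! ## Quadratic forms -/

/-- The integral binary quadratic form `a x² + b x y + c y²`. -/
@[ext] structure QF where
  a : ℤ
  b : ℤ
  c : ℤ

/-- The value at a cusp. -/
def QF.ev (f : QF) (v : Cusp) : ℤ := f.a * v.x ^ 2 + f.b * v.x * v.y + f.c * v.y ^ 2

/-- The discriminant. -/
def QF.disc (f : QF) : ℤ := f.b ^ 2 - 4 * f.a * f.c

/-- The resultant: negative iff the two strands cross. -/
def QF.res (f g : QF) : ℤ :=
  (f.a * g.c - f.c * g.a) ^ 2 - (f.a * g.b - f.b * g.a) * (f.b * g.c - f.c * g.b)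

/-- The action of `SL(2,ℤ)`: `(f.act g)(g v) = f v`. -/
def QF.act (g : SLZ) (f : QF) : QF :=
  ⟨f.a * g.1 1 1 ^ 2 - f.b * g.1 1 0 * g.1 1 1 + f.c * g.1 1 0 ^ 2,
   -2 * f.a * g.1 0 1 * g.1 1 1 + f.b * (g.1 0 0 * g.1 1 1 + g.1 0 1 * g.1 1 0)
     - 2 * f.c * g.1 0 0 * g.1 1 0,
   f.a * g.1 0 1 ^ 2 - f.b * g.1 0 0 * g.1 0 1 + f.c * g.1 0 0 ^ 2⟩

/-- The oriented arc `st`. -/
def arcF (s t : Cusp) : QF :=
  ⟨-(dt s t * t.y * s.y), dt s t * (t.x * s.y + t.y * s.x), -(dt s t * t.x * s.x)⟩

/-- The axis of `h`: the form `side h`. -/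
def sideF (h : SLZ) : QF := ⟨h.1 1 0, h.1 1 1 - h.1 0 0, -h.1 0 1⟩

theorem ev_arcF (s t v : Cusp) : (arcF s t).ev v = dt s t * dt t v * dt v s := by
  unfold QF.ev arcF dt; ring

theorem ev_sideF (h : SLZ) (v : Cusp) : (sideF h).ev v = side h v := by
  unfold QF.ev sideF side; ring

theorem disc_arcF (s t : Cusp) : (arcF s t).disc = dt s t ^ 4 := by
  unfold QF.disc arcF dt; ring

theorem disc_sideF (h : SLZ) : (sideF h).disc = h.1.trace ^ 2 - 4 := by
  have := det_eq h
  unfold QF.disc sideF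
  rw [Matrix.trace_fin_two]
  linear_combination (-4) * this

theorem res_symm (f g : QF) : f.res g = g.res f := by
  unfold QF.res; ring

/-- `4 res = (polar form of the discriminants)² - disc * disc`. -/
theorem four_res (f g : QF) :
    4 * f.res g = (f.b * g.b - 2 * f.a * g.c - 2 * f.c * g.a) ^ 2 - f.disc * g.disc := by
  unfold QF.res QF.disc; ring

theorem res_arcF (s t s' t' : Cusp) :
    (arcF s t).res (arcF s' t') =
      (dt s t * dt s' t') ^ 2 * ((dt s s' * dt t s') * (dt s t' * dt t t')) := by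
  unfold QF.res arcF dt; ring

theorem res_sideF_arcF (h : SLZ) (s t : Cusp) :
    (sideF h).res (arcF s t) = (dt s t) ^ 2 * (side h s * side h t) := by
  unfold QF.res arcF sideF dt side; ring

theorem ev_act (g : SLZ) (f : QF) (v : Cusp) : (f.act g).ev (g • v) = f.ev v := by
  have h := det_eq g
  have he := eps_sq g v
  unfold QF.ev QF.act
  rw [smul_x', smul_y']
  set p := g.1 0 0
  set q := g.1 0 1
  set r := g.1 1 0
  set s := g.1 1 1
  set e := eps g v
  have h1 : s * (p * v.x + q * v.y) - q * (r * v.x + s * v.y) = v.x := by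
    linear_combination v.x * h
  have h2 : -r * (p * v.x + q * v.y) + p * (r * v.x + s * v.y) = v.y := by
    linear_combination v.y * h
  calc _ = (e * e) * (f.a * (s * (p * v.x + q * v.y) - q * (r * v.x + s * v.y)) ^ 2 +
        f.b * (s * (p * v.x + q * v.y) - q * (r * v.x + s * v.y)) *
          (-r * (p * v.x + q * v.y) + p * (r * v.x + s * v.y)) +
        f.c * (-r * (p * v.x + q * v.y) + p * (r * v.x + s * v.y)) ^ 2) := by ring
    _ = _ := by rw [h1, h2, he]; ring

theorem disc_act (g : SLZ) (f : QF) : (f.act g).disc = f.disc := by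
  have h := det_eq g
  unfold QF.disc QF.act
  simp only
  linear_combination ((f.b ^ 2 - 4 * f.a * f.c) * (g.1 0 0 * g.1 1 1 - g.1 0 1 * g.1 1 0 + 1)) * h

theorem res_act (g : SLZ) (f f' : QF) : (f.act g).res (f'.act g) = f.res f' := by
  have h := det_eq g
  have h4 : (g.1 0 0 * g.1 1 1 - g.1 0 1 * g.1 1 0) ^ 4 = 1 := by rw [h]; norm_num
  have : (f.act g).res (f'.act g) =
      (g.1 0 0 * g.1 1 1 - g.1 0 1 * g.1 1 0) ^ 4 * f.res f' := by
    unfold QF.res QF.act
    simp only
    ring
  rw [this, h4, one_mul]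

theorem act_mul (g h : SLZ) (f : QF) : f.act (g * h) = (f.act h).act g := by
  unfold QF.act
  simp only [Matrix.SpecialLinearGroup.coe_mul, Matrix.mul_apply, Fin.sum_univ_two]
  ext <;> simp only <;> ring

theorem act_one (f : QF) : f.act 1 = f := by
  unfold QF.act
  ext <;> simp

theorem act_sideF (g h : SLZ) : (sideF h).act g = sideF (g * h * g⁻¹) := by
  unfold QF.act sideF
  simp only [Matrix.SpecialLinearGroup.coe_mul, Matrix.mul_apply, Fin.sum_univ_two,
    Matrix.SpecialLinearGroup.coe_inv, Matrix.adjugate_fin_two, Matrix.of_apply,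
    Matrix.cons_val', Matrix.cons_val_zero, Matrix.cons_val_one, Matrix.cons_val_fin_one]
  ext <;> simp only <;> ring

theorem sideF_neg (h : SLZ) : sideF (-h) = ⟨-(sideF h).a, -(sideF h).b, -(sideF h).c⟩ := by
  unfold sideF
  simp only [Matrix.SpecialLinearGroup.coe_neg, Matrix.neg_apply]
  ext <;> (simp only; try ring)

theorem sideF_inv (h : SLZ) : sideF h⁻¹ = ⟨-(sideF h).a, -(sideF h).b, -(sideF h).c⟩ := by
  unfold sideF
  simp only [Matrix.SpecialLinearGroup.coe_inv, Matrix.adjugate_fin_two, Matrix.of_apply,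
    Matrix.cons_val', Matrix.cons_val_zero, Matrix.cons_val_one, Matrix.cons_val_fin_one]
  ext <;> simp only <;> ring

theorem act_arcF (g : SLZ) (s t : Cusp) : (arcF s t).act g = arcF (g • s) (g • t) := by
  have hs := eps_sq g s
  have ht := eps_sq g t
  have hd := dt_smul g s t
  unfold QF.act arcF
  simp only
  rw [hd, smul_x', smul_y', smul_x', smul_y']
  generalize eps g s = e at *
  generalize eps g t = e' at *
  have key : ∀ A : ℤ, A = (e * e) * (e' * e') * A := by intro A; rw [hs, ht]; ring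
  ext
  · simp only
    rw [key (-(dt s t * t.y * s.y) * _ ^ 2 - _ + _)]
    ring
  · simp only
    rw [key (-2 * -(dt s t * t.y * s.y) * _ * _ + _ - _)]
    ring
  · simp only
    rw [key (-(dt s t * t.y * s.y) * _ ^ 2 - _ + _)]
    ring

/-- The form with the opposite orientation. -/
def QF.neg (f : QF) : QF := ⟨-f.a, -f.b, -f.c⟩

theorem ev_neg (f : QF) (v : Cusp) : f.neg.ev v = -f.ev v := by
  unfold QF.neg QF.ev; ring

theorem disc_neg (f : QF) : f.neg.disc = f.disc := by
  unfold QF.neg QF.disc; ring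

theorem res_neg (f g : QF) : f.neg.res g = f.res g := by
  unfold QF.neg QF.res; ring

/-! ## Families of strands and crossing numbers -/

/-- A `G`-invariant family of strands with bounded discriminants. -/
structure SFam (G : Subgroup SLZ) (S : Set QF) : Prop where
  pos : ∀ f ∈ S, 0 < f.disc
  inv : ∀ g ∈ G, ∀ f ∈ S, f.act g ∈ S
  bdd : ∃ N : ℤ, ∀ f ∈ S, f.disc ≤ N

/-- Finitely many orbits of simple strands. -/
structure SimpleFam (G : Subgroup SLZ) (S : Set QF) : Prop extends SFam G S where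
  orb : ∃ F : Finset QF, (∀ f ∈ F, ∀ g ∈ G, 0 ≤ f.res (f.act g)) ∧
    ∀ f ∈ S, ∃ f₀ ∈ F, ∃ g ∈ G, f = f₀.act g

/-- The strand `f` separates `x` and `y`, and no end of `f` is equivalent (relation `r`) to `x` or
`y`. For the relation `Eq` the last clause is automatic. -/
def QF.Meets (r : Cusp → Cusp → Prop) (f : QF) (x y : Cusp) : Prop :=
  f.ev x * f.ev y < 0 ∧ ∀ z, f.ev z = 0 → ¬ r z x ∧ ¬ r z y

/-- The number of oriented strands of `S` which meet `xy` (twice the number of strands). -/
noncomputable def XX (S : Set QF) (r : Cusp → Cusp → Prop) (x y : Cusp) : ℤ :=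
  ({f | f ∈ S ∧ f.Meets r x y}.ncard : ℤ)

/-- The strands of a family of arcs (both orientations). -/
def strandsQ (G : Subgroup SLZ) {ι : Type} (T : Fam ι) : Set QF :=
  {f | ∃ a b, T.E G a b ∧ f = arcF a b}

/-! ## The coordinate of a hyperbolic element `h` with `2 < tr h` -/

/-- The square root of the discriminant. -/
noncomputable def sqd (h : SLZ) : ℝ := Real.sqrt ((h.1.trace : ℝ) ^ 2 - 4)

/-- The larger eigenvalue. -/
noncomputable def lmd (h : SLZ) : ℝ := ((h.1.trace : ℝ) + sqd h) / 2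

/-- The coordinate with `al (h v) = lmd h * al v`. -/
noncomputable def al (h : SLZ) (v : Cusp) : ℝ :=
  v.x - (((h.1 0 0 : ℝ) - h.1 1 1 - sqd h) / (2 * h.1 1 0)) * v.y

/-- The coordinate with `be (h v) = (lmd h)⁻¹ * be v`. -/
noncomputable def be (h : SLZ) (v : Cusp) : ℝ :=
  -((h.1 1 0 : ℝ) / sqd h) * (v.x - (((h.1 0 0 : ℝ) - h.1 1 1 + sqd h) / (2 * h.1 1 0)) * v.y)

/-- The projective coordinate in which `h` is the multiplication by `(lmd h) ^ 2`. -/
noncomputable def rho (h : SLZ) (v : Cusp) : ℝ := al h v / be h v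

/-- The position of the cusp `v` along the axis of `h`: `pos h (h v) = pos h v + 1`. -/
noncomputable def pos (h : SLZ) (v : Cusp) : ℝ := Real.log |rho h v| / (2 * Real.log (lmd h))

/-- The form `f` changes its sign at the position `p` on the negative side of `h` and at the
position `q` on the positive side: the strand of `f` crosses the axis of `h`. -/
def Cut (h : SLZ) (f : QF) (σ : ℤ) (p q : ℝ) : Prop :=
  (σ = 1 ∨ σ = -1) ∧
  (∀ u, side h u < 0 → ((0 < σ * f.ev u ↔ p < pos h u) ∧ (σ * f.ev u < 0 ↔ pos h u < p))) ∧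
  (∀ v, 0 < side h v → ((0 < σ * f.ev v ↔ q < pos h v) ∧ (σ * f.ev v < 0 ↔ pos h v < q)))

/-- All strands of `S` crossing the axis of `h` have displacement at most `M`. -/
def Bdd (h : SLZ) (S : Set QF) (M : ℝ) : Prop :=
  ∀ f ∈ S, (sideF h).res f < 0 → ∃ σ p q, Cut h f σ p q ∧ |q - p| ≤ M

/-- The relation `r` is compatible with the axis of `h`: equivalent cusps are on the same side and
have almost the same position. -/
def RelOK (h : SLZ) (r : Cusp → Cusp → Prop) : Prop :=
  (∀ z x, r z x → 0 < side h z * side h x) ∧ (∀ z x, r z x → |pos h z - pos h x| ≤ 1)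

/-- The relation `r` is invariant under `G`. -/
def RelInv (G : Subgroup SLZ) (r : Cusp → Cusp → Prop) : Prop :=
  ∀ g ∈ G, ∀ x y, r (g • x) (g • y) ↔ r x y

/-! ## Strips -/

/-- The `T`-edges `u i — v i` crossing the axis of `h`, in their order along the axis. -/
structure Strip (G : Subgroup SLZ) {ι : Type} (T : Fam ι) (h : SLZ) where
  r : ℕ
  u : ℤ → Cusp
  v : ℤ → Cusp
  rpos : 0 < r
  edge : ∀ i, T.E G (u i) (v i)
  left : ∀ i, side h (u i) < 0
  right : ∀ i, 0 < side h (v i)
  step : ∀ i, (u (i + 1) = u i ∧ pos h (v i) < pos h (v (i + 1)) ∧ T.E G (v i) (v (i + 1))) ∨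
    (v (i + 1) = v i ∧ pos h (u i) < pos h (u (i + 1)) ∧ T.E G (u i) (u (i + 1)))
  per : ∀ i, u (i + r) = h • u i ∧ v (i + r) = h • v i
  all : ∀ a b, T.E G a b → side h a < 0 → 0 < side h b → ∃ i, a = u i ∧ b = v i

/-! ## Families of loops -/

/-- Pairwise disjoint, non isotopic loops, with positive traces. -/
structure LFam (G : Subgroup SLZ) (κ : Type) where
  h : κ → SLZ
  loop : ∀ j, IsLoop G (h j)
  tr : ∀ j, 2 < (h j).1.trace
  disj : ∀ i j, i ≠ j → DisjLoop G (h i) (h j)

variable {G : Subgroup SLZ} {κ : Type}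

/-- `k` is a conjugate of the loop number `j` or of its inverse. -/
def LFam.Mem (Λ : LFam G κ) (j : κ) (k : SLZ) : Prop :=
  ∃ g ∈ G, k = g * Λ.h j * g⁻¹ ∨ k = g * (Λ.h j)⁻¹ * g⁻¹

/-- All oriented axes of the family. -/
def LFam.KK (Λ : LFam G κ) : Set SLZ := {k | ∃ j, Λ.Mem j k}

/-- The strands of the family of loops (one orientation). -/
def LFam.strands (Λ : LFam G κ) : Set QF := {f | ∃ j, ∃ g ∈ G, f = sideF (g * Λ.h j * g⁻¹)}

/-- Inclusion of the positive half planes. -/
def HP (k k' : SLZ) : Prop := ∀ v, 0 < side k v → 0 < side k' v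

open Classical in
/-- The twist along the axis of `k`: `k ^ (n j)` if `k` belongs to the loop number `j`. -/
noncomputable def LFam.w (Λ : LFam G κ) (n : κ → ℤ) (k : SLZ) : SLZ :=
  if H : ∃ j, Λ.Mem j k then k ^ (n H.choose) else 1

/-- Points of the (completed) tree dual to the axes: consistent choices of sides. -/
structure Pt (Λ : LFam G κ) where
  /-- the point is on the positive side of `k` -/
  mem : SLZ → Prop
  inv : ∀ k ∈ Λ.KK, (mem k⁻¹ ↔ ¬ mem k)
  up : ∀ k ∈ Λ.KK, ∀ k' ∈ Λ.KK, HP k k' → mem k → mem k'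

/-- The axes separating `x` from `y`, with `y` on the positive side. -/
def Pt.Sep {Λ : LFam G κ} (x y : Pt Λ) : Set SLZ := {k | k ∈ Λ.KK ∧ ¬ x.mem k ∧ y.mem k}

/-- `l` lists the axes separating `x` from `y` in their order from `x` to `y`. -/
def IsOrd {Λ : LFam G κ} (x y : Pt Λ) (l : List SLZ) : Prop :=
  (∀ k, k ∈ l ↔ k ∈ x.Sep y) ∧ l.Nodup ∧ l.Pairwise (fun k k' => HP k' k)

open Classical in
/-- The ordered product of the twists along the axes separating `x` from `y`. -/
noncomputable def cpr {Λ : LFam G κ} (n : κ → ℤ) (x y : Pt Λ) : SLZ :=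
  if H : ∃ l, IsOrd x y l then (H.choose.map (Λ.w n)).prod else 1

/-- Transport of a family of arcs by a map. -/
def mapF {ι : Type} (T : Fam ι) (D : Cusp → Cusp) : Fam ι := ⟨D ∘ T.s, D ∘ T.t⟩

end Pool.Agent.Lib.MP_eee7a8_ag.TB.PB
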